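import Mathlib

set_option autoImplicit false
set_option linter.unusedSectionVars false

namespace Pool.Agent.Lib.MP_f9fa2e_lc

/-- The permutation `(0 1 2 3 4)(5 6 7)(8 9 10)`. -/
def sg : Equiv.Perm (Fin 11) where
  toFun := ![1, 2, 3, 4, 0, 6, 7, 5, 9, 10, 8]
  invFun := ![4, 0, 1, 2, 3, 7, 5, 6, 10, 8, 9]
  left_inv := by decide
  right_inv := by decide

/-- The cycle of an index. -/
def cyc (i : Fin 11) : ℕ := if i.val < 5 then 0 else if i.val < 8 then 1 else 2

lemma sg_pow15 : sg ^ 15 = 1 := by decide +kernel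

lemma sg_trans : ∀ k : Fin 15, ∀ i j : Fin 11, cyc i = cyc j → (sg ^ k.val) i ≠ i →
    ∃ m : Fin 5, ((sg ^ k.val) ^ m.val) i = j := by decide +kernel

lemma cyc_card : ∀ i : Fin 11, (Finset.univ.filter (fun j => cyc j ≠ cyc i)).card ≤ 8 := by
  decide +kernel

lemma sg_ne : ∀ i : Fin 11, sg i ≠ i := by decide +kernel

lemma sg_zpow (k : ℤ) : ∃ m : Fin 15, sg ^ k = sg ^ m.val := by
  refine ⟨⟨(k % 15).toNat, by omega⟩, ?_⟩
  have h1 : k = 15 * (k / 15) + ((k % 15).toNat : ℤ) := by omega
  conv_lhs => rw [h1]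
  rw [zpow_add, zpow_mul, zpow_natCast]
  have h2 : sg ^ (15 : ℤ) = 1 := by
    have := sg_pow15
    exact_mod_cast this
  rw [h2, one_zpow, one_mul]

section

variable {X : Type} [DecidableEq X] (γ : Equiv.Perm X)

/-- The action of the powers. -/
def act (k : ℤ) (w : Finset X) : Finset X := w.map (γ ^ k).toEmbedding

lemma mem_act (k : ℤ) (w : Finset X) (x : X) : (γ ^ k) x ∈ act γ k w ↔ x ∈ w := by
  simp [act]

lemma act_add (k l : ℤ) (w : Finset X) : act γ (k + l) w = act γ k (act γ l w) := by
  rw [act, act, act, Finset.map_map, zpow_add]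
  rfl

lemma act_zero (w : Finset X) : act γ 0 w = w := by
  ext x
  rw [act, Finset.mem_map_equiv, zpow_zero]
  rfl

lemma act_one (w : Finset X) : act γ 1 w = w.map γ.toEmbedding := by
  rw [act, zpow_one]

lemma card_act (k : ℤ) (w : Finset X) : (act γ k w).card = w.card := Finset.card_map _

lemma act_mono (k : ℤ) {v w : Finset X} (h : v ⊆ w) : act γ k v ⊆ act γ k w :=
  Finset.map_subset_map.2 h

lemma act_inj (k : ℤ) {v w : Finset X} (h : act γ k v = act γ k w) : v = w :=
  Finset.map_injective _ h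

lemma act_eq_self_of_subset {k : ℤ} {v : Finset X} (h : act γ k v ⊆ v) : act γ k v = v :=
  Finset.eq_of_subset_of_card_le h (by rw [card_act])

lemma mem_of_act_eq {k : ℤ} {w : Finset X} (h : act γ k w = w) {x : X} (hx : x ∈ w) :
    (γ ^ k) x ∈ w := by
  rw [← h, mem_act]; exact hx

lemma mem_of_act_eq_pow {k : ℤ} {w : Finset X} (h : act γ k w = w) (m : ℕ) {x : X} (hx : x ∈ w) :
    ((γ ^ k) ^ m) x ∈ w := by
  induction m with
  | zero => simpa using hx
  | succ m ih =>
    rw [pow_succ', Equiv.Perm.mul_apply]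
    exact mem_of_act_eq γ h ih

variable (z : Fin 11 → X) (hz : Function.Injective z) (h1 : ∀ i, γ (z i) = z (sg i))
  (h2 : ∀ x, x ∉ Set.range z → γ x = x)

include h1 in
lemma pow_z (m : ℕ) (i : Fin 11) : (γ ^ m) (z i) = z ((sg ^ m) i) := by
  induction m with
  | zero => simp
  | succ m ih =>
    rw [pow_succ', Equiv.Perm.mul_apply, ih, h1, pow_succ', Equiv.Perm.mul_apply]

include h1 in
lemma zpow_z (k : ℤ) (i : Fin 11) : (γ ^ k) (z i) = z ((sg ^ k) i) := by
  obtain ⟨n, rfl | rfl⟩ := k.eq_nat_or_neg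
  · rw [zpow_natCast, zpow_natCast]
    exact pow_z γ z h1 n i
  · rw [zpow_neg, zpow_neg, zpow_natCast, zpow_natCast, Equiv.Perm.inv_eq_iff_eq,
      pow_z γ z h1]
    simp

include h2 in
lemma zpow_out (k : ℤ) (x : X) (hx : x ∉ Set.range z) : (γ ^ k) x = x :=
  Equiv.Perm.zpow_apply_eq_self_of_apply_eq_self (h2 x hx) k

include hz h1 h2 in
/-- Every set with more than `8` elements has an `8`-element subset invariant under its
stabilizer. -/
lemma inv8 (w : Finset X) (hw : 8 < w.card) :
    ∃ v ⊆ w, v.card = 8 ∧ ∀ k : ℤ, act γ k w = w → act γ k v = v := by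
  classical
  set N := w.filter (fun x => ∃ k : ℤ, act γ k w = w ∧ (γ ^ k) x ≠ x) with hN
  have hNw : N ⊆ w := Finset.filter_subset _ _
  have hNinv : ∀ k : ℤ, act γ k w = w → act γ k N = N := by
    intro k hk
    apply act_eq_self_of_subset
    intro y hy
    obtain ⟨x, hx, rfl⟩ := Finset.mem_map.1 hy
    obtain ⟨hxw, l, hl, hlx⟩ := Finset.mem_filter.1 hx
    refine Finset.mem_filter.2 ⟨mem_of_act_eq γ hk hxw, l, hl, ?_⟩
    intro h
    apply hlx
    apply (γ ^ k).injective
    have e : (γ ^ k) ((γ ^ l) x) = (γ ^ l) ((γ ^ k) x) := by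
      rw [← Equiv.Perm.mul_apply, ← Equiv.Perm.mul_apply, ← zpow_add, ← zpow_add, add_comm]
    rw [e]; exact h
  have hfix : ∀ k : ℤ, act γ k w = w → ∀ x ∈ w, x ∉ N → (γ ^ k) x = x := by
    intro k hk x hx hxN
    by_contra hne
    exact hxN (Finset.mem_filter.2 ⟨hx, k, hk, hne⟩)
  by_cases hcard : N.card ≤ 8
  · have hc : 8 - N.card ≤ (w \ N).card := by
      rw [Finset.card_sdiff_of_subset hNw]; omega
    obtain ⟨U, hU, hUc⟩ := Finset.exists_subset_card_eq hc
    refine ⟨N ∪ U, Finset.union_subset hNw (hU.trans Finset.sdiff_subset), ?_, ?_⟩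
    · rw [Finset.card_union_of_disjoint, hUc]
      · omega
      · exact Finset.disjoint_of_subset_right hU Finset.disjoint_sdiff
    · intro k hk
      have e : act γ k (N ∪ U) = act γ k N ∪ act γ k U := Finset.map_union _ _
      have eU : act γ k U = U := by
        apply act_eq_self_of_subset
        intro y hy
        obtain ⟨x, hx, rfl⟩ := Finset.mem_map.1 hy
        have hx' := Finset.mem_sdiff.1 (hU hx)
        rw [Equiv.coe_toEmbedding, hfix k hk x hx'.1 hx'.2]
        exact hx
      rw [e, hNinv k hk, eU]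
  · have hall : ∀ i, z i ∈ w := by
      intro i
      by_contra hi
      apply hcard
      have hsub : N ⊆ (Finset.univ.filter (fun j => cyc j ≠ cyc i)).map ⟨z, hz⟩ := by
        intro x hx
        obtain ⟨hxw, k, hk, hkx⟩ := Finset.mem_filter.1 hx
        have hxr : x ∈ Set.range z := by
          by_contra h
          exact hkx (zpow_out γ z h2 k x h)
        obtain ⟨j, rfl⟩ := hxr
        refine Finset.mem_map.2 ⟨j, Finset.mem_filter.2 ⟨Finset.mem_univ _, fun hc => ?_⟩, rfl⟩
        obtain ⟨m, hm⟩ := sg_zpow k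
        have hne : (sg ^ m.val) j ≠ j := by
          intro h
          apply hkx
          rw [zpow_z γ z h1, hm, h]
        obtain ⟨l, hl⟩ := sg_trans m j i hc hne
        apply hi
        have := mem_of_act_eq_pow γ hk l.val hxw
        rw [← zpow_natCast, ← zpow_mul, zpow_z γ z h1, zpow_mul, zpow_natCast, hm, hl] at this
        exact this
      exact (Finset.card_le_card hsub).trans (by rw [Finset.card_map]; exact cyc_card i)
    refine ⟨(Finset.univ.filter (fun j : Fin 11 => j.val < 8)).map ⟨z, hz⟩, ?_, ?_, ?_⟩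
    · intro x hx
      obtain ⟨j, _, rfl⟩ := Finset.mem_map.1 hx
      exact hall j
    · rw [Finset.card_map]; decide +kernel
    · intro k _
      apply act_eq_self_of_subset
      intro y hy
      obtain ⟨x, hx, rfl⟩ := Finset.mem_map.1 hy
      obtain ⟨j, hj, rfl⟩ := Finset.mem_map.1 hx
      refine Finset.mem_map.2 ⟨(sg ^ k) j, ?_, ?_⟩
      · obtain ⟨m, hm⟩ := sg_zpow k
        rw [hm]
        have key : ∀ m : Fin 15, ∀ j : Fin 11, j.val < 8 → ((sg ^ m.val) j).val < 8 := by
          decide +kernel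
        have hj' := (Finset.mem_filter.1 hj).2
        exact Finset.mem_filter.2 ⟨Finset.mem_univ _, key m j hj'⟩
      · exact (zpow_z γ z h1 k j).symm

/-- The orbit relation. -/
def orb : Setoid (Finset X) where
  r w w' := ∃ k : ℤ, act γ k w = w'
  iseqv :=
    { refl := fun w => ⟨0, act_zero γ w⟩
      symm := by
        rintro w w' ⟨k, rfl⟩
        exact ⟨-k, by rw [← act_add, neg_add_cancel, act_zero]⟩
      trans := by
        rintro w w' w'' ⟨k, rfl⟩ ⟨l, rfl⟩
        exact ⟨l + k, act_add γ l k w⟩ }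

include hz h1 h2 in
/-- Equivariant choice of `8`-element subsets extending a given partial one. -/
theorem equivariant_choice (c₀ : Finset X → Option (Finset X))
    (h3 : ∀ w v, c₀ w = some v → v ⊆ w ∧ v.card = 8)
    (h4 : ∀ w v, c₀ w = some v ↔ c₀ (w.map γ.toEmbedding) = some (v.map γ.toEmbedding)) :
    ∃ c : Finset X → Finset X, (∀ w, 8 < w.card → c w ⊆ w ∧ (c w).card = 8) ∧
      (∀ w, 8 < w.card → c (w.map γ.toEmbedding) = (c w).map γ.toEmbedding) ∧
      ∀ w v, c₀ w = some v → c w = v := by
  classical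
  have hex : ∀ w : Finset X, ∃ v : Finset X, 8 < w.card → (v ⊆ w ∧ v.card = 8 ∧
      ∀ k : ℤ, act γ k w = w → act γ k v = v) := by
    intro w
    by_cases hw : 8 < w.card
    · obtain ⟨v, hv1, hv2, hv3⟩ := inv8 γ z hz h1 h2 w hw
      exact ⟨v, fun _ => ⟨hv1, hv2, hv3⟩⟩
    · exact ⟨∅, fun h => (hw h).elim⟩
  choose V hV using hex
  let rep : Finset X → Finset X := fun w => (Quotient.mk (orb γ) w).out
  have hrep : ∀ w, ∃ k : ℤ, act γ k (rep w) = w := fun w =>
    Quotient.exact (s := orb γ) (Quotient.out_eq (Quotient.mk (orb γ) w))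
  choose K hK using hrep
  let c : Finset X → Finset X := fun w => (c₀ w).getD (act γ (K w) (V (rep w)))
  have hcsome : ∀ w v, c₀ w = some v → c w = v := by
    intro w v h
    simp only [c, h, Option.getD_some]
  have hcnone : ∀ w, c₀ w = none → c w = act γ (K w) (V (rep w)) := by
    intro w h
    simp only [c, h, Option.getD_none]
  have hcard : ∀ w, (rep w).card = w.card := by
    intro w
    conv_rhs => rw [← hK w]
    rw [card_act]
  refine ⟨c, ?_, ?_, hcsome⟩
  · intro w hw
    cases h : c₀ w with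
    | some v => rw [hcsome w v h]; exact h3 w v h
    | none =>
      rw [hcnone w h]
      obtain ⟨hv1, hv2, _⟩ := hV (rep w) (by rw [hcard]; exact hw)
      refine ⟨?_, by rw [card_act, hv2]⟩
      conv_rhs => rw [← hK w]
      exact act_mono γ _ hv1
  · intro w hw
    cases h : c₀ w with
    | some v => rw [hcsome w v h, hcsome _ _ ((h4 w v).1 h)]
    | none =>
      have hn : c₀ (w.map γ.toEmbedding) = none := by
        cases h' : c₀ (w.map γ.toEmbedding) with
        | none => rfl
        | some v' =>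
          exfalso
          have e : v' = (act γ (-1) v').map γ.toEmbedding := by
            rw [← act_one, ← act_add, add_neg_cancel, act_zero]
          rw [e, ← h4, h] at h'
          exact absurd h' (by simp)
      rw [hcnone w h, hcnone _ hn]
      have hre : rep (w.map γ.toEmbedding) = rep w := by
        simp only [rep]
        congr 1
        apply Quotient.sound (s := orb γ)
        exact ⟨-1, by rw [← act_one, ← act_add, neg_add_cancel, act_zero]⟩
      have hK' := hK (w.map γ.toEmbedding)
      rw [hre] at hK' ⊢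
      rw [← act_one γ (act γ (K w) (V (rep w))), ← act_add]
      have hK2 : act γ (K (w.map γ.toEmbedding)) (rep w) = act γ (1 + K w) (rep w) := by
        rw [hK', act_add, hK w, act_one]
      have hst : act γ (-(1 + K w) + K (w.map γ.toEmbedding)) (rep w) = rep w := by
        rw [act_add, hK2, ← act_add, neg_add_cancel, act_zero]
      obtain ⟨_, _, hv3⟩ := hV (rep w) (by rw [hcard]; exact hw)
      have h5 := hv3 _ hst
      conv_rhs => rw [← h5]
      rw [← act_add]
      congr 1
      ring

end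

end Pool.Agent.Lib.MP_f9fa2e_lc
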