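import Mathlib
import Pool.Agent.Lib.SymZF.EvalMore

set_option autoImplicit false

open Set

namespace Pool.Agent.Lib.MP_f9fa2e_lc

open Pool.Agent.Lib.SymZF

/-- The group: permutations of `ℕ × ℕ` over permutations of `ℕ`. -/
def Gr : Subgroup (Equiv.Perm (ℕ × ℕ) × Equiv.Perm ℕ) where
  carrier := {x | ∀ y, (x.1 y).1 = x.2 y.1}
  mul_mem' := by
    rintro x y hx hy z
    change (x.1 (y.1 z)).1 = x.2 (y.2 z.1)
    rw [hx, hy]
  one_mem' := fun _ => rfl
  inv_mem' := by
    rintro x hx z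
    change (x.1⁻¹ z).1 = x.2⁻¹ z.1
    rw [Equiv.Perm.eq_inv_iff_eq, ← hx]
    congr 1
    exact x.1.apply_symm_apply z

/-- The points: atoms and fibre points. -/
abbrev Pt : Type := ℕ ⊕ (ℕ × ℕ)

/-- The action on the points. -/
def gp : Gr →* Equiv.Perm Pt where
  toFun g := Equiv.sumCongr g.1.2 g.1.1
  map_one' := by ext x; rcases x with x | x <;> rfl
  map_mul' g h := by ext x; rcases x with x | x <;> rfl

lemma gp_inl (g : Gr) (a : ℕ) : gp g (.inl a) = .inl (g.1.2 a) := rfl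
lemma gp_inr (g : Gr) (x : ℕ × ℕ) : gp g (.inr x) = .inr (g.1.1 x) := rfl

lemma gr_fst (g : Gr) (y : ℕ × ℕ) : (g.1.1 y).1 = g.1.2 y.1 := g.2 y

/-- The pointwise stabilizer. -/
def H (s : Finset Pt) : Subgroup Gr where
  carrier := {g | ∀ t ∈ s, gp g t = t}
  mul_mem' := by
    intro g h hg hh t ht
    rw [map_mul, Equiv.Perm.mul_apply, hh t ht, hg t ht]
  one_mem' := by
    intro t _
    rw [map_one]; rfl
  inv_mem' := by
    intro g hg t ht
    rw [map_inv, Equiv.Perm.inv_eq_iff_eq, hg t ht]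

lemma mem_H {s : Finset Pt} {g : Gr} : g ∈ H s ↔ ∀ t ∈ s, gp g t = t := Iff.rfl

lemma H_mono {s s' : Finset Pt} (h : s ⊆ s') : H s' ≤ H s := fun _ hg t ht => hg t (h ht)

/-- The filter. -/
def Fi : Filter Gr where
  sets := {s | ∃ e, (H e : Set Gr) ⊆ s}
  univ_sets := ⟨∅, subset_univ _⟩
  sets_of_superset := by
    rintro s t ⟨e, h⟩ hst
    exact ⟨e, h.trans hst⟩
  inter_sets := by
    classical
    rintro s t ⟨e, h⟩ ⟨e', h'⟩
    refine ⟨e ∪ e', subset_inter ?_ ?_⟩
    · exact Subset.trans (H_mono Finset.subset_union_left) h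
    · exact Subset.trans (H_mono Finset.subset_union_right) h'

lemma mem_Fi {s : Set Gr} : s ∈ Fi ↔ ∃ e, (H e : Set Gr) ⊆ s := Iff.rfl

lemma H_mem_Fi (e : Finset Pt) : (H e : Set Gr) ∈ Fi := mem_Fi.2 ⟨e, Subset.rfl⟩

lemma Fi_conj (g : Gr) : Filter.Tendsto (fun h => g⁻¹ * h * g) Fi Fi := by
  classical
  intro s hs
  rw [Filter.mem_map]
  obtain ⟨e, hT⟩ := mem_Fi.1 hs
  refine mem_Fi.2 ⟨e.image (gp g), ?_⟩
  intro h hh
  apply hT
  intro t ht
  have h1 := hh (gp g t) (Finset.mem_image_of_mem _ ht)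
  rw [map_mul, map_mul, Equiv.Perm.mul_apply, Equiv.Perm.mul_apply, h1, map_inv]
  simp

/-- The choice facts: `(w, v)` with `v ∈ [w]^8`, `|w| > 8`. -/
def CF : Type := {x : Finset ℕ × Finset ℕ // 8 < x.1.card ∧ x.2 ⊆ x.1 ∧ x.2.card = 8}

instance : Countable CF := inferInstanceAs
  (Countable {x : Finset ℕ × Finset ℕ // 8 < x.1.card ∧ x.2 ⊆ x.1 ∧ x.2.card = 8})

/-- The action on choice facts. -/
def CF.map (π : Equiv.Perm ℕ) (x : CF) : CF :=
  ⟨(x.1.1.map π.toEmbedding, x.1.2.map π.toEmbedding), by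
    rw [Finset.card_map]; exact x.2.1, Finset.map_subset_map.2 x.2.2.1, by
    rw [Finset.card_map]; exact x.2.2.2⟩

lemma map_map_perm (π ρ : Equiv.Perm ℕ) (w : Finset ℕ) :
    (w.map ρ.toEmbedding).map π.toEmbedding = w.map (π * ρ).toEmbedding := by
  rw [Finset.map_map]; rfl

lemma map_one_perm (w : Finset ℕ) : w.map (1 : Equiv.Perm ℕ).toEmbedding = w := by
  ext x
  rw [Finset.mem_map_equiv]
  rfl

lemma CF.map_map (π ρ : Equiv.Perm ℕ) (x : CF) : (x.map ρ).map π = x.map (π * ρ) := by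
  apply Subtype.ext
  apply Prod.ext
  · exact map_map_perm _ _ _
  · exact map_map_perm _ _ _

lemma CF.map_one (x : CF) : x.map 1 = x := by
  apply Subtype.ext
  apply Prod.ext
  · exact map_one_perm _
  · exact map_one_perm _

/-- The permutation of choice facts. -/
def CF.perm (π : Equiv.Perm ℕ) : Equiv.Perm CF where
  toFun := CF.map π
  invFun := CF.map π⁻¹
  left_inv x := by rw [CF.map_map, inv_mul_cancel, CF.map_one]
  right_inv x := by rw [CF.map_map, mul_inv_cancel, CF.map_one]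

/-- The facts. -/
abbrev Fact : Type := ((ℕ × ℕ) × ℕ × Bool) ⊕ CF

/-- The keys. -/
abbrev Key : Type := ((ℕ × ℕ) × ℕ) ⊕ Finset ℕ

/-- The key of a fact. -/
def key : Fact → Key
  | .inl x => .inl (x.1, x.2.1)
  | .inr x => .inr x.1.1

/-- The action on the facts. -/
def fa : Gr →* Equiv.Perm Fact where
  toFun g := Equiv.sumCongr (Equiv.prodCongr g.1.1 (Equiv.refl _)) (CF.perm g.1.2)
  map_one' := by
    refine Equiv.ext fun x => ?_
    rcases x with x | x
    · rfl
    · exact congrArg Sum.inr (CF.map_one x)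
  map_mul' g h := by
    refine Equiv.ext fun x => ?_
    rcases x with x | x
    · rfl
    · exact congrArg Sum.inr (CF.map_map g.1.2 h.1.2 x).symm

lemma fa_inl (g : Gr) (x : (ℕ × ℕ) × ℕ × Bool) : fa g (.inl x) = .inl (g.1.1 x.1, x.2) := rfl
lemma fa_inr (g : Gr) (x : CF) : fa g (.inr x) = .inr (x.map g.1.2) := rfl

lemma key_fa (g : Gr) (x y : Fact) (h : key x = key y) : key (fa g x) = key (fa g y) := by
  rcases x with x | x <;> rcases y with y | y
  · simp only [key, Sum.inl.injEq, Prod.mk.injEq] at h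
    simp only [fa_inl, key, h.1, h.2]
  · simp [key] at h
  · simp [key] at h
  · simp only [key, Sum.inr.injEq] at h
    simp only [fa_inr, key, CF.map, h]

lemma key_fa_iff (g : Gr) (x y : Fact) : key (fa g x) = key (fa g y) ↔ key x = key y := by
  constructor
  · intro h
    have h1 := key_fa g⁻¹ _ _ h
    rw [map_inv] at h1
    simpa using h1
  · exact key_fa g x y

/-- The fact system. -/
def Qs : FactSys where
  K := Fact
  Key := Key
  key := key
  G := Gr
  ρ := fa
  hρ := key_fa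
  F := Fi
  conj := Fi_conj

/-- The real system. -/
def Rs : RealSys where
  Q := Qs
  A := ℕ
  bit x k b := .inl (x, k, b)
  bit_key x k b x' k' b' := by
    change (Sum.inl (x, k) : Key) = Sum.inl (x', k') ↔ _
    rw [Sum.inl.injEq, Prod.mk.injEq]
  bit_ne x k h := by
    have := Sum.inl.inj h
    simp at this
  gx := (MonoidHom.fst _ _).comp Gr.subtype
  gπ := (MonoidHom.snd _ _).comp Gr.subtype
  gx_fst g x := g.2 x
  ρ_bit g x k b := rfl
  ev_fix x := mem_Fi.2 ⟨{.inr x}, fun g hg => Sum.inr.inj (hg _ (Finset.mem_singleton_self _))⟩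

/-- The carrier of a fact. -/
def car : Fact → Finset Pt
  | .inl x => {.inr x.1}
  | .inr x => x.1.1.map ⟨Sum.inl, Sum.inl_injective⟩

lemma mem_car_fa (g : Gr) (x : Fact) (t : Pt) : gp g t ∈ car (fa g x) ↔ t ∈ car x := by
  rcases x with x | x
  · simp only [fa_inl, car, Finset.mem_singleton]
    rw [← gp_inr, (gp g).apply_eq_iff_eq]
  · simp only [fa_inr, car, CF.map, Finset.mem_map, Function.Embedding.coeFn_mk]
    constructor
    · rintro ⟨_, ⟨b, hb, rfl⟩, h⟩
      refine ⟨b, hb, ?_⟩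
      apply (gp g).injective
      rw [← h]; rfl
    · rintro ⟨a, ha, rfl⟩
      exact ⟨g.1.2 a, ⟨a, ha, rfl⟩, rfl⟩

lemma mem_car_fa' (g : Gr) (x : Fact) (t : Pt) : t ∈ car (fa g x) ↔ ∃ u ∈ car x, gp g u = t := by
  constructor
  · intro h
    refine ⟨(gp g).symm t, ?_, by simp⟩
    rw [← mem_car_fa g]; simpa using h
  · rintro ⟨u, hu, rfl⟩
    exact (mem_car_fa g x u).2 hu

lemma map_congr (π π' : Equiv.Perm ℕ) (w : Finset ℕ) (h : ∀ a ∈ w, π a = π' a) :
    w.map π.toEmbedding = w.map π'.toEmbedding := by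
  ext b
  simp only [Finset.mem_map, Equiv.coe_toEmbedding]
  constructor
  · rintro ⟨a, ha, rfl⟩; exact ⟨a, ha, (h a ha).symm⟩
  · rintro ⟨a, ha, rfl⟩; exact ⟨a, ha, h a ha⟩

lemma fa_congr (g g' : Gr) (x : Fact) (h : ∀ t ∈ car x, gp g t = gp g' t) :
    fa g x = fa g' x := by
  rcases x with x | x
  · have h1 := h (.inr x.1) (by simp [car])
    rw [gp_inr, gp_inr, Sum.inr.injEq] at h1
    rw [fa_inl, fa_inl, h1]
  · have h1 : ∀ a ∈ x.1.1, g.1.2 a = g'.1.2 a := by
      intro a ha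
      have h2 := h (.inl a) (by
        simp only [car, Finset.mem_map, Function.Embedding.coeFn_mk]
        exact ⟨a, ha, rfl⟩)
      exact Sum.inl.inj h2
    rw [fa_inr, fa_inr]
    congr 1
    apply Subtype.ext
    apply Prod.ext
    · exact map_congr _ _ _ h1
    · exact map_congr _ _ _ fun a ha => h1 a (x.2.2.1 ha)

lemma fa_fix (g : Gr) (x : Fact) (h : ∀ t ∈ car x, gp g t = t) : fa g x = x := by
  have := fa_congr g 1 x (by intro t ht; rw [h t ht, map_one]; rfl)
  rw [this, map_one]; rfl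

lemma car_of_key {x y : Fact} (h : key x = key y) : car x = car y := by
  rcases x with x | x <;> rcases y with y | y
  · simp only [key, Sum.inl.injEq, Prod.mk.injEq] at h
    simp only [car, h.1]
  · simp [key] at h
  · simp [key] at h
  · simp only [key, Sum.inr.injEq] at h
    simp only [car, h]

end Pool.Agent.Lib.MP_f9fa2e_lc
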