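import Mathlib
import Pool.Agent.Lib.SymZF.EvalMore
import Pool.Agent.Lib.MP_f9fa2e_lc.Sys

section

set_option autoImplicit false

open Set

namespace Pool.Agent.Lib.SymZF

namespace SymSys

variable {S : SymSys}

/-- Injectivity of ordered pairs, at the Boolean level. -/
lemma opair_eq_le (D : DSub S) (a b a' b' : S.HSet) :
    (a.opair b).eq (a'.opair b') ≤ a.eq a' ⊓ b.eq b' := by
  by_contra hcon
  rw [← disjoint_compl_right_iff, disjoint_iff] at hcon
  obtain ⟨p, hp⟩ := D.dense _ hcon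
  obtain ⟨N, hN⟩ := exists_names_fam D (J := Fin 4) ![a, b, a', b']
  obtain ⟨G, hpU, _⟩ := exists_gen N (fun _ => ∅) p
  have ha : N.has a := hN 0
  have hb : N.has b := hN 1
  have ha' : N.has a' := hN 2
  have hb' : N.has b' := hN 3
  have hU := G.up hpU hp
  have h1 : (a.opair b).eq (a'.opair b') ∈ G.U := G.up hU inf_le_left
  have h2 := (Gen.ev_eq (Names.has_opair ha hb) (Names.has_opair ha' hb')).2 h1
  have h3 := Gen.isOPair_ev (G := G) ha hb
  have h4 := Gen.isOPair_ev (G := G) ha' hb'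
  rw [h2] at h3
  obtain ⟨h5, h6⟩ := opair_inj h3 h4
  have h7 : a.eq a' ⊓ b.eq b' ∈ G.U := G.inf ((Gen.ev_eq ha ha').1 h5) ((Gen.ev_eq hb hb').1 h6)
  exact G.compl_mem h7 (G.up hU inf_le_right)

/-- Generic filters for countably many families. -/
theorem exists_gen_fam {D : DSub S} (N : Names D) {J : Type} [Countable J] (Fm : J → Set S.B)
    (p₀ : D.P) : ∃ G : Gen N, D.e p₀ ∈ G.U ∧
      ∀ j, (∃ b ∈ Fm j, b ∈ G.U) ∨ (sSup (Fm j))ᶜ ∈ G.U := by
  obtain ⟨e, he⟩ := exists_surjective_nat (Option J)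
  obtain ⟨G, h1, h2⟩ := exists_gen N (fun n => (e n).elim ∅ Fm) p₀
  refine ⟨G, h1, fun j => ?_⟩
  obtain ⟨n, hn⟩ := he (some j)
  have := h2 n
  rw [hn] at this
  exact this

/-- Names closed under countably many operations. -/
theorem exists_names_ops (D : DSub S) {J K : Type} [Countable J] [Countable K] (c : J → S.HSet)
    (Γ : K → S.HSet → S.HSet) :
    ∃ N : Names D, (∀ j, N.has (c j)) ∧ ∀ k σ, N.has σ → N.has (Γ k σ) := by
  obtain ⟨e, he⟩ := exists_surjective_nat (Option J)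
  obtain ⟨e', he'⟩ := exists_surjective_nat (Option K)
  obtain ⟨N, hN, hN2⟩ := exists_names D (fun n => (e n).elim (HSet.num S 0) c)
    (fun n l => (e' n).elim (HSet.num S 0) (fun k => Γ k (l.getD 0 (HSet.num S 0))))
  refine ⟨N, fun j => ?_, ?_⟩
  · obtain ⟨n, hn⟩ := he (some j)
    obtain ⟨k, hk⟩ := hN n
    refine ⟨k, ?_⟩
    rw [hk, hn]
    rfl
  · rintro k σ ⟨i, rfl⟩
    obtain ⟨n, hn⟩ := he' (some k)
    obtain ⟨j, hj⟩ := hN2 n [i]
    refine ⟨j, ?_⟩
    rw [hj, hn]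
    rfl

namespace Gen

variable {D : DSub S} {N : Names D}

/-- The element `u` of the model is the value of the name `ρ` (which need not be in `N`). -/
def Is (G : Gen N) (u : G.M) (ρ : S.HSet) : Prop := ∃ τ, N.has τ ∧ G.ev τ = u ∧ τ.eq ρ ∈ G.U

variable {G : Gen N}

lemma is_ev {τ : S.HSet} (h : N.has τ) : G.Is (G.ev τ) τ :=
  ⟨τ, h, rfl, by rw [HSet.eq_refl]; exact G.top⟩

lemma Is.eq_mem {u : G.M} {ρ ρ' : S.HSet} (h : G.Is u ρ) (h' : G.Is u ρ') : ρ.eq ρ' ∈ G.U := by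
  obtain ⟨τ, hτ, h1, h2⟩ := h
  obtain ⟨τ', hτ', h1', h2'⟩ := h'
  have h3 : τ.eq τ' ∈ G.U := (ev_eq hτ hτ').1 (h1.trans h1'.symm)
  rw [HSet.eq_symm] at h2
  exact G.up (G.inf (G.up (G.inf h2 h3) (HSet.eq_trans _ _ _)) h2') (HSet.eq_trans _ _ _)

lemma Is.congr {u : G.M} {ρ ρ' : S.HSet} (h : G.Is u ρ) (h' : ρ.eq ρ' ∈ G.U) : G.Is u ρ' := by
  obtain ⟨τ, hτ, h1, h2⟩ := h
  exact ⟨τ, hτ, h1, G.up (G.inf h2 h') (HSet.eq_trans _ _ _)⟩

lemma Is.unique {u u' : G.M} {ρ : S.HSet} (h : G.Is u ρ) (h' : G.Is u' ρ) : u = u' := by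
  obtain ⟨τ, hτ, h1, h2⟩ := h
  obtain ⟨τ', hτ', h1', h2'⟩ := h'
  rw [HSet.eq_symm] at h2'
  rw [← h1, ← h1', ev_eq hτ hτ']
  exact G.up (G.inf h2 h2') (HSet.eq_trans _ _ _)

lemma Is.mem_iff {u : G.M} {ρ τ : S.HSet} (h : G.Is u ρ) (hτ : N.has τ) :
    G.E u (G.ev τ) ↔ ρ.mem τ ∈ G.U := by
  obtain ⟨σ, hσ, rfl, h2⟩ := h
  rw [E_ev hσ hτ]
  constructor
  · intro h; exact G.up (G.inf h2 h) (HSet.mem_congr_left _ _ _)
  · intro h
    rw [HSet.eq_symm] at h2
    exact G.up (G.inf h2 h) (HSet.mem_congr_left _ _ _)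

/-- The relation coded by a name of a set of ordered pairs. -/
lemma rel_fam {I : Type} {f1 f2 : I → S.HSet} {b : I → S.B} {h}
    (hh : N.has (HSet.fam (fun i => (f1 i).opair (f2 i)) b h)) (u v : G.M) :
    Rel G.E (G.ev (HSet.fam (fun i => (f1 i).opair (f2 i)) b h)) u v ↔
      ∃ i, b i ∈ G.U ∧ G.Is u (f1 i) ∧ G.Is v (f2 i) := by
  obtain ⟨σ, hσ, rfl⟩ := G.ev_surj u
  obtain ⟨τ, hτ, rfl⟩ := G.ev_surj v
  constructor
  · rintro ⟨p, hp, hpf⟩
    rw [opair_unique G.isZF hp (isOPair_ev hσ hτ), E_ev (Names.has_opair hσ hτ) hh] at hpf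
    obtain ⟨k, hk1, hk2⟩ := mem_el (Names.has_opair hσ hτ) hh hpf
    have h3 := G.up hk2 (opair_eq_le D σ τ (f1 k) (f2 k))
    exact ⟨k, hk1, ⟨σ, hσ, rfl, G.up h3 inf_le_left⟩, ⟨τ, hτ, rfl, G.up h3 inf_le_right⟩⟩
  · rintro ⟨i, hi, h1, h2⟩
    refine ⟨_, isOPair_ev hσ hτ, ?_⟩
    rw [E_ev (Names.has_opair hσ hτ) hh, HSet.mem_fam]
    have h3 : (σ.opair τ).eq ((f1 i).opair (f2 i)) ∈ G.U :=
      G.up (G.inf ((is_ev hσ).eq_mem h1) ((is_ev hτ).eq_mem h2)) (HSet.opair_congr _ _ _ _)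
    exact G.up (G.inf hi h3) (le_iSup_of_le i le_rfl)

end Gen

end SymSys

end Pool.Agent.Lib.SymZF
end

section

set_option autoImplicit false

open Set

namespace Pool.Agent.Lib.MP_f9fa2e_lc

open Pool.Agent.Lib.SymZF

/-- Sets of points closed under projection. -/
def Closed (s : Finset Pt) : Prop := ∀ a n, Sum.inr (a, n) ∈ s → Sum.inl a ∈ s

open Classical in
lemma exists_closed_sup (e : Finset Pt) : ∃ s, e ⊆ s ∧ Closed s := by
  refine ⟨e ∪ e.image (fun t => Sum.elim (fun a => Sum.inl a) (fun x => Sum.inl x.1) t),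
    Finset.subset_union_left, ?_⟩
  intro a n h
  rcases Finset.mem_union.1 h with h | h
  · exact Finset.mem_union_right _ (Finset.mem_image.2 ⟨_, h, rfl⟩)
  · obtain ⟨t, _, ht⟩ := Finset.mem_image.1 h
    rcases t with t | t
    · exact absurd ht (by simp)
    · exact absurd ht (by simp)

open Classical in
/-- A shift avoiding a set. -/
noncomputable def sh (m : ℕ) (F : Set ℕ) (n : ℕ) : ℕ :=
  if n < m then (if n ∈ F then n else n + m)
  else if n < 2 * m then (if n - m ∈ F then n else n - m) else n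

lemma sh_sh (m : ℕ) (F : Set ℕ) (n : ℕ) : sh m F (sh m F n) = n := by
  classical
  by_cases h1 : n < m
  · by_cases h2 : n ∈ F
    · simp [sh, h1, h2]
    · have e : sh m F n = n + m := by simp [sh, h1, h2]
      rw [e]
      have h3 : ¬ (n + m < m) := by omega
      have h4 : n + m < 2 * m := by omega
      have h5 : n + m - m = n := by omega
      simp [sh, h4, h2, h5]
  · by_cases h2 : n < 2 * m
    · by_cases h3 : n - m ∈ F
      · simp [sh, h1, h2, h3]
      · have e : sh m F n = n - m := by simp [sh, h1, h2, h3]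
        rw [e]
        have h4 : n - m < m := by omega
        have h5 : n - m + m = n := by omega
        simp [sh, h4, h3, h5]
    · simp [sh, h1, h2]

lemma sh_mem {m : ℕ} {F : Set ℕ} {n : ℕ} (h : n < m) (h2 : n ∈ F) : sh m F n = n := by
  simp [sh, h, h2]

lemma sh_not_mem {m : ℕ} {F : Set ℕ} {n : ℕ} (h : n < m) (h2 : n ∉ F) : sh m F n = n + m := by
  simp [sh, h, h2]

lemma sh_ne {m : ℕ} {F : Set ℕ} (hF : ∀ n ∈ F, n < m) {n : ℕ} (h2 : n ∉ F) : sh m F n ∉ F := by
  intro h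
  have h3 := sh_mem (hF _ h) h
  rw [sh_sh] at h3
  rw [← h3] at h
  exact h2 h

open Classical in
/-- The permutation of the fibre points. -/
noncomputable def gf (m : ℕ) (F : Set ℕ) (E : Set (ℕ × ℕ)) (x : ℕ × ℕ) : ℕ × ℕ :=
  if x.1 ∈ F then (x.1, sh m {n | (x.1, n) ∈ E} x.2) else (sh m F x.1, x.2)

lemma gf_gf (m : ℕ) (F : Set ℕ) (E : Set (ℕ × ℕ)) (hF : ∀ n ∈ F, n < m) (x : ℕ × ℕ) :
    gf m F E (gf m F E x) = x := by
  by_cases h : x.1 ∈ F
  · have e : gf m F E x = (x.1, sh m {n | (x.1, n) ∈ E} x.2) := by simp [gf, h]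
    rw [e, gf, if_pos h]
    simp only [sh_sh]
  · have e : gf m F E x = (sh m F x.1, x.2) := by simp [gf, h]
    rw [e, gf, if_neg (sh_ne hF h)]
    simp only [sh_sh]

/-- bound for a finite set of points -/
lemma exists_bound (s : Finset Pt) : ∃ m : ℕ, ∀ t ∈ s, (∀ a, t = .inl a → a < m) ∧
    ∀ x, t = .inr x → x.1 < m ∧ x.2 < m := by
  classical
  induction s using Finset.induction_on with
  | empty => exact ⟨0, by simp⟩
  | insert t s _ ih =>
    obtain ⟨m, hm⟩ := ih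
    rcases t with a | x
    · refine ⟨max m (a + 1), fun t ht => ⟨fun b hb => ?_, fun x hx => ?_⟩⟩
      · rcases Finset.mem_insert.1 ht with rfl | ht
        · rw [Sum.inl.injEq] at hb; omega
        · have := (hm t ht).1 b hb; omega
      · rcases Finset.mem_insert.1 ht with rfl | ht
        · simp at hx
        · have := (hm t ht).2 x hx; omega
    · refine ⟨max m (x.1 + x.2 + 1), fun t ht => ⟨fun b hb => ?_, fun y hy => ?_⟩⟩
      · rcases Finset.mem_insert.1 ht with rfl | ht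
        · simp at hb
        · have := (hm t ht).1 b hb; omega
      · rcases Finset.mem_insert.1 ht with rfl | ht
        · rw [Sum.inr.injEq] at hy; subst hy; omega
        · have := (hm t ht).2 y hy; omega

/-- Moving points to fresh places. -/
lemma fresh (s : Finset Pt) (hs : Closed s) (W Z : Finset Pt) :
    ∃ g ∈ H s, ∀ t ∈ W, t ∉ s → gp g t ∉ Z := by
  classical
  obtain ⟨m, hm⟩ := exists_bound (s ∪ W ∪ Z)
  set F : Set ℕ := {a | Sum.inl a ∈ s} with hF
  set E : Set (ℕ × ℕ) := {x | Sum.inr x ∈ s} with hE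
  have hsm : ∀ t ∈ s, t ∈ s ∪ W ∪ Z := fun t ht =>
    Finset.mem_union_left _ (Finset.mem_union_left _ ht)
  have hWm : ∀ t ∈ W, t ∈ s ∪ W ∪ Z := fun t ht =>
    Finset.mem_union_left _ (Finset.mem_union_right _ ht)
  have hZm : ∀ t ∈ Z, t ∈ s ∪ W ∪ Z := fun t ht => Finset.mem_union_right _ ht
  have hFm : ∀ n ∈ F, n < m := fun n hn => (hm _ (hsm _ hn)).1 n rfl
  let g : Gr := ⟨(Function.Involutive.toPerm (gf m F E) (gf_gf m F E hFm),
    Function.Involutive.toPerm (sh m F) (sh_sh m F)), by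
      intro x
      change (gf m F E x).1 = sh m F x.1
      unfold gf
      split_ifs with h
      · exact (sh_mem (hFm _ h) h).symm
      · rfl⟩
  have g1 : ∀ a, gp g (.inl a) = .inl (sh m F a) := fun a => rfl
  have g2 : ∀ x, gp g (.inr x) = .inr (gf m F E x) := fun a => rfl
  refine ⟨g, ?_, ?_⟩
  · intro t ht
    rcases t with a | x
    · rw [g1, sh_mem (hFm a ht) ht]
    · have h1 : x.1 ∈ F := hs x.1 x.2 ht
      rw [g2, gf, if_pos h1, sh_mem ((hm _ (hsm _ ht)).2 x rfl).2 ht]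
  · intro t ht hts hZ
    rcases t with a | x
    · rw [g1] at hZ
      have h1 := (hm _ (hWm _ ht)).1 a rfl
      rw [sh_not_mem h1 hts] at hZ
      have h2 := (hm _ (hZm _ hZ)).1 _ rfl
      omega
    · rw [g2] at hZ
      have h1 := (hm _ (hWm _ ht)).2 x rfl
      have h2 := (hm _ (hZm _ hZ)).2 _ rfl
      by_cases h : x.1 ∈ F
      · rw [gf, if_pos h, sh_not_mem h1.2 hts] at h2
        omega
      · rw [gf, if_neg h, sh_not_mem h1.1 h] at h2
        simp only at h2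
        omega

/-- The lift of a permutation of the atoms. -/
def lft (π : Equiv.Perm ℕ) : Gr := ⟨(Equiv.prodCongr π (Equiv.refl _), π), fun _ => rfl⟩

lemma lft_inl (π : Equiv.Perm ℕ) (a : ℕ) : gp (lft π) (.inl a) = .inl (π a) := rfl
lemma lft_inr (π : Equiv.Perm ℕ) (x : ℕ × ℕ) : gp (lft π) (.inr x) = .inr (π x.1, x.2) := rfl

/-- The swap of two points of a fibre. -/
def fsw (a m m' : ℕ) : Gr := ⟨(Equiv.swap (a, m) (a, m'), 1), by
  intro x
  by_cases h1 : x = (a, m)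
  · subst h1; simp
  · by_cases h2 : x = (a, m')
    · subst h2; simp
    · rw [Equiv.swap_apply_of_ne_of_ne h1 h2]; rfl⟩

/-- Transitivity on the copies of a point. -/
lemma trans_pts (s' : Finset Pt) (t0 : Pt) (hs : Closed (insert t0 s'))
    (k k' : Gr) (hk : k ∈ H s') (hk' : k' ∈ H s') (h1 : gp k t0 ∉ insert t0 s')
    (h2 : gp k' t0 ∉ insert t0 s') : ∃ g ∈ H (insert t0 s'), gp g (gp k t0) = gp k' t0 := by
  classical
  rcases t0 with a | x
  · rw [gp_inl] at h1 h2 ⊢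
    rw [gp_inl]
    refine ⟨lft (Equiv.swap (k.1.2 a) (k'.1.2 a)), ?_, ?_⟩
    · intro t ht
      rcases t with b | y
      · rw [lft_inl, Equiv.swap_apply_of_ne_of_ne]
        · rintro rfl; exact h1 ht
        · rintro rfl; exact h2 ht
      · have hy := hs y.1 y.2 ht
        rw [lft_inr, Equiv.swap_apply_of_ne_of_ne]
        · intro h; rw [h] at hy; exact h1 hy
        · intro h; rw [h] at hy; exact h2 hy
    · rw [lft_inl, Equiv.swap_apply_left]
  · obtain ⟨a, n⟩ := x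
    have ha : Sum.inl a ∈ s' := by
      have := hs a n (Finset.mem_insert_self _ _)
      simpa using this
    have e1 : ∀ k : Gr, k ∈ H s' → gp k (.inr (a, n)) = .inr (a, (k.1.1 (a, n)).2) := by
      intro k hk
      rw [gp_inr]
      congr 1
      apply Prod.ext
      · rw [gr_fst]
        exact Sum.inl.inj (hk _ ha)
      · rfl
    rw [e1 k hk] at h1 ⊢
    rw [e1 k' hk'] at h2 ⊢
    refine ⟨fsw a (k.1.1 (a, n)).2 (k'.1.1 (a, n)).2, ?_, ?_⟩
    · intro t ht
      rcases t with b | y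
      · rfl
      · rw [gp_inr]
        congr 1
        apply Equiv.swap_apply_of_ne_of_ne
        · rintro rfl; exact h1 ht
        · rintro rfl; exact h2 ht
    · rw [gp_inr]
      congr 1
      exact Equiv.swap_apply_left _ _

lemma closed_insert (s' : Finset Pt) (t0 : Pt) (hs : Closed (insert t0 s'))
    (k : Gr) (hk : k ∈ H s') : Closed (insert (gp k t0) (insert t0 s')) := by
  classical
  intro a n h
  rcases Finset.mem_insert.1 h with h | h
  · rcases t0 with b | x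
    · rw [gp_inl] at h; simp at h
    · obtain ⟨b, m⟩ := x
      have hb : Sum.inl b ∈ insert (Sum.inr (b, m)) s' := hs b m (Finset.mem_insert_self _ _)
      have hb' : Sum.inl b ∈ s' := by simpa using hb
      rw [gp_inr, Sum.inr.injEq] at h
      have h1 : k.1.2 b = b := Sum.inl.inj (hk _ hb')
      have h2 : a = b := by
        have := congrArg Prod.fst h
        rw [gr_fst] at this
        simp only at this
        rw [this, h1]
      rw [h2]
      exact Finset.mem_insert_of_mem hb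
  · exact Finset.mem_insert_of_mem (hs a n h)

/-- The second group element in the amalgamation argument. -/
lemma second (s' : Finset Pt) (t0 : Pt) (hs : Closed (insert t0 s'))
    (h k g : Gr) (hh : h ∈ H s') (hk : k ∈ H s') (hg : g ∈ H (insert t0 s'))
    (hkt : gp k t0 ∉ insert t0 s')
    (hc : ∀ t ∈ insert t0 s', gp h t ≠ gp g (gp k t0)) (W Z : Finset Pt) :
    ∃ g2 : Gr, h⁻¹ * g2 ∈ H (insert t0 s') ∧ gp g2 (gp k t0) = gp g (gp k t0) ∧
      ∀ t ∈ W, t ∉ insert t0 s' → t ≠ gp k t0 → gp g2 t ∉ Z := by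
  classical
  have hg' : g ∈ H s' := H_mono (Finset.subset_insert _ _) hg
  obtain ⟨g3, hg3, hg3'⟩ := trans_pts s' t0 hs k (h⁻¹ * g * k) hk
    (mul_mem (mul_mem (inv_mem hh) hg') hk) hkt (by
      intro hmem
      apply hc _ hmem
      rw [map_mul, map_mul, map_inv]
      simp)
  obtain ⟨g4, hg4, hg4'⟩ := fresh (insert (gp k t0) (insert t0 s')) (closed_insert s' t0 hs k hk)
    W (Z.image (gp (h * g3)).symm)
  refine ⟨h * g3 * g4, ?_, ?_, ?_⟩
  · have e : h⁻¹ * (h * g3 * g4) = g3 * g4 := by group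
    rw [e]
    exact mul_mem hg3 (H_mono (Finset.subset_insert _ _) hg4)
  · rw [map_mul, Equiv.Perm.mul_apply, hg4 _ (Finset.mem_insert_self _ _), map_mul,
      Equiv.Perm.mul_apply, hg3']
    rw [map_mul, map_mul, map_inv]
    simp
  · intro t ht h1 h2 h3
    apply hg4' t ht
    · rw [Finset.mem_insert, not_or]
      exact ⟨h2, h1⟩
    · rw [Finset.mem_image]
      refine ⟨_, h3, ?_⟩
      rw [Equiv.symm_apply_eq, map_mul, Equiv.Perm.mul_apply]

end Pool.Agent.Lib.MP_f9fa2e_lc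
end

section

set_option autoImplicit false

open Set

namespace Pool.Agent.Lib.MP_f9fa2e_lc

open Pool.Agent.Lib.SymZF SymSys FactSys

/-- names -/
abbrev Nm : Type 1 := Rs.S.HSet

/-- the algebra -/
abbrev BB : Type := Rs.S.B

/-- conditions -/
abbrev PP : Type := Qs.P

/-- Boolean value of a condition -/
noncomputable def ebb (p : PP) : BB := eb p

/-- the action on the algebra -/
noncomputable def al (g : Gr) (b : BB) : BB := Rs.S.α g b

/-- the action on names -/
noncomputable def sm (g : Gr) (σ : Nm) : Nm := HSet.smul (S := Rs.S) g σ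

/-- the action on conditions -/
def ac (g : Gr) (p : PP) : PP := Qs.actP g p

lemma al_mul (g h : Gr) (b : BB) : al (g * h) b = al g (al h b) := Rs.S.α_mul_apply g h b
lemma al_one (b : BB) : al 1 b = b := by
  change Rs.S.α 1 b = b
  rw [map_one]; rfl
lemma al_mono (g : Gr) {a b : BB} (h : a ≤ b) : al g a ≤ al g b := (Rs.S.α g).monotone h
lemma al_inf (g : Gr) (a b : BB) : al g (a ⊓ b) = al g a ⊓ al g b := map_inf (Rs.S.α g) a b
lemma al_compl (g : Gr) (a : BB) : al g aᶜ = (al g a)ᶜ := map_compl (Rs.S.α g) a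
lemma al_bot (g : Gr) : al g ⊥ = ⊥ := map_bot (Rs.S.α g)
lemma al_top (g : Gr) : al g ⊤ = ⊤ := map_top (Rs.S.α g)
lemma al_iSup {ι : Sort*} (g : Gr) (b : ι → BB) : al g (⨆ i, b i) = ⨆ i, al g (b i) :=
  OrderIso.map_iSup (Rs.S.α g) b
lemma al_iInf {ι : Sort*} (g : Gr) (b : ι → BB) : al g (⨅ i, b i) = ⨅ i, al g (b i) :=
  OrderIso.map_iInf (Rs.S.α g) b
lemma al_inv (g : Gr) (b : BB) : al g⁻¹ (al g b) = b := by rw [← al_mul]; simp [al_one]
lemma al_inv' (g : Gr) (b : BB) : al g (al g⁻¹ b) = b := by rw [← al_mul]; simp [al_one]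
lemma al_ebb (g : Gr) (p : PP) : al g (ebb p) = ebb (ac g p) := α_eb (Q := Qs) g p

lemma sm_mul (g h : Gr) (σ : Nm) : sm (g * h) σ = sm g (sm h σ) :=
  HSet.ext (Rs.S.act_mul g h σ.1)
lemma sm_one (σ : Nm) : sm 1 σ = σ := HSet.ext (Rs.S.act_one σ.1)
lemma sm_eq (g : Gr) (σ τ : Nm) : (sm g σ).eq (sm g τ) = al g (σ.eq τ) := HSet.smul_eq _ _ _
lemma sm_mem (g : Gr) (σ τ : Nm) : (sm g σ).mem (sm g τ) = al g (σ.mem τ) := HSet.smul_mem _ _ _
lemma sm_inv (g : Gr) (σ : Nm) : sm g⁻¹ (sm g σ) = σ := by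
  rw [← sm_mul, inv_mul_cancel, sm_one]
lemma sm_inv' (g : Gr) (σ : Nm) : sm g (sm g⁻¹ σ) = σ := by
  rw [← sm_mul, mul_inv_cancel, sm_one]

lemma mem_ac (g : Gr) (p : PP) (x : Fact) : x ∈ (ac g p).s ↔ ∃ y ∈ p.s, fa g y = x := by
  constructor
  · intro h
    have h1 := (Qs.mem_actP g p x).1 h
    refine ⟨_, h1, ?_⟩
    change fa g (fa g⁻¹ x) = x
    rw [map_inv]; simp
  · rintro ⟨y, hy, rfl⟩
    exact (Qs.mem_actP' g p y).2 hy

lemma ac_mul (g h : Gr) (p : PP) : ac (g * h) p = ac g (ac h p) := Qs.actP_mul g h p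
lemma ac_one (p : PP) : ac 1 p = p := Qs.actP_one p
lemma ac_mono (g : Gr) {p q : PP} (h : p ≤ q) : ac g p ≤ ac g q := by
  intro x hx
  obtain ⟨y, hy, rfl⟩ := (mem_ac g q x).1 hx
  exact (mem_ac g p _).2 ⟨y, h hy, rfl⟩

/-- Invariance of a name under the stabilizer of `s`. -/
def Inv (s : Finset Pt) (σ : Nm) : Prop := ∀ g ∈ H s, (sm g σ).eq σ = ⊤

lemma exists_inv (σ : Nm) : ∃ s, Closed s ∧ Inv s σ := by
  obtain ⟨e, he⟩ := mem_Fi.1 σ.sym
  obtain ⟨s, hes, hs⟩ := exists_closed_sup e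
  exact ⟨s, hs, fun g hg => he (H_mono hes hg)⟩

lemma Inv.mono {s s' : Finset Pt} (h : s ⊆ s') {σ : Nm} (hσ : Inv s σ) : Inv s' σ :=
  fun g hg => hσ g (H_mono h hg)

open Classical in
/-- The carrier of a condition. -/
noncomputable def carP (p : PP) : Finset Pt := p.s.biUnion car

lemma car_subset {p : PP} {x : Fact} (hx : x ∈ p.s) {t : Pt} (ht : t ∈ car x) : t ∈ carP p := by
  classical
  exact Finset.mem_biUnion.2 ⟨x, hx, ht⟩

lemma mem_carP_ac {g : Gr} {p : PP} {t : Pt} (ht : t ∈ carP p) : gp g t ∈ carP (ac g p) := by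
  classical
  obtain ⟨x, hx, ht⟩ := Finset.mem_biUnion.1 ht
  exact car_subset ((mem_ac g p _).2 ⟨x, hx, rfl⟩) ((mem_car_fa g x t).2 ht)

open Classical in
/-- Restriction of a condition to a set of points. -/
noncomputable def restr (p : PP) (s : Finset Pt) : PP where
  s := p.s.filter (fun x => car x ⊆ s)
  inj x hx y hy h := p.inj x (Finset.mem_filter.1 hx).1 y (Finset.mem_filter.1 hy).1 h

lemma mem_restr {p : PP} {s : Finset Pt} {x : Fact} :
    x ∈ (restr p s).s ↔ x ∈ p.s ∧ car x ⊆ s := by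
  classical
  exact Finset.mem_filter

lemma le_restr (p : PP) (s : Finset Pt) : p ≤ restr p s := fun _ hx => (mem_restr.1 hx).1

lemma compat_iff {p q : PP} : Compat p q ↔ ∀ x ∈ p.s, ∀ y ∈ q.s, key x = key y → x = y := Iff.rfl

lemma exists_union {p q : PP} (h : Compat p q) : ∃ r : PP, r ≤ p ∧ r ≤ q ∧
    ∀ x ∈ r.s, x ∈ p.s ∨ x ∈ q.s :=
  ⟨FactSys.union p q h, union_le_left h, union_le_right h, fun x hx => (mem_union h x).1 hx⟩

/-- The amalgamation lemma. -/
lemma dagger (s' : Finset Pt) (t0 : Pt) (h0 : t0 ∉ s') (hs : Closed (insert t0 s'))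
    (σ : Nm) (hσ : Inv (insert t0 s') σ) (p q : PP) (hqp : q ≤ p) (k : Gr) (hk : k ∈ H s')
    (hk0 : gp k t0 ≠ t0) (hq : ebb q ≤ σ.eq (sm k σ)) :
    ∃ p' ≤ p, ∀ h ∈ H s', ebb p' ⊓ ebb (ac h p') ≤ σ.eq (sm h σ) := by
  classical
  have hcomp : Compat p (restr q (insert t0 s')) := compat_of_le hqp (le_restr _ _)
  obtain ⟨p', hp'1, hp'2, hp'3⟩ := exists_union hcomp
  refine ⟨p', hp'1, fun h hh => ?_⟩
  by_cases hht : gp h t0 = t0
  · have h1 : h ∈ H (insert t0 s') := by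
      intro t ht
      rcases Finset.mem_insert.1 ht with rfl | ht
      · exact hht
      · exact hh t ht
    rw [HSet.eq_symm, hσ h h1]; exact le_top
  have hkt : gp k t0 ∉ insert t0 s' := by
    rw [Finset.mem_insert, not_or]
    refine ⟨hk0, fun hmem => ?_⟩
    have h1 := hk _ hmem
    have h2 := (gp k).injective h1
    rw [h2] at hmem
    exact h0 hmem
  refine le_of_forall (Q := Qs) fun r hr => ?_
  obtain ⟨r1, hr1, hr1'⟩ := exists_le_of_eb_le (Q := Qs) (hr.trans inf_le_left)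
  obtain ⟨r2, hr2, hr2'⟩ := exists_le_of_eb_le (Q := Qs)
    ((eb_mono hr1).trans (hr.trans inf_le_right))
  have hr2p : r2 ≤ p' := hr2.trans hr1'
  -- the first group element
  obtain ⟨g, hg, hgf⟩ := fresh (insert t0 s') hs (insert (gp k t0) (carP q))
    (carP r2 ∪ insert t0 s' ∪ (insert t0 s').image (gp h))
  have hZ1 : ∀ t ∈ carP q, t ∉ insert t0 s' → gp g t ∉ carP r2 := fun t ht hts hmem =>
    hgf t (Finset.mem_insert_of_mem ht) hts
      (Finset.mem_union_left _ (Finset.mem_union_left _ hmem))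
  have hZ2 : ∀ t ∈ carP q, t ∉ insert t0 s' → gp g t ∉ insert t0 s' := fun t ht hts hmem =>
    hgf t (Finset.mem_insert_of_mem ht) hts
      (Finset.mem_union_left _ (Finset.mem_union_right _ hmem))
  have hZ3 : ∀ t ∈ carP q, t ∉ insert t0 s' → ∀ u ∈ insert t0 s', gp g t ≠ gp h u :=
    fun t ht hts u hu hmem =>
    hgf t (Finset.mem_insert_of_mem ht) hts
      (Finset.mem_union_right _ (Finset.mem_image.2 ⟨u, hu, hmem.symm⟩))
  have hc1 : gp g (gp k t0) ∉ carP r2 := fun hmem =>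
    hgf _ (Finset.mem_insert_self _ _) hkt
      (Finset.mem_union_left _ (Finset.mem_union_left _ hmem))
  have hc2 : gp g (gp k t0) ∉ insert t0 s' := fun hmem =>
    hgf _ (Finset.mem_insert_self _ _) hkt
      (Finset.mem_union_left _ (Finset.mem_union_right _ hmem))
  have hc3 : ∀ u ∈ insert t0 s', gp h u ≠ gp g (gp k t0) := fun u hu hmem =>
    hgf _ (Finset.mem_insert_self _ _) hkt
      (Finset.mem_union_right _ (Finset.mem_image.2 ⟨u, hu, hmem⟩))
  -- the second group element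
  obtain ⟨g2, hg2a, hg2b, hg2c⟩ := second s' t0 hs h k g hh hk hg hkt hc3 (carP q)
    (carP r2 ∪ carP (ac g q))
  have hg2h : ∀ t ∈ insert t0 s', gp g2 t = gp h t := by
    intro t ht
    have := hg2a t ht
    rw [map_mul, Equiv.Perm.mul_apply, map_inv, Equiv.Perm.inv_eq_iff_eq] at this
    exact this
  -- restricted facts
  have hres : ∀ z ∈ q.s, car z ⊆ insert t0 s' → z ∈ p'.s := fun z hz hc =>
    hp'2 (mem_restr.2 ⟨hz, hc⟩)
  -- compatibility of r2 and g q
  have hA : Compat r2 (ac g q) := by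
    intro x hx y hy hxy
    obtain ⟨z, hz, rfl⟩ := (mem_ac g q y).1 hy
    have hcar : car x = car (fa g z) := car_of_key hxy
    have hsub : car z ⊆ insert t0 s' := by
      intro t ht
      by_contra hts
      apply hZ1 t (car_subset hz ht) hts
      apply car_subset hx
      rw [hcar]
      exact (mem_car_fa g z t).2 ht
    have hfix : fa g z = z := fa_fix g z fun t ht => hg t (hsub ht)
    rw [hfix] at hxy ⊢
    exact r2.inj x hx z (hr2p (hres z hz hsub)) hxy
  -- compatibility of r2 and g2 q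
  have hB : Compat r2 (ac g2 q) := by
    intro x hx y hy hxy
    obtain ⟨z, hz, rfl⟩ := (mem_ac g2 q y).1 hy
    have hcar : car x = car (fa g2 z) := car_of_key hxy
    have hsub : car z ⊆ insert t0 s' := by
      intro t ht
      by_contra hts
      have hin : gp g2 t ∈ carP r2 := by
        apply car_subset hx
        rw [hcar]
        exact (mem_car_fa g2 z t).2 ht
      by_cases htk : t = gp k t0
      · rw [htk, hg2b] at hin
        exact hc1 hin
      · exact hg2c t (car_subset hz ht) hts htk (Finset.mem_union_left _ hin)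
    have hfix : fa g2 z = fa h z := fa_congr g2 h z fun t ht => hg2h t (hsub ht)
    rw [hfix] at hxy ⊢
    exact r2.inj x hx _ (hr2' ((mem_ac h p' _).2 ⟨z, hres z hz hsub, rfl⟩)) hxy
  -- compatibility of g q and g2 q
  have hC : Compat (ac g q) (ac g2 q) := by
    intro x hx y hy hxy
    obtain ⟨z1, hz1, rfl⟩ := (mem_ac g q x).1 hx
    obtain ⟨z2, hz2, rfl⟩ := (mem_ac g2 q y).1 hy
    have hcar : car (fa g z1) = car (fa g2 z2) := car_of_key hxy
    have hsub2 : ∀ t ∈ car z2, t = gp k t0 ∨ t ∈ insert t0 s' := by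
      intro t ht
      by_contra hcon
      rw [not_or] at hcon
      apply hg2c t (car_subset hz2 ht) hcon.2 hcon.1
      apply Finset.mem_union_right
      apply car_subset hx
      rw [hcar]
      exact (mem_car_fa g2 z2 t).2 ht
    -- images of the points of z2
    have himg : ∀ t ∈ car z2, gp g2 t = gp g (gp k t0) ∨ ∃ u ∈ insert t0 s', gp g2 t = gp h u := by
      intro t ht
      rcases hsub2 t ht with rfl | h1
      · exact Or.inl hg2b
      · exact Or.inr ⟨t, h1, hg2h t h1⟩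
    have hsub1 : ∀ t ∈ car z1, t = gp k t0 ∨ t ∈ s' := by
      intro t ht
      have h1 : gp g t ∈ car (fa g2 z2) := by
        rw [← hcar]; exact (mem_car_fa g z1 t).2 ht
      obtain ⟨u, hu, hgu⟩ := (mem_car_fa' g2 z2 _).1 h1
      by_cases hts : t ∈ insert t0 s'
      · right
        rw [hg t hts] at hgu
        rcases himg u hu with h2 | ⟨v, hv, h2⟩
        · rw [hgu] at h2
          rw [h2] at hts
          exact (hc2 hts).elim
        · rw [hgu] at h2
          rcases Finset.mem_insert.1 hts with rfl | hts'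
          · -- h v = t0
            exfalso
            rcases Finset.mem_insert.1 hv with rfl | hv
            · exact hht h2.symm
            · rw [hh v hv] at h2
              rw [h2] at h0
              exact h0 hv
          · exact hts'
      · left
        rcases himg u hu with h2 | ⟨v, hv, h2⟩
        · rw [hgu] at h2
          exact (gp g).injective h2
        · rw [hgu] at h2
          exact (hZ3 t (car_subset hz1 ht) hts v hv h2).elim
    have hsub2' : ∀ t ∈ car z2, t = gp k t0 ∨ t ∈ s' := by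
      intro t ht
      have h1 : gp g2 t ∈ car (fa g z1) := by
        rw [hcar]; exact (mem_car_fa g2 z2 t).2 ht
      obtain ⟨u, hu, hgu⟩ := (mem_car_fa' g z1 _).1 h1
      rcases hsub1 u hu with rfl | hu'
      · left
        exact (gp g2).injective (by rw [hg2b, hgu])
      · right
        rw [hg u (Finset.mem_insert_of_mem hu')] at hgu
        have h2 : gp g2 u = u := by
          rw [hg2h u (Finset.mem_insert_of_mem hu'), hh u hu']
        have h3 : u = t := (gp g2).injective (by rw [h2, hgu])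
        rw [← h3]; exact hu'
    have hagree : fa g2 z2 = fa g z2 := fa_congr g2 g z2 fun t ht => by
      rcases hsub2' t ht with rfl | ht'
      · exact hg2b
      · rw [hg2h t (Finset.mem_insert_of_mem ht'), hh t ht',
          hg t (Finset.mem_insert_of_mem ht')]
    rw [hagree] at hxy ⊢
    have h4 : key z1 = key z2 := (key_fa_iff g z1 z2).1 hxy
    rw [q.inj z1 hz1 z2 hz2 h4]
  obtain ⟨r3, hr3a, hr3b, hr3c⟩ := exists_union hA
  have hD : Compat r3 (ac g2 q) := by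
    intro x hx y hy hxy
    rcases hr3c x hx with hx | hx
    · exact hB x hx y hy hxy
    · exact hC x hx y hy hxy
  obtain ⟨r4, hr4a, hr4b, _⟩ := exists_union hD
  refine ⟨r4, hr4a.trans (hr3a.trans (hr2.trans hr1)), ?_⟩
  -- evaluation
  have v1 : (sm g σ).eq σ = ⊤ := hσ g hg
  have v2 : ebb r4 ≤ (sm g σ).eq (sm g (sm k σ)) := by
    rw [sm_eq]
    refine le_trans ?_ (al_mono g hq)
    rw [al_ebb]
    exact eb_mono (hr4a.trans hr3b)
  have v3 : ebb r4 ≤ (sm g2 σ).eq (sm g2 (sm k σ)) := by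
    rw [sm_eq]
    refine le_trans ?_ (al_mono g2 hq)
    rw [al_ebb]
    exact eb_mono hr4b
  have v4 : (sm g2 σ).eq (sm h σ) = ⊤ := by
    have e : sm g2 σ = sm h (sm (h⁻¹ * g2) σ) := by
      rw [← sm_mul]; congr 1; group
    rw [e, sm_eq, hσ _ hg2a, al_top]
  have v5 : (sm g (sm k σ)).eq (sm g2 (sm k σ)) = ⊤ := by
    have e : sm g2 (sm k σ) = sm (g * k) (sm ((g * k)⁻¹ * (g2 * k)) σ) := by
      rw [← sm_mul, ← sm_mul]; congr 1; group
    rw [e, ← sm_mul, sm_eq, HSet.eq_symm, hσ _ ?_, al_top]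
    intro t ht
    have h5 : gp g2 (gp k t) = gp g (gp k t) := by
      rcases Finset.mem_insert.1 ht with rfl | ht'
      · exact hg2b
      · rw [hk t ht', hg2h t ht, hh t ht', hg t ht]
    rw [map_mul, Equiv.Perm.mul_apply, map_inv, Equiv.Perm.inv_eq_iff_eq, map_mul,
      Equiv.Perm.mul_apply, map_mul, Equiv.Perm.mul_apply, h5]
  have t1 : ebb r4 ≤ σ.eq (sm g (sm k σ)) := by
    rw [← HSet.eq_of_eq_top_left v1]; exact v2
  have t2 : ebb r4 ≤ σ.eq (sm g2 (sm k σ)) := by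
    refine le_trans (le_inf t1 ?_) (HSet.eq_trans _ _ _)
    rw [v5]; exact le_top
  have t3 : ebb r4 ≤ σ.eq (sm g2 σ) := by
    refine le_trans (le_inf t2 ?_) (HSet.eq_trans _ _ _)
    rw [HSet.eq_symm]; exact v3
  refine le_trans (le_inf t3 ?_) (HSet.eq_trans _ _ _)
  rw [v4]; exact le_top

/-- A name that does not change much under the stabilizer is equal to an invariant one. -/
lemma star (s' : Finset Pt) (σ : Nm) (p : PP)
    (h : ∀ h ∈ H s', ebb p ⊓ ebb (ac h p) ≤ σ.eq (sm h σ)) :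
    ∃ ρ, Inv s' ρ ∧ ebb p ≤ σ.eq ρ := by
  classical
  let f : H s' × σ.idx → Nm := fun x => sm x.1.1 (σ.el x.2)
  let b : H s' × σ.idx → BB := fun x => al x.1.1 (σ.vl x.2) ⊓ ebb (ac x.1.1 p)
  have hperm : ∀ g (hg : g ∈ H s') (x : H s' × σ.idx),
      sm g (f x) = f (⟨g, hg⟩ * x.1, x.2) ∧ al g (b x) = b (⟨g, hg⟩ * x.1, x.2) := by
    intro g hg x
    constructor
    · exact (sm_mul _ _ _).symm
    · simp only [b]
      rw [al_inf, al_ebb, ← al_mul, ← ac_mul]
      rfl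
  have hfam : ∀ g ∈ H s', (∀ i, ∃ j, ((f i).smul (S := Rs.S) g).eq (f j) = ⊤ ∧
      Rs.S.α g (b i) ≤ b j) ∧
      (∀ j, ∃ i, ((f i).smul (S := Rs.S) g).eq (f j) = ⊤ ∧ b j ≤ Rs.S.α g (b i)) := by
    intro g hg
    refine ⟨fun x => ⟨(⟨g, hg⟩ * x.1, x.2), ?_, ?_⟩, fun x => ⟨(⟨g, hg⟩⁻¹ * x.1, x.2), ?_, ?_⟩⟩
    · change (sm g (f x)).eq _ = ⊤
      rw [(hperm g hg x).1, HSet.eq_refl]
    · exact (hperm g hg x).2.le
    · change (sm g (f _)).eq _ = ⊤
      rw [(hperm g hg _).1, mul_inv_cancel_left, HSet.eq_refl]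
    · have := (hperm g hg (⟨g, hg⟩⁻¹ * x.1, x.2)).2
      rw [mul_inv_cancel_left] at this
      exact this.ge
  let ρ : Nm := HSet.fam (S := Rs.S) f b (Filter.mem_of_superset (H_mem_Fi s') hfam)
  have hρ : ∀ w : Nm, w.mem ρ = ⨆ x, b x ⊓ w.eq (f x) := fun w => HSet.mem_fam f b _ w
  have hle : ∀ g ∈ H s', ∀ w : Nm, w.mem (sm g ρ) ≤ w.mem ρ := by
    intro g hg w
    have e : w.mem (sm g ρ) = ⨆ x, al g (b x) ⊓ w.eq (sm g (f x)) := HSet.mem_smul_fam f b _ g w
    rw [e, hρ]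
    refine iSup_le fun x => le_iSup_of_le (⟨g, hg⟩ * x.1, x.2) ?_
    rw [(hperm g hg x).1, (hperm g hg x).2]
  refine ⟨ρ, fun g hg => ?_, ?_⟩
  · rw [eq_top_iff]
    refine HSet.le_eq (fun z => inf_le_right.trans (hle g hg z)) (fun z => inf_le_right.trans ?_)
    have h2 := hle g⁻¹ (inv_mem hg) (sm g⁻¹ z)
    have h3 := al_mono g h2
    rw [← sm_mem, ← sm_mem, sm_inv', sm_inv'] at h3
    exact h3
  · refine HSet.le_eq (fun w => ?_) (fun w => ?_)
    · rw [hρ, HSet.mem_eq, inf_iSup_eq]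
      refine iSup_le fun i => le_iSup_of_le (1, i) ?_
      have e1 : f (1, i) = σ.el i := sm_one _
      have e2 : b (1, i) = σ.vl i ⊓ ebb p := by
        simp only [b]
        rw [OneMemClass.coe_one, al_one, ac_one]
      rw [e1, e2]
      exact le_inf (le_inf (inf_le_right.trans inf_le_left) inf_le_left)
        (inf_le_right.trans inf_le_right)
    · rw [hρ, inf_iSup_eq]
      refine iSup_le fun x => ?_
      have h4 : b x ⊓ w.eq (f x) ≤ w.mem (sm x.1.1 σ) := by
        have h5 : al x.1.1 (σ.vl x.2) ≤ (f x).mem (sm x.1.1 σ) := by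
          change _ ≤ (sm x.1.1 (σ.el x.2)).mem (sm x.1.1 σ)
          rw [sm_mem]
          exact al_mono _ (σ.vl_le_mem x.2)
        refine le_trans ?_ (HSet.mem_congr_left (f x) w _)
        refine le_inf ?_ (inf_le_left.trans (inf_le_left.trans h5))
        rw [HSet.eq_symm]; exact inf_le_right
      have h6 : ebb p ⊓ b x ≤ σ.eq (sm x.1.1 σ) :=
        le_trans (le_inf inf_le_left (inf_le_right.trans inf_le_right)) (h x.1.1 x.1.2)
      refine le_trans (le_inf (?_ : _ ≤ (sm x.1.1 σ).eq σ) (inf_le_right.trans h4))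
        (HSet.mem_congr_right _ _ _)
      rw [HSet.eq_symm (sm x.1.1 σ) σ]
      exact le_trans (le_inf inf_le_left (inf_le_right.trans inf_le_left)) h6

/-- The Boolean value of being equal to an invariant name. -/
noncomputable def inval (s : Finset Pt) (σ : Nm) : BB := ⨆ ρ : {ρ : Nm // Inv s ρ}, σ.eq ρ.1

/-- Injectivity. -/
lemma sep_copies (s' : Finset Pt) (t0 : Pt) (h0 : t0 ∉ s') (hs : Closed (insert t0 s'))
    (σ : Nm) (hσ : Inv (insert t0 s') σ) (p : PP) (hp : ebb p ≤ (inval s' σ)ᶜ)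
    (k : Gr) (hk : k ∈ H s') (hk0 : gp k t0 ≠ t0) : ebb p ⊓ σ.eq (sm k σ) = ⊥ := by
  by_contra hne
  obtain ⟨q, hq1, hq2⟩ := exists_le_of_inf_ne_bot (Q := Qs) hne
  obtain ⟨p', hp'1, hp'2⟩ := dagger s' t0 h0 hs σ hσ p q hq1 k hk hk0 hq2
  obtain ⟨ρ, hρ1, hρ2⟩ := star s' σ p' hp'2
  apply eb_ne_bot (Q := Qs) p'
  rw [← le_bot_iff]
  have h1 : ebb p' ≤ inval s' σ := hρ2.trans (le_iSup (fun ρ : {ρ : Nm // Inv s' ρ} =>
    σ.eq ρ.1) ⟨ρ, hρ1⟩)
  have h2 : ebb p' ≤ (inval s' σ)ᶜ := (eb_mono hp'1).trans hp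
  calc ebb p' ≤ inval s' σ ⊓ (inval s' σ)ᶜ := le_inf h1 h2
    _ ≤ ⊥ := by simp

end Pool.Agent.Lib.MP_f9fa2e_lc
end

section

set_option autoImplicit false

open Set

namespace Pool.Agent.Lib.MP_f9fa2e_lc

open Pool.Agent.Lib.SymZF SymSys FactSys

/-- names of points -/
noncomputable def xt : Pt → Nm
  | .inl a => Rs.xa a
  | .inr x => Rs.xr x

lemma sm_xt (g : Gr) (t : Pt) : (sm g (xt t)).eq (xt (gp g t)) = ⊤ := by
  rcases t with a | x
  · exact Rs.smul_xa g a
  · have h : sm g (xt (.inr x)) = xt (gp g (.inr x)) := Rs.smul_xr g x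
    rw [h, HSet.eq_refl]

lemma xt_eq_bot (g h : Gr) (t : Pt) (hne : gp g t ≠ gp h t) :
    (xt (gp g t)).eq (xt (gp h t)) = ⊥ := by
  rcases t with a | x
  · rw [gp_inl, gp_inl]
    rw [gp_inl, gp_inl] at hne
    exact Rs.xa_eq_bot fun h => hne (congrArg _ h)
  · rw [gp_inr, gp_inr]
    rw [gp_inr, gp_inr] at hne
    exact Rs.xr_eq_bot fun h => hne (congrArg _ h)

lemma sm_opair (g : Gr) (σ τ : Nm) : sm g (σ.opair τ) = (sm g σ).opair (sm g τ) :=
  HSet.smul_opair _ _ _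

lemma opair_top {a a' b b' : Nm} (h : a.eq a' = ⊤) (h' : b.eq b' = ⊤) :
    (a.opair b).eq (a'.opair b') = ⊤ := by
  rw [eq_top_iff]
  refine le_trans ?_ (HSet.opair_congr _ _ _ _)
  rw [h, h']; simp

lemma inv_eq {s : Finset Pt} {ρ ρ' : Nm} (h : Inv s ρ) (h' : Inv s ρ') {g : Gr} (hg : g ∈ H s) :
    al g (ρ.eq ρ') = ρ.eq ρ' := by
  rw [← sm_eq, HSet.eq_of_eq_top_left (h g hg), HSet.eq_symm, HSet.eq_of_eq_top_left (h' g hg),
    HSet.eq_symm]

/-- elements of the name of the partial injection -/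
noncomputable def rel1 (s' : Finset Pt) (t0 : Pt) (σ : Nm) (h : H s') : Nm :=
  (sm h.1 σ).opair (xt (gp h.1 t0))

/-- values of the name of the partial injection -/
noncomputable def rel2 (s' : Finset Pt) (p : PP) (h : H s') : BB := ebb (ac h.1 p)

lemma rel1_sm (s' : Finset Pt) (t0 : Pt) (σ : Nm) (g h : H s') :
    (sm g.1 (rel1 s' t0 σ h)).eq (rel1 s' t0 σ (g * h)) = ⊤ := by
  unfold rel1
  rw [sm_opair]
  apply opair_top
  · rw [← sm_mul]
    exact HSet.eq_refl _
  · have e : gp (g * h : H s').1 t0 = gp g.1 (gp h.1 t0) := by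
      rw [Subgroup.coe_mul, map_mul, Equiv.Perm.mul_apply]
    rw [e]
    exact sm_xt g.1 _

lemma rel2_al (s' : Finset Pt) (p : PP) (g h : H s') :
    al g.1 (rel2 s' p h) = rel2 s' p (g * h) := by
  unfold rel2
  rw [al_ebb, ← ac_mul, Subgroup.coe_mul]

lemma rel_fix (s' : Finset Pt) (t0 : Pt) (p : PP) (σ : Nm) (g : Gr) (hg : g ∈ H s') :
    (∀ i, ∃ j, (sm g (rel1 s' t0 σ i)).eq (rel1 s' t0 σ j) = ⊤ ∧
      al g (rel2 s' p i) ≤ rel2 s' p j) ∧
    (∀ j, ∃ i, (sm g (rel1 s' t0 σ i)).eq (rel1 s' t0 σ j) = ⊤ ∧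
      rel2 s' p j ≤ al g (rel2 s' p i)) := by
  obtain ⟨g', rfl⟩ : ∃ g' : H s', g'.1 = g := ⟨⟨g, hg⟩, rfl⟩
  constructor
  · intro h
    exact ⟨g' * h, rel1_sm s' t0 σ g' h, (rel2_al s' p g' h).le⟩
  · intro h
    refine ⟨g'⁻¹ * h, ?_, ?_⟩
    · have := rel1_sm s' t0 σ g' (g'⁻¹ * h)
      rw [mul_inv_cancel_left] at this
      exact this
    · have := rel2_al s' p g' (g'⁻¹ * h)
      rw [mul_inv_cancel_left] at this
      exact this.ge

/-- Names from families permuted by a stabilizer. -/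
noncomputable def famH (s : Finset Pt) {I : Type} (f : I → Nm) (b : I → BB)
    (h : ∀ g ∈ H s, (∀ i, ∃ j, (sm g (f i)).eq (f j) = ⊤ ∧ al g (b i) ≤ b j) ∧
      (∀ j, ∃ i, (sm g (f i)).eq (f j) = ⊤ ∧ b j ≤ al g (b i))) : Nm :=
  HSet.fam (S := Rs.S) f b (Filter.mem_of_superset (H_mem_Fi s) h)

/-- The name of the partial injection from a set of copies of `σ` to points. -/
noncomputable def Rn (s' : Finset Pt) (t0 : Pt) (p : PP) (σ : Nm) : Nm :=
  famH s' (rel1 s' t0 σ) (rel2 s' p) (rel_fix s' t0 p σ)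

open Classical in
/-- The canonical invariant name equal to `τ` below `q`. -/
noncomputable def can (s : Finset Pt) (q : PP) (τ : Nm) : Nm :=
  if h : ∃ ρ, Inv s ρ ∧ ebb q ≤ τ.eq ρ then h.choose else τ

lemma can_spec {s : Finset Pt} {q : PP} {τ : Nm} (h : ∃ ρ, Inv s ρ ∧ ebb q ≤ τ.eq ρ) :
    Inv s (can s q τ) ∧ ebb q ≤ τ.eq (can s q τ) := by
  have e : can s q τ = h.choose := by
    unfold can
    exact dif_pos h
  rw [e]
  exact h.choose_spec

/-- The index type of the invariant representatives. -/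
def LI (s : Finset Pt) (ξ : Nm) : Type :=
  {x : ξ.idx × PP // ∃ ρ, Inv s ρ ∧ ebb x.2 ≤ (ξ.el x.1).eq ρ}

/-- The representatives. -/
noncomputable def lrho (s : Finset Pt) (ξ : Nm) (i : LI s ξ) : Nm := can s i.1.2 (ξ.el i.1.1)

lemma lrho_inv (s : Finset Pt) (ξ : Nm) (i : LI s ξ) : Inv s (lrho s ξ i) := (can_spec i.2).1
lemma lrho_le (s : Finset Pt) (ξ : Nm) (i : LI s ξ) :
    ebb i.1.2 ≤ (ξ.el i.1.1).eq (lrho s ξ i) := (can_spec i.2).2

/-- `τ` is equal to the `i`-th representative and not to an earlier one. -/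
noncomputable def lv (s : Finset Pt) (ξ : Nm) (τ : Nm) (i : LI s ξ) : BB :=
  τ.eq (lrho s ξ i) ⊓ (⨆ j : {j : LI s ξ // WellOrderingRel j i}, τ.eq (lrho s ξ j.1))ᶜ

lemma lv_congr (s : Finset Pt) (ξ : Nm) (τ τ' : Nm) (i : LI s ξ) :
    τ.eq τ' ⊓ lv s ξ τ i ≤ lv s ξ τ' i := by
  unfold lv
  refine le_inf ?_ ?_
  · calc _ ≤ τ'.eq τ ⊓ τ.eq (lrho s ξ i) := by
          rw [HSet.eq_symm τ' τ]
          exact inf_le_inf_left _ inf_le_left
      _ ≤ _ := HSet.eq_trans _ _ _
  · rw [compl_iSup, compl_iSup]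
    refine le_iInf fun j => ?_
    rw [le_compl_iff_disjoint_right, disjoint_iff_inf_le]
    calc τ.eq τ' ⊓ (τ.eq (lrho s ξ i) ⊓ ⨅ j : {j : LI s ξ // WellOrderingRel j i},
          (τ.eq (lrho s ξ j.1))ᶜ) ⊓ τ'.eq (lrho s ξ j.1)
        ≤ τ.eq (lrho s ξ j.1) ⊓ (τ.eq (lrho s ξ j.1))ᶜ := by
          refine le_inf ?_ ?_
          · refine le_trans ?_ (HSet.eq_trans τ τ' _)
            exact inf_le_inf_right _ inf_le_left
          · exact inf_le_left.trans (inf_le_right.trans (inf_le_right.trans (iInf_le _ j)))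
      _ ≤ ⊥ := by simp

lemma lv_self_inv (s : Finset Pt) (ξ : Nm) (i : LI s ξ) {g : Gr} (hg : g ∈ H s) :
    al g (lv s ξ (lrho s ξ i) i) = lv s ξ (lrho s ξ i) i := by
  unfold lv
  rw [al_inf, inv_eq (lrho_inv s ξ i) (lrho_inv s ξ i) hg, al_compl, al_iSup]
  congr 2
  exact iSup_congr fun j => inv_eq (lrho_inv s ξ i) (lrho_inv s ξ j.1) hg

open Classical in
/-- The values of the linear order. -/
noncomputable def lb (s : Finset Pt) (ξ : Nm) (x : LI s ξ × LI s ξ) : BB :=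
  if WellOrderingRel x.1 x.2 then lv s ξ (lrho s ξ x.1) x.1 ⊓ lv s ξ (lrho s ξ x.2) x.2 else ⊥

/-- The name of the linear order. -/
noncomputable def Ln (s : Finset Pt) (ξ : Nm) : Nm :=
  HSet.fam (S := Rs.S) (fun x : LI s ξ × LI s ξ => (lrho s ξ x.1).opair (lrho s ξ x.2))
    (lb s ξ) (Filter.mem_of_superset (H_mem_Fi s) (by
      intro g hg
      have h1 : ∀ x : LI s ξ × LI s ξ,
          (((lrho s ξ x.1).opair (lrho s ξ x.2)).smul (S := Rs.S) g).eq
            ((lrho s ξ x.1).opair (lrho s ξ x.2)) = ⊤ := by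
        intro x
        change (sm g _).eq _ = ⊤
        rw [sm_opair]
        exact opair_top (lrho_inv s ξ _ g hg) (lrho_inv s ξ _ g hg)
      have h2 : ∀ x : LI s ξ × LI s ξ, Rs.S.α g (lb s ξ x) = lb s ξ x := by
        intro x
        change al g (lb s ξ x) = lb s ξ x
        unfold lb
        split_ifs
        · rw [al_inf, lv_self_inv s ξ _ hg, lv_self_inv s ξ _ hg]
        · exact al_bot g
      exact ⟨fun x => ⟨x, h1 x, (h2 x).le⟩, fun x => ⟨x, h1 x, (h2 x).ge⟩⟩))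

lemma fin_inv (w : Finset ℕ) : ∀ᶠ g in Rs.Q.F, Rs.gπ g '' ((w : Set ℕ) : Set Rs.A) = (w : Set ℕ) := by
  refine Filter.mem_of_superset (H_mem_Fi (w.map ⟨Sum.inl, Sum.inl_injective⟩)) ?_
  intro g hg
  have h1 : ∀ a ∈ w, g.1.2 a = a := by
    intro a ha
    have := hg (.inl a) (Finset.mem_map.2 ⟨a, ha, rfl⟩)
    exact Sum.inl.inj this
  change (g.1.2 '' (w : Set ℕ)) = (w : Set ℕ)
  ext b
  constructor
  · rintro ⟨a, ha, rfl⟩
    rw [h1 a ha]; exact ha
  · intro hb
    exact ⟨b, hb, h1 b hb⟩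

/-- The name of a finite set of atoms. -/
noncomputable def stF (w : Finset ℕ) : Nm := Rs.st (w : Set ℕ) (fin_inv w)

lemma sm_stF (g : Gr) (w : Finset ℕ) : (sm g (stF w)).eq (stF (w.map g.1.2.toEmbedding)) = ⊤ := by
  refine Rs.smul_st g _ _ _ _ ?_
  change (g.1.2 '' (w : Set ℕ)) = ((w.map g.1.2.toEmbedding : Finset ℕ) : Set ℕ)
  rw [Finset.coe_map]
  rfl

lemma univ_inv : ∀ᶠ g in Rs.Q.F, Rs.gπ g '' (univ : Set ℕ) = univ :=
  Filter.Eventually.of_forall fun _ => Set.image_univ_of_surjective (Equiv.surjective _)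

/-- The name of the set of all atoms. -/
noncomputable def stU : Nm := Rs.st univ univ_inv

lemma inv_stU (s : Finset Pt) : Inv s stU := fun g _ =>
  Rs.smul_st g _ _ _ _ (Set.image_univ_of_surjective (Equiv.surjective _))

/-- The value of a fact. -/
noncomputable def fct (x : Fact) : BB := fact (Q := Qs) x

lemma al_fct (g : Gr) (x : Fact) : al g (fct x) = fct (fa g x) := α_fact (Q := Qs) g x

/-- The name of the generic choice function. -/
noncomputable def cn : Nm :=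
  HSet.fam (S := Rs.S) (fun x : CF => (stF x.1.1).opair (stF x.1.2)) (fun x => fct (.inr x))
    (Filter.Eventually.of_forall fun g => by
      have h1 : ∀ (g : Gr) (x : CF), (((stF x.1.1).opair (stF x.1.2)).smul (S := Rs.S) g).eq
          ((stF (x.map g.1.2).1.1).opair (stF (x.map g.1.2).1.2)) = ⊤ := by
        intro g x
        change (sm g _).eq _ = ⊤
        rw [sm_opair]
        exact opair_top (sm_stF g _) (sm_stF g _)
      have h2 : ∀ (g : Gr) (x : CF), Rs.S.α g (fct (.inr x)) = fct (.inr (x.map g.1.2)) :=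
        fun g x => al_fct g _
      refine ⟨fun x => ⟨x.map g.1.2, h1 g x, (h2 g x).le⟩,
        fun x => ⟨x.map (g.1.2)⁻¹, ?_, ?_⟩⟩
      · have := h1 g (x.map (g.1.2)⁻¹)
        rw [CF.map_map, mul_inv_cancel, CF.map_one] at this
        exact this
      · have := h2 g (x.map (g.1.2)⁻¹)
        rw [CF.map_map, mul_inv_cancel, CF.map_one] at this
        exact this.ge)

end Pool.Agent.Lib.MP_f9fa2e_lc
end
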