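import Mathlib
import Pool.Agent.Lib.SymZF.Internal
import Pool.Agent.Lib.MP_f9fa2e_lc.Nms
import Pool.Agent.Lib.MP_f9fa2e_lc.Comb

section

section

set_option autoImplicit false

open Set

namespace Pool.Agent.Lib.SymZF

/-- prepend finitely many values -/
def app {M : Type} (m : ℕ) (u : Fin m → M) (v : ℕ → M) : ℕ → M :=
  fun n => if h : n < m then u ⟨n, h⟩ else v (n - m)

lemma app_lt {M : Type} (m : ℕ) (u : Fin m → M) (v : ℕ → M) (i : Fin m) :
    app m u v i.val = u i := by simp [app]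

lemma app_ge {M : Type} (m : ℕ) (u : Fin m → M) (v : ℕ → M) (i : ℕ) :
    app m u v (i + m) = v i := by simp [app]

lemma app_succ {M : Type} (m : ℕ) (u : Fin (m + 1) → M) (v : ℕ → M) :
    app (m + 1) u v = app m (fun i => u i.castSucc) (scons (u (Fin.last m)) v) := by
  funext n
  unfold app
  by_cases h1 : n < m
  · have h2 : n < m + 1 := by omega
    simp only [h1, h2, dif_pos]
    rfl
  · by_cases h3 : n = m
    · subst h3
      simp only [lt_irrefl, dif_neg, not_false_eq_true, Nat.sub_self, scons_zero]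
      rw [dif_pos (Nat.lt_succ_self n)]
      rfl
    · have h4 : ¬ n < m + 1 := by omega
      simp only [h1, h4, dif_neg, not_false_eq_true]
      obtain ⟨k, rfl⟩ : ∃ k, n = m + 1 + k := ⟨n - (m + 1), by omega⟩
      have e1 : m + 1 + k - m = k + 1 := by omega
      have e2 : m + 1 + k - (m + 1) = k := by omega
      rw [e1, e2, scons_succ]

namespace Def

variable {R R' : ∀ {M : Type}, (M → M → Prop) → (ℕ → M) → Prop}

lemma exFin (m : ℕ) (h : Def R) : Def (fun E v => ∃ u : Fin m → _, R E (app m u v)) := by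
  induction m with
  | zero =>
    refine congr h fun M E v => ?_
    have e : ∀ u : Fin 0 → M, app 0 u v = v := by
      intro u; funext n; simp [app]
    constructor
    · intro h; exact ⟨fun i => i.elim0, by rw [e]; exact h⟩
    · rintro ⟨u, hu⟩; rw [e] at hu; exact hu
  | succ m ih =>
    refine congr (ex ih) fun M E v => ?_
    constructor
    · rintro ⟨x, u, hu⟩
      refine ⟨fun i => if h : i.val < m then u ⟨i.val, h⟩ else x, ?_⟩
      rw [app_succ]
      simp only [Fin.val_castSucc, Fin.is_lt, dif_pos, Fin.eta, Fin.val_last, lt_irrefl, dif_neg,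
        not_false_eq_true]
      exact hu
    · rintro ⟨u, hu⟩
      rw [app_succ] at hu
      exact ⟨_, _, hu⟩

lemma eu (h : Def R) : Def (fun E v => ∃! x, R E (scons x v)) := by
  refine congr (ex (R := fun E v => R E v ∧ ∀ y, R E (scons y (fun n => v (n + 1))) → y = v 0)
    (and h (all (R := fun E v => R E (scons (v 0) (fun n => v (n + 2))) → v 0 = v 1)
      (imp ?_ (eq 0 1))))) fun M E v => ?_
  · refine congr (ren h (fun n => Nat.casesOn n 0 (fun m => m + 2))) fun M E v => ?_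
    have e : (fun n => v (Nat.casesOn n 0 (fun m => m + 2) : ℕ)) =
        scons (v 0) (fun n => v (n + 2)) := by
      funext n; cases n <;> rfl
    rw [e]
  · rfl

lemma injFin (m : ℕ) : Def (fun _ v => ∀ i j : Fin m, i ≠ j → v i.val ≠ v j.val) := by
  refine iAnd fun i => iAnd fun j => ?_
  by_cases h : i = j
  · exact congr tru fun M E v => by simp [h]
  · exact congr (not (eq i.val j.val)) fun M E v => by simp [h]

lemma hasCard (m i : ℕ) : Def (fun E v => HasCard E (v i) m) := by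
  refine congr (exFin m (R := fun E v => (∀ a b : Fin m, a ≠ b → v a.val ≠ v b.val) ∧
    ∀ t, E t (v (i + m)) ↔ ∃ a : Fin m, t = v a.val) (and (injFin m)
      (all (R := fun E v => E (v 0) (v (i + m + 1)) ↔ ∃ a : Fin m, v 0 = v (a.val + 1))
        (iff (mem _ _) (iOr fun a => eq _ _))))) fun M E v => ?_
  unfold HasCard
  refine exists_congr fun u => ?_
  simp only [app_lt, app_ge]
  refine and_congr ?_ Iff.rfl
  constructor
  · intro h a b hab
    by_contra hne
    exact h a b hne hab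
  · intro h a b hab h2
    exact hab (h h2)

lemma moreThan (n i : ℕ) : Def (fun E v => MoreThan E n (v i)) := by
  refine congr (exFin (n + 1) (R := fun E v => (∀ a b : Fin (n + 1), a ≠ b → v a.val ≠ v b.val) ∧
    ∀ a : Fin (n + 1), E (v a.val) (v (i + (n + 1)))) (and (injFin (n + 1))
      (iAnd fun a => mem _ _))) fun M E v => ?_
  unfold MoreThan
  refine exists_congr fun u => ?_
  simp only [app_lt, app_ge]
  refine and_congr ?_ Iff.rfl
  constructor
  · intro h a b hab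
    by_contra hne
    exact h a b hne hab
  · intro h a b hab h2
    exact hab (h h2)

lemma isFun (i j k : ℕ) : Def (fun E v => IsFun E (v i) (v j) (v k)) :=
  and (all (R := fun E v => E (v 0) (v (i + 1)) → ∃ a b, E a (v (j + 1)) ∧ E b (v (k + 1)) ∧
      IsOPair E a b (v 0)) (imp (mem _ _)
      (ex (R := fun E v => ∃ b, E (v 0) (v (j + 2)) ∧ E b (v (k + 2)) ∧ IsOPair E (v 0) b (v 1))
        (ex (R := fun E v => E (v 1) (v (j + 3)) ∧ E (v 0) (v (k + 3)) ∧
          IsOPair E (v 1) (v 0) (v 2)) (and (mem _ _) (and (mem _ _) (isOPair _ _ _)))))))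
    (all (R := fun E v => E (v 0) (v (j + 1)) → ∃! b, Rel E (v (i + 1)) (v 0) b)
      (imp (mem _ _) (eu (R := fun E v => Rel E (v (i + 2)) (v 1) (v 0)) (rel _ _ _))))

lemma isInj (i j k : ℕ) : Def (fun E v => IsInj E (v i) (v j) (v k)) :=
  and (isFun _ _ _) (all (R := fun E v => ∀ a' b, Rel E (v (i + 1)) (v 0) b →
      Rel E (v (i + 1)) a' b → v 0 = a')
    (all (R := fun E v => ∀ b, Rel E (v (i + 2)) (v 1) b → Rel E (v (i + 2)) (v 0) b → v 1 = v 0)
      (all (R := fun E v => Rel E (v (i + 3)) (v 2) (v 0) → Rel E (v (i + 3)) (v 1) (v 0) →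
        v 2 = v 1) (imp (rel _ _ _) (imp (rel _ _ _) (eq _ _))))))

lemma isBij (i j k : ℕ) : Def (fun E v => IsBij E (v i) (v j) (v k)) :=
  and (isInj _ _ _) (all (R := fun E v => E (v 0) (v (k + 1)) → ∃ a, Rel E (v (i + 1)) a (v 0))
    (imp (mem _ _) (ex (R := fun E v => Rel E (v (i + 2)) (v 0) (v 1)) (rel _ _ _))))

lemma isFin (i : ℕ) : Def (fun E v => IsFin E (v i)) :=
  ex (R := fun E v => ∃ n f, IsOmega E (v 0) ∧ E n (v 0) ∧ IsBij E f n (v (i + 1)))
    (ex (R := fun E v => ∃ f, IsOmega E (v 1) ∧ E (v 0) (v 1) ∧ IsBij E f (v 0) (v (i + 2)))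
      (ex (R := fun E v => IsOmega E (v 2) ∧ E (v 1) (v 2) ∧ IsBij E (v 0) (v 1) (v (i + 3)))
        (and (isOmega _) (and (mem _ _) (isBij _ _ _)))))

end Def

section

variable {M : Type} {E : M → M → Prop} (hZ : IsZF E)
include hZ

/-- Relations from definable graphs. -/
theorem rel_of_graph {R : ∀ {M : Type}, (M → M → Prop) → (ℕ → M) → Prop} (h : Def R)
    (v : ℕ → M) (X Y : M) : ∃ f, (∀ p, E p f → ∃ a b, E a X ∧ E b Y ∧ IsOPair E a b p) ∧
      ∀ a b, Rel E f a b ↔ E a X ∧ E b Y ∧ R E (scons b (scons a v)) := by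
  obtain ⟨q, hq⟩ := hZ.pair X Y
  obtain ⟨U, hU⟩ := hZ.union q
  obtain ⟨PU, hPU⟩ := hZ.power U
  obtain ⟨PPU, hPPU⟩ := hZ.power PU
  have hXU : ∀ a, E a X → E a U := fun a ha => (hU a).2 ⟨X, (hq X).2 (Or.inl rfl), ha⟩
  have hYU : ∀ a, E a Y → E a U := fun a ha => (hU a).2 ⟨Y, (hq Y).2 (Or.inr rfl), ha⟩
  have hp : ∀ a b p, E a X → E b Y → IsOPair E a b p → E p PPU := by
    rintro a b p ha hb ⟨c, d, hc, hd, hp⟩
    rw [hPPU]
    intro t ht
    rw [hPU]
    intro u hu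
    rcases (hp t).1 ht with rfl | rfl
    · rcases (hc u).1 hu with rfl | rfl <;> exact hXU _ ha
    · rcases (hd u).1 hu with rfl | rfl
      · exact hXU _ ha
      · exact hYU _ hb
  have hdef : Def (fun E v => ∃ a b, E a (v 1) ∧ E b (v 2) ∧ IsOPair E a b (v 0) ∧
      R E (scons b (scons a (fun n => v (n + 3))))) := by
    refine Def.ex (R := fun E v => ∃ b, E (v 0) (v 2) ∧ E b (v 3) ∧ IsOPair E (v 0) b (v 1) ∧
      R E (scons b (scons (v 0) (fun n => v (n + 4)))))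
      (Def.ex (R := fun E v => E (v 1) (v 3) ∧ E (v 0) (v 4) ∧ IsOPair E (v 1) (v 0) (v 2) ∧
        R E (scons (v 0) (scons (v 1) (fun n => v (n + 5)))))
        (Def.and (Def.mem _ _) (Def.and (Def.mem _ _) (Def.and (Def.isOPair _ _ _) ?_))))
    refine Def.congr (Def.ren h (fun n => Nat.casesOn n 0 (fun m => Nat.casesOn m 1
      (fun k => k + 5)))) fun M E v => ?_
    have e : (fun n => v (Nat.casesOn n 0 (fun m => Nat.casesOn m 1 (fun k => k + 5)) : ℕ)) =
        scons (v 0) (scons (v 1) (fun n => v (n + 5))) := by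
      funext n
      rcases n with _ | _ | n <;> rfl
    rw [e]
  obtain ⟨f, hf⟩ := sep_of_def hZ hdef (scons X (scons Y v)) PPU
  have hf' : ∀ p, E p f ↔ ∃ a b, E a X ∧ E b Y ∧ IsOPair E a b p ∧
      R E (scons b (scons a v)) := by
    intro p
    rw [hf]
    constructor
    · exact fun h => h.2
    · rintro ⟨a, b, ha, hb, hab, hR⟩
      exact ⟨hp a b p ha hb hab, a, b, ha, hb, hab, hR⟩
  refine ⟨f, fun p hpf => ?_, fun a b => ?_⟩
  · obtain ⟨a, b, ha, hb, hab, _⟩ := (hf' p).1 hpf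
    exact ⟨a, b, ha, hb, hab⟩
  · constructor
    · rintro ⟨p, hp, hpf⟩
      obtain ⟨a', b', ha, hb, hab, hR⟩ := (hf' p).1 hpf
      obtain ⟨rfl, rfl⟩ := opair_inj hp hab
      exact ⟨ha, hb, hR⟩
    · rintro ⟨ha, hb, hR⟩
      obtain ⟨p, hp⟩ := opair_ex hZ a b
      exact ⟨p, hp, (hf' p).2 ⟨a, b, ha, hb, hp, hR⟩⟩

end

section

variable {M : Type} (E : M → M → Prop)

/-- `f` chooses `n`-element subsets of the finite subsets of `y` with more than `n` elements. -/
def ChF (n : ℕ) (y f : M) : Prop :=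
  IsFunOn E (fun z => Sub E z y ∧ IsFin E z ∧ MoreThan E n z) (MSub E n y) f ∧
    ∀ z w, Rel E f z w → Sub E w z

variable {E} (hZ : IsZF E)
include hZ

theorem chf_of_graph {R : ∀ {M : Type}, (M → M → Prop) → (ℕ → M) → Prop} (h : Def R)
    (v : ℕ → M) (n : ℕ) (y : M)
    (h1 : ∀ z, Sub E z y → IsFin E z → MoreThan E n z →
      ∃! w, R E (scons w (scons z v)))
    (h2 : ∀ z w, Sub E z y → IsFin E z → MoreThan E n z → R E (scons w (scons z v)) →
      MSub E n z w) : ∃ f, ChF E n y f := by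
  obtain ⟨PY, hPY⟩ := hZ.power y
  have hdef : Def (fun E v => (Sub E (v 1) (v 2) ∧ IsFin E (v 1) ∧ MoreThan E n (v 1)) ∧
      R E (scons (v 0) (scons (v 1) (fun n => v (n + 3))))) := by
    refine Def.and (Def.and (Def.sub _ _) (Def.and (Def.isFin _) (Def.moreThan _ _))) ?_
    refine Def.congr (Def.ren h (fun n => Nat.casesOn n 0 (fun m => Nat.casesOn m 1
      (fun k => k + 3)))) fun M E v => ?_
    have e : (fun n => v (Nat.casesOn n 0 (fun m => Nat.casesOn m 1 (fun k => k + 3)) : ℕ)) =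
        scons (v 0) (scons (v 1) (fun n => v (n + 3))) := by
      funext n
      rcases n with _ | _ | n <;> rfl
    rw [e]
  obtain ⟨f, hf1, hf2⟩ := rel_of_graph hZ hdef (scons y v) PY PY
  have hrel : ∀ z w, Rel E f z w ↔ (Sub E z y ∧ IsFin E z ∧ MoreThan E n z) ∧
      R E (scons w (scons z v)) := by
    intro z w
    rw [hf2]
    constructor
    · exact fun h => h.2.2
    · intro h
      refine ⟨(hPY z).2 h.1.1, (hPY w).2 ?_, h⟩
      have h3 := h2 z w h.1.1 h.1.2.1 h.1.2.2 h.2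
      exact fun t ht => h.1.1 t (h3.1 t ht)
  refine ⟨f, ⟨fun p hp => ?_, fun z hz => ?_⟩, fun z w hzw => ?_⟩
  · obtain ⟨a, b, _, _, hab⟩ := hf1 p hp
    have h3 := (hrel a b).1 ⟨p, hab, hp⟩
    have h4 := h2 a b h3.1.1 h3.1.2.1 h3.1.2.2 h3.2
    exact ⟨a, b, h3.1, ⟨fun t ht => h3.1.1 t (h4.1 t ht), h4.2⟩, hab⟩
  · obtain ⟨w, hw, hw2⟩ := h1 z hz.1 hz.2.1 hz.2.2
    exact ⟨w, (hrel z w).2 ⟨hz, hw⟩, fun w' hw' => hw2 w' ((hrel z w').1 hw').2⟩
  · have h3 := (hrel z w).1 hzw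
    exact (h2 z w h3.1.1 h3.1.2.1 h3.1.2.2 h3.2).1

omit hZ in
/-- cardinalities of coded finite sets -/
lemma hasCard_iff {z : M} {m : ℕ} : HasCard E z m ↔ {t | E t z}.ncard = m ∧ {t | E t z}.Finite := by
  constructor
  · rintro ⟨v, hv, hvz⟩
    have e : {t | E t z} = Set.range v := by
      ext t
      rw [mem_ofPred_eq, hvz]
      constructor
      · rintro ⟨i, rfl⟩; exact ⟨i, rfl⟩
      · rintro ⟨i, rfl⟩; exact ⟨i, rfl⟩
    rw [e]
    refine ⟨?_, Set.finite_range v⟩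
    rw [← Set.image_univ, Set.ncard_image_of_injective _ hv, Set.ncard_univ, Nat.card_fin]
  · rintro ⟨h1, h2⟩
    have hfin : Finite {t | E t z} := h2
    have hcard : Nat.card {t | E t z} = m := h1
    let e := Finite.equivFinOfCardEq hcard
    refine ⟨fun i => (e.symm i : M), fun i j hij => e.symm.injective (Subtype.ext hij),
      fun t => ?_⟩
    constructor
    · intro ht
      exact ⟨e ⟨t, ht⟩, by simp⟩
    · rintro ⟨i, rfl⟩
      exact (e.symm i).2

omit hZ in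
lemma moreThan_iff {z : M} {n : ℕ} (hfin : {t | E t z}.Finite) :
    MoreThan E n z ↔ n < {t | E t z}.ncard := by
  constructor
  · rintro ⟨v, hv, hvz⟩
    have h1 : Set.range v ⊆ {t | E t z} := by rintro _ ⟨i, rfl⟩; exact hvz i
    have h2 := Set.ncard_le_ncard h1 hfin
    rw [← Set.image_univ, Set.ncard_image_of_injective _ hv, Set.ncard_univ, Nat.card_fin] at h2
    omega
  · intro h
    obtain ⟨s, hs1, hs2⟩ := Set.exists_subset_card_eq (Nat.succ_le_of_lt h)
    have hsf : Finite s := hfin.subset hs1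
    have hcard : Nat.card s = n + 1 := hs2
    let e := Finite.equivFinOfCardEq hcard
    exact ⟨fun i => (e.symm i : M), fun i j hij => e.symm.injective (Subtype.ext hij),
      fun i => hs1 (e.symm i).2⟩

end

end Pool.Agent.Lib.SymZF
end

section

set_option autoImplicit false

open Set

namespace Pool.Agent.Lib.SymZF

section ext

variable {M : Type}

/-- least elements -/
lemma exists_least {r : M → M → Prop} (Z : Set M) (hZ : Z.Finite) :
    (∀ a ∈ Z, ∀ b ∈ Z, ∀ c ∈ Z, r a b → r b c → r a c) →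
    (∀ a ∈ Z, ∀ b ∈ Z, a ≠ b → r a b ∨ r b a) → Z.Nonempty →
    ∃ m ∈ Z, ∀ b ∈ Z, b ≠ m → r m b := by
  induction Z, hZ using Set.Finite.induction_on with
  | empty => intro _ _ h; exact absurd h (by simp)
  | @insert a s ha _ ih =>
    intro htr htot _
    by_cases hs : s.Nonempty
    · obtain ⟨m, hm, hm2⟩ := ih
        (fun a ha b hb c hc => htr a (Or.inr ha) b (Or.inr hb) c (Or.inr hc))
        (fun a ha b hb => htot a (Or.inr ha) b (Or.inr hb)) hs
      have ham : a ≠ m := fun h => ha (h ▸ hm)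
      rcases htot a (Or.inl rfl) m (Or.inr hm) ham with h | h
      · refine ⟨a, Or.inl rfl, fun b hb hba => ?_⟩
        rcases hb with rfl | hb
        · exact (hba rfl).elim
        · by_cases hbm : b = m
          · rw [hbm]; exact h
          · exact htr a (Or.inl rfl) m (Or.inr hm) b (Or.inr hb) h (hm2 b hb hbm)
      · refine ⟨m, Or.inr hm, fun b hb hbm => ?_⟩
        rcases hb with rfl | hb
        · exact h
        · exact hm2 b hb hbm
    · rw [Set.not_nonempty_iff_eq_empty] at hs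
      subst hs
      exact ⟨a, Or.inl rfl, fun b hb hba => (hba (by simpa using hb)).elim⟩

/-- initial segments -/
lemma exists_initial {r : M → M → Prop} (Z : Set M) (hZ : Z.Finite)
    (htr : ∀ a ∈ Z, ∀ b ∈ Z, ∀ c ∈ Z, r a b → r b c → r a c)
    (htot : ∀ a ∈ Z, ∀ b ∈ Z, a ≠ b → r a b ∨ r b a) (n : ℕ) (hn : n ≤ Z.ncard) :
    ∃ W ⊆ Z, W.ncard = n ∧ ∀ a ∈ W, ∀ b ∈ Z, b ∉ W → r a b := by
  induction n with
  | zero => exact ⟨∅, Set.empty_subset _, Set.ncard_empty _, fun a ha => ha.elim⟩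
  | succ n ih =>
    obtain ⟨W, hWZ, hW, hW2⟩ := ih (by omega)
    have hne : (Z \ W).Nonempty := by
      rw [Set.nonempty_iff_ne_empty]
      intro h
      have h1 : Z ⊆ W := Set.diff_eq_empty.1 h
      have h2 := Set.ncard_le_ncard h1 (hZ.subset hWZ)
      omega
    obtain ⟨m, hm, hm2⟩ := exists_least (r := r) (Z \ W) (hZ.subset Set.diff_subset)
      (fun a ha b hb c hc => htr a ha.1 b hb.1 c hc.1)
      (fun a ha b hb => htot a ha.1 b hb.1) hne
    refine ⟨insert m W, Set.insert_subset hm.1 hWZ, ?_, ?_⟩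
    · rw [Set.ncard_insert_of_notMem hm.2 (hZ.subset hWZ), hW]
    · intro a ha b hb hbW
      rw [Set.mem_insert_iff, not_or] at hbW
      rcases ha with rfl | ha
      · exact hm2 b ⟨hb, hbW.2⟩ hbW.1
      · exact hW2 a ha b hb hbW.2

end ext

section

variable {M : Type} {E : M → M → Prop} (hZ : IsZF E) (hω : OmegaStd E)
include hZ hω

/-- A linearly ordered set has a choice function for finite subsets. -/
theorem chf_of_linear (n : ℕ) (y L : M) (hirr : ∀ a, E a y → ¬ Rel E L a a)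
    (htr : ∀ a b c, E a y → E b y → E c y → Rel E L a b → Rel E L b c → Rel E L a c)
    (htot : ∀ a b, E a y → E b y → a ≠ b → Rel E L a b ∨ Rel E L b a) :
    ∃ f, ChF E n y f := by
  have hdef : Def (fun E v => Sub E (v 0) (v 1) ∧ HasCard E (v 0) n ∧
      ∀ a, E a (v 0) → ∀ b, E b (v 1) → ¬ E b (v 0) → Rel E (v 2) a b) :=
    Def.and (Def.sub _ _) (Def.and (Def.hasCard _ _)
      (Def.all (R := fun E v => E (v 0) (v 1) → ∀ b, E b (v 2) → ¬ E b (v 1) →
        Rel E (v 3) (v 0) b) (Def.imp (Def.mem _ _)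
        (Def.all (R := fun E v => E (v 0) (v 3) → ¬ E (v 0) (v 2) → Rel E (v 4) (v 1) (v 0))
          (Def.imp (Def.mem _ _) (Def.imp (Def.not (Def.mem _ _)) (Def.rel _ _ _)))))))
  refine chf_of_graph hZ hdef (fun _ => L) n y ?_ ?_
  · intro z hzy hz hzn
    have hfin := finite_of_isFin hZ hω hz
    rw [moreThan_iff hfin] at hzn
    obtain ⟨W, hWZ, hW, hW2⟩ := exists_initial (r := Rel E L) {t | E t z} hfin
      (fun a ha b hb c hc => htr a b c (hzy a ha) (hzy b hb) (hzy c hc))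
      (fun a ha b hb => htot a b (hzy a ha) (hzy b hb)) n hzn.le
    obtain ⟨w, hw⟩ := finite_ex hZ (hfin.subset hWZ)
    have hwW : {t | E t w} = W := by ext t; exact hw t
    refine ⟨w, ⟨fun t ht => hWZ ((hw t).1 ht), ?_, ?_⟩, ?_⟩
    · change HasCard E w n
      rw [hasCard_iff, hwW]
      exact ⟨hW, hfin.subset hWZ⟩
    · intro a ha b hb hbw
      exact hW2 a ((hw a).1 ha) b hb (fun h => hbw ((hw b).2 h))
    · rintro w' ⟨hw'1, hw'2, hw'3⟩
      simp only [scons_zero, scons_one, scons_two, scons_succ] at hw'1 hw'2 hw'3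
      rw [hasCard_iff] at hw'2
      -- equality of the two initial segments
      have hsub : {t | E t w'} ⊆ W := by
        intro a ha
        by_contra haW
        have hex : ∃ b ∈ W, ¬ E b w' := by
          by_contra hcon
          push Not at hcon
          have h1 : W ⊆ {t | E t w'} := hcon
          have h2 := Set.eq_of_subset_of_ncard_le h1 (by rw [hw'2.1, hW]) hw'2.2
          rw [h2] at haW
          exact haW ha
        obtain ⟨b, hb, hbw'⟩ := hex
        have e1 := hw'3 a ha b (hWZ hb) hbw'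
        have e2 := hW2 b hb a (hw'1 a ha) haW
        exact hirr a (hzy a (hw'1 a ha))
          (htr a b a (hzy a (hw'1 a ha)) (hzy b (hWZ hb)) (hzy a (hw'1 a ha)) e1 e2)
      have heq : {t | E t w'} = W := Set.eq_of_subset_of_ncard_le hsub
        (by rw [hw'2.1, hW]) (hfin.subset hWZ)
      apply hZ.ext
      intro t
      rw [hw t, ← heq]
      rfl
  · rintro z w _ _ _ ⟨h1, h2, _⟩
    exact ⟨h1, h2⟩

/-- A set injected into the reals has a linear order. -/
theorem linear_of_reals (w y h : M) (hw : IsOmega E w) (hfun : ∀ a, E a y → ∃! b, Rel E h a b)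
    (hinj : ∀ a a' b, E a y → E a' y → Rel E h a b → Rel E h a' b → a = a')
    (hval : ∀ a b, E a y → Rel E h a b → Sub E b w) :
    ∃ L, (∀ a, E a y → ¬ Rel E L a a) ∧
      (∀ a b c, E a y → E b y → E c y → Rel E L a b → Rel E L b c → Rel E L a c) ∧
      (∀ a b, E a y → E b y → a ≠ b → Rel E L a b ∨ Rel E L b a) := by
  have hdef : Def (fun E v => ∃ s s' k, Rel E (v 2) (v 1) s ∧ Rel E (v 2) (v 0) s' ∧ E k (v 3) ∧
      E k s' ∧ ¬ E k s ∧ ∀ j, E j k → (E j s ↔ E j s')) :=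
    Def.ex (R := fun E v => ∃ s' k, Rel E (v 3) (v 2) (v 0) ∧ Rel E (v 3) (v 1) s' ∧ E k (v 4) ∧
      E k s' ∧ ¬ E k (v 0) ∧ ∀ j, E j k → (E j (v 0) ↔ E j s'))
      (Def.ex (R := fun E v => ∃ k, Rel E (v 4) (v 3) (v 1) ∧ Rel E (v 4) (v 2) (v 0) ∧
        E k (v 5) ∧ E k (v 0) ∧ ¬ E k (v 1) ∧ ∀ j, E j k → (E j (v 1) ↔ E j (v 0)))
        (Def.ex (R := fun E v => Rel E (v 5) (v 4) (v 2) ∧ Rel E (v 5) (v 3) (v 1) ∧
          E (v 0) (v 6) ∧ E (v 0) (v 1) ∧ ¬ E (v 0) (v 2) ∧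
            ∀ j, E j (v 0) → (E j (v 2) ↔ E j (v 1)))
          (Def.and (Def.rel _ _ _) (Def.and (Def.rel _ _ _) (Def.and (Def.mem _ _)
            (Def.and (Def.mem _ _) (Def.and (Def.not (Def.mem _ _))
            (Def.all (R := fun E v => E (v 0) (v 1) → (E (v 0) (v 3) ↔ E (v 0) (v 2)))
              (Def.imp (Def.mem _ _) (Def.iff (Def.mem _ _) (Def.mem _ _)))))))))))
  obtain ⟨L, _, hL⟩ := rel_of_graph hZ hdef (scons h (scons w (fun _ => w))) y y
  -- characters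
  choose! b hb hbu using hfun
  have hch : ∃ ch : M → Set ℕ, ∀ s m, m ∈ ch s ↔ ∃ k, IsNum E m k ∧ E k s :=
    ⟨fun s => {m | ∃ k, IsNum E m k ∧ E k s}, fun s m => Iff.rfl⟩
  obtain ⟨ch, hch⟩ := hch
  have hmem : ∀ s m k, IsNum E m k → (m ∈ ch s ↔ E k s) := by
    intro s m k hk
    rw [hch]
    constructor
    · rintro ⟨k', hk', h⟩
      rw [num_unique hZ hk hk']; exact h
    · exact fun h => ⟨k, hk, h⟩
  have hrel : ∀ a a', E a y → E a' y → (Rel E L a a' ↔ ∃ m, m ∈ ch (b a') ∧ m ∉ ch (b a) ∧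
      ∀ j < m, (j ∈ ch (b a) ↔ j ∈ ch (b a'))) := by
    intro a a' ha ha'
    rw [hL]
    constructor
    · rintro ⟨_, _, s, s', k, h1, h2, h3, h4, h5, h6⟩
      have e1 : s = b a := hbu a ha s h1
      have e2 : s' = b a' := hbu a' ha' s' h2
      subst e1 e2
      obtain ⟨m, hm⟩ := hω w k hw h3
      refine ⟨m, (hmem _ m k hm).2 h4, fun h => h5 ((hmem _ m k hm).1 h), fun j hj => ?_⟩
      obtain ⟨l, hl⟩ := num_ex hZ j
      rw [hmem _ j l hl, hmem _ j l hl]
      exact h6 l ((num_mem_num hZ hl hm).2 hj)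
    · rintro ⟨m, h1, h2, h3⟩
      obtain ⟨k, hk⟩ := num_ex hZ m
      refine ⟨ha, ha', b a, b a', k, hb a ha, hb a' ha', num_mem_omega hZ hw hk,
        (hmem _ m k hk).1 h1, fun h => h2 ((hmem _ m k hk).2 h), fun j hj => ?_⟩
      obtain ⟨l, hl, hjl⟩ := (mem_num_iff hZ hk j).1 hj
      rw [← hmem _ l j hjl, ← hmem _ l j hjl]
      exact h3 l hl
  have hchinj : ∀ a a', E a y → E a' y → ch (b a) = ch (b a') → a = a' := by
    intro a a' ha ha' h
    have h1 : b a = b a' := by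
      apply hZ.ext
      have key : ∀ a a', E a y → E a' y → ch (b a) = ch (b a') → ∀ z, E z (b a) →
          E z (b a') := by
        intro a a' ha ha' h z hz
        obtain ⟨m, hm⟩ := hω w z hw (hval a _ ha (hb a ha) z hz)
        rw [← hmem _ m z hm, ← h, hmem _ m z hm]
        exact hz
      exact fun z => ⟨key a a' ha ha' h z, key a' a ha' ha h.symm z⟩
    have h2 := hb a' ha'
    rw [← h1] at h2
    exact hinj a a' _ ha ha' (hb a ha) h2
  refine ⟨L, ?_, ?_, ?_⟩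
  · intro a ha h
    obtain ⟨m, h1, h2, _⟩ := (hrel a a ha ha).1 h
    exact h2 h1
  · intro a c d ha hc hd h1 h2
    obtain ⟨m, p1, p2, p3⟩ := (hrel a c ha hc).1 h1
    obtain ⟨l, q1, q2, q3⟩ := (hrel c d hc hd).1 h2
    rw [hrel a d ha hd]
    rcases lt_trichotomy m l with h | h | h
    · exact ⟨m, (q3 m h).1 p1, p2, fun j hj => (p3 j hj).trans (q3 j (hj.trans h))⟩
    · subst h; exact (q2 p1).elim
    · exact ⟨l, q1, fun h' => q2 ((p3 l h).1 h'), fun j hj =>
        (p3 j (hj.trans h)).trans (q3 j hj)⟩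
  · intro a c ha hc hac
    have hne : ch (b a) ≠ ch (b c) := fun h => hac (hchinj a c ha hc h)
    classical
    have hex : ∃ m, ¬ (m ∈ ch (b a) ↔ m ∈ ch (b c)) := by
      by_contra hcon
      push Not at hcon
      exact hne (Set.ext hcon)
    have h1 := Nat.find_spec hex
    have h2 : ∀ j < Nat.find hex, (j ∈ ch (b a) ↔ j ∈ ch (b c)) := fun j hj => by
      by_contra h; exact Nat.find_min hex hj h
    rw [hrel a c ha hc, hrel c a hc ha]
    by_cases h3 : Nat.find hex ∈ ch (b a)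
    · right
      refine ⟨_, h3, fun h4 => h1 ⟨fun _ => h4, fun _ => h3⟩, fun j hj => (h2 j hj).symm⟩
    · left
      refine ⟨_, ?_, h3, h2⟩
      by_contra h4
      exact h1 ⟨fun h => (h3 h).elim, fun h => (h4 h).elim⟩

/-- Pulling back a choice function along an injection. -/
theorem chf_pullback (n : ℕ) (y h x₀ f₀ : M) (hfun : ∀ a, E a y → ∃! b, Rel E h a b)
    (hinj : ∀ a a' b, E a y → E a' y → Rel E h a b → Rel E h a' b → a = a')
    (hval : ∀ a b, E a y → Rel E h a b → E b x₀) (hf : ChF E n x₀ f₀) :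
    ∃ f, ChF E n y f := by
  have hdef : Def (fun E v => ∃ z₀ w₀, (∀ b, E b z₀ ↔ ∃ u, E u (v 1) ∧ Rel E (v 2) u b) ∧
      Rel E (v 3) z₀ w₀ ∧ ∀ u, E u (v 0) ↔ E u (v 1) ∧ ∃ b, Rel E (v 2) u b ∧ E b w₀) :=
    Def.ex (R := fun E v => ∃ w₀, (∀ b, E b (v 0) ↔ ∃ u, E u (v 2) ∧ Rel E (v 3) u b) ∧
      Rel E (v 4) (v 0) w₀ ∧ ∀ u, E u (v 1) ↔ E u (v 2) ∧ ∃ b, Rel E (v 3) u b ∧ E b w₀)
      (Def.ex (R := fun E v => (∀ b, E b (v 1) ↔ ∃ u, E u (v 3) ∧ Rel E (v 4) u b) ∧
        Rel E (v 5) (v 1) (v 0) ∧ ∀ u, E u (v 2) ↔ E u (v 3) ∧ ∃ b, Rel E (v 4) u b ∧ E b (v 0))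
        (Def.and
          (Def.all (R := fun E v => E (v 0) (v 2) ↔ ∃ u, E u (v 4) ∧ Rel E (v 5) u (v 0))
            (Def.iff (Def.mem _ _)
              (Def.ex (R := fun E v => E (v 0) (v 5) ∧ Rel E (v 6) (v 0) (v 1))
                (Def.and (Def.mem _ _) (Def.rel _ _ _)))))
          (Def.and (Def.rel _ _ _)
            (Def.all (R := fun E v => E (v 0) (v 3) ↔ E (v 0) (v 4) ∧
              ∃ b, Rel E (v 5) (v 0) b ∧ E b (v 1))
              (Def.iff (Def.mem _ _) (Def.and (Def.mem _ _)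
                (Def.ex (R := fun E v => Rel E (v 6) (v 1) (v 0) ∧ E (v 0) (v 2))
                  (Def.and (Def.rel _ _ _) (Def.mem _ _)))))))))
  choose! b hb hbu using hfun
  have hbinj : ∀ a a', E a y → E a' y → b a = b a' → a = a' := by
    intro a a' ha ha' h
    have h2 := hb a' ha'
    rw [← h] at h2
    exact hinj a a' _ ha ha' (hb a ha) h2
  -- the values
  have key : ∀ z, Sub E z y → IsFin E z → MoreThan E n z → ∃ z₀ w₀,
      (∀ c, E c z₀ ↔ ∃ u, E u z ∧ Rel E h u c) ∧ Rel E f₀ z₀ w₀ ∧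
      (∀ z₁ w₁, (∀ c, E c z₁ ↔ ∃ u, E u z ∧ Rel E h u c) → Rel E f₀ z₁ w₁ →
        z₁ = z₀ ∧ w₁ = w₀) ∧
      {t | E t z ∧ ∃ c, Rel E h t c ∧ E c w₀}.ncard = n := by
    intro z hzy hz hzn
    have hfin := finite_of_isFin hZ hω hz
    have hn := (moreThan_iff hfin).1 hzn
    obtain ⟨z₀, hz₀⟩ := finite_ex hZ (hfin.image b)
    have hz₀' : ∀ c, E c z₀ ↔ ∃ u, E u z ∧ Rel E h u c := by
      intro c
      rw [hz₀]
      constructor
      · rintro ⟨u, hu, rfl⟩
        exact ⟨u, hu, hb u (hzy u hu)⟩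
      · rintro ⟨u, hu, hc⟩
        exact ⟨u, hu, (hbu u (hzy u hu) c hc).symm⟩
    have hbz : Set.InjOn b {t | E t z} := fun a ha a' ha' h =>
      hbinj a a' (hzy a ha) (hzy a' ha') h
    have e0 : {t | E t z₀} = b '' {t | E t z} := by ext t; exact hz₀ t
    have hD : Sub E z₀ x₀ ∧ IsFin E z₀ ∧ MoreThan E n z₀ := by
      refine ⟨?_, ?_, ?_⟩
      · intro c hc
        obtain ⟨u, hu, hc⟩ := (hz₀' c).1 hc
        exact hval u c (hzy u hu) hc
      · apply isFin_of_finite hZ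
        rw [e0]; exact hfin.image b
      · rw [moreThan_iff (by rw [e0]; exact hfin.image b), e0, Set.ncard_image_of_injOn hbz]
        exact hn
    obtain ⟨w₀, hw₀, hw₀u⟩ := hf.1.2 z₀ hD
    have hsub := hf.2 z₀ w₀ hw₀
    have hcard : HasCard E w₀ n := by
      obtain ⟨p, hp, hpf⟩ := hw₀
      obtain ⟨a, c, _, hc, hp'⟩ := hf.1.1 p hpf
      obtain ⟨_, rfl⟩ := opair_inj hp hp'
      exact hc.2
    refine ⟨z₀, w₀, hz₀', hw₀, ?_, ?_⟩
    · intro z₁ w₁ hz₁ hw₁
      have e1 : z₁ = z₀ := hZ.ext _ _ fun c => by rw [hz₁, hz₀']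
      subst e1
      exact ⟨rfl, hw₀u w₁ hw₁⟩
    · have e1 : {t | E t w₀} = b '' {t | E t z ∧ ∃ c, Rel E h t c ∧ E c w₀} := by
        ext c
        constructor
        · intro hc
          obtain ⟨u, hu, huc⟩ := (hz₀' c).1 (hsub c hc)
          refine ⟨u, ⟨hu, c, huc, hc⟩, (hbu u (hzy u hu) c huc).symm⟩
        · rintro ⟨u, ⟨hu, c', hc', hcw⟩, rfl⟩
          rw [hbu u (hzy u hu) c' hc'] at hcw
          exact hcw
      have h1 := (hasCard_iff.1 hcard).1
      rw [e1, Set.ncard_image_of_injOn (hbz.mono fun t ht => ht.1)] at h1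
      exact h1
  refine chf_of_graph hZ hdef (scons h (fun _ => f₀)) n y ?_ ?_
  · intro z hzy hz hzn
    obtain ⟨z₀, w₀, k1, k2, k3, k4⟩ := key z hzy hz hzn
    have hfin := finite_of_isFin hZ hω hz
    obtain ⟨w, hw⟩ := finite_ex hZ (hfin.subset (fun t (ht : E t z ∧ ∃ c, Rel E h t c ∧ E c w₀) =>
      ht.1) : {t | E t z ∧ ∃ c, Rel E h t c ∧ E c w₀}.Finite)
    refine ⟨w, ⟨z₀, w₀, k1, k2, hw⟩, ?_⟩
    rintro w' ⟨z₁, w₁, l1, l2, l3⟩
    obtain ⟨rfl, rfl⟩ := k3 z₁ w₁ l1 l2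
    apply hZ.ext
    intro t
    rw [hw t]
    exact l3 t
  · rintro z w hzy hz hzn ⟨z₁, w₁, l1, l2, l3⟩
    simp only [scons_zero, scons_one] at l3
    obtain ⟨z₀, w₀, k1, k2, k3, k4⟩ := key z hzy hz hzn
    obtain ⟨rfl, rfl⟩ := k3 z₁ w₁ l1 l2
    have hfin := finite_of_isFin hZ hω hz
    have e1 : {t | E t w} = {t | E t z ∧ ∃ c, Rel E h t c ∧ E c w₁} := by
      ext t; exact l3 t
    refine ⟨fun t ht => ((l3 t).1 ht).1, ?_⟩
    rw [hasCard_iff, e1]
    exact ⟨k4, hfin.subset fun t ht => ht.1⟩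

end

end Pool.Agent.Lib.SymZF
end
end

section

section

set_option autoImplicit false

open Set

namespace Pool.Agent.Lib.MP_f9fa2e_lc

open Pool.Agent.Lib.SymZF SymSys FactSys

/-- the dense set -/
noncomputable abbrev DD : DSub Rs.S := Qs.dsub

lemma rel_def : Def (fun E v => Rel E (v 0) (v 1) (v 2)) := Def.rel 0 1 2

/-- the formula for `Rel` -/
noncomputable def relFml : Fml := rel_def.choose

lemma relFml_spec {M : Type} (E : M → M → Prop) (v : ℕ → M) :
    Sat E relFml v ↔ Rel E (v 0) (v 1) (v 2) := rel_def.choose_spec M E v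

/-- Boolean value of `(x, y) ∈ f` -/
noncomputable def brel (f x y : Nm) : BB := bval relFml (scons f (scons x (fun _ => y)))

lemma brel_sm (g : Gr) (f x y f' x' y' : Nm) (hf : (sm g f).eq f' = ⊤) (hx : (sm g x).eq x' = ⊤)
    (hy : (sm g y).eq y' = ⊤) : brel f' x' y' = al g (brel f x y) := by
  refine bval_smul (S := Rs.S) g relFml _ _ fun i _ => ?_
  rcases i with _ | _ | i
  · exact hf
  · exact hx
  · exact hy

lemma has3 {N : Names DD} {f x y : Nm} (hf : N.has f) (hx : N.has x) (hy : N.has y) (i : ℕ) :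
    N.has (scons f (scons x (fun _ => y)) i) := by
  rcases i with _ | _ | i
  · exact hf
  · exact hx
  · exact hy

lemma brel_truth {N : Names DD} {G : Gen N} {f x y : Nm} (hf : N.has f) (hx : N.has x)
    (hy : N.has y) : Rel G.E (G.ev f) (G.ev x) (G.ev y) ↔ brel f x y ∈ G.U := by
  rw [brel, ← Gen.truth' relFml _ (has3 hf hx hy), relFml_spec]
  rfl

lemma mem_le_brel (f x y : Nm) : (x.opair y).mem f ≤ brel f x y := by
  by_contra hcon
  rw [← disjoint_compl_right_iff, disjoint_iff] at hcon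
  obtain ⟨p, hp⟩ := DD.dense _ hcon
  obtain ⟨N, hN⟩ := exists_names_fam DD (J := Fin 3) ![f, x, y]
  obtain ⟨G, hpU, _⟩ := exists_gen N (fun _ => ∅) p
  have hf : N.has f := hN 0
  have hx : N.has x := hN 1
  have hy : N.has y := hN 2
  have hU := G.up hpU hp
  have h1 : (x.opair y).mem f ∈ G.U := G.up hU inf_le_left
  have h2 : Rel G.E (G.ev f) (G.ev x) (G.ev y) :=
    ⟨_, Gen.isOPair_ev hx hy, (Gen.E_ev (Names.has_opair hx hy) hf).2 h1⟩
  rw [brel_truth hf hx hy] at h2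
  exact G.compl_mem h2 (G.up hU inf_le_right)

/-- Goodness of a countable set of names. -/
structure GoodN (N : Names DD) : Prop where
  xt : ∀ t, N.has (xt t)
  stF : ∀ w, N.has (stF w)
  stU : N.has stU
  cn : N.has cn
  can : ∀ s q σ, N.has σ → N.has (can s q σ)
  Ln : ∀ s σ, N.has σ → N.has (Ln s σ)
  Rn : ∀ s t p σ, N.has σ → N.has (Rn s t p σ)

theorem exists_goodN : ∃ N : Names DD, GoodN N := by
  let c : Pt ⊕ Finset ℕ ⊕ Unit ⊕ Unit → Nm := fun j => match j with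
    | .inl t => xt t
    | .inr (.inl w) => stF w
    | .inr (.inr (.inl _)) => stU
    | .inr (.inr (.inr _)) => cn
  let Γ : (Finset Pt × PP) ⊕ Finset Pt ⊕ (Finset Pt × Pt × PP) → Nm → Nm := fun k σ => match k with
    | .inl x => can x.1 x.2 σ
    | .inr (.inl s) => Ln s σ
    | .inr (.inr x) => Rn x.1 x.2.1 x.2.2 σ
  have hP : Countable PP := inferInstanceAs (Countable Qs.P)
  obtain ⟨N, h1, h2⟩ := exists_names_ops DD c Γ
  exact ⟨N, fun t => h1 (.inl t), fun w => h1 (.inr (.inl w)), h1 (.inr (.inr (.inl ()))),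
    h1 (.inr (.inr (.inr ()))), fun s q σ hσ => h2 (.inl (s, q)) σ hσ,
    fun s σ hσ => h2 (.inr (.inl s)) σ hσ, fun s t p σ hσ => h2 (.inr (.inr (s, t, p))) σ hσ⟩

/-- the statement that the value of `φ` on the set coded by `z` is in that set -/
noncomputable def chi (η φ : Nm) (z : Fin 11 ↪ ℕ) : BB :=
  (⨅ i, (xt (.inl (z i))).mem η) ⇨ ⨆ i, brel φ (stF (Finset.univ.map z)) (xt (.inl (z i)))

/-- Goodness of a generic filter. -/
structure GoodG {N : Names DD} (G : Gen N) : Prop where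
  gi : ∀ τ, N.has τ → ∀ s, (∃ ρ, Inv s ρ ∧ τ.eq ρ ∈ G.U) ∨ (inval s τ)ᶜ ∈ G.U
  gii : ∀ τ ξ, N.has τ → N.has ξ → ∀ s, (∃ i : LI s ξ, lv s ξ τ i ∈ G.U) ∨
    (⨆ i : LI s ξ, lv s ξ τ i)ᶜ ∈ G.U
  giii : ∀ (s' : Finset Pt) (t0 : Pt) (p : PP) (B : Finset Pt),
    (∃ h ∈ H s', gp h t0 ∉ B ∧ ebb (ac h p) ∈ G.U) ∨
    (⨆ h : {h : Gr // h ∈ H s' ∧ gp h t0 ∉ B}, ebb (ac h.1 p))ᶜ ∈ G.U
  giv : ∀ w : Finset ℕ, (∃ x : CF, x.1.1 = w ∧ fct (.inr x) ∈ G.U) ∨
    (⨆ x : {x : CF // x.1.1 = w}, fct (.inr x.1))ᶜ ∈ G.U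
  gv : ∀ η φ, N.has η → N.has φ → (∃ z, (chi η φ z)ᶜ ∈ G.U) ∨
    (⨆ z, (chi η φ z)ᶜ)ᶜ ∈ G.U

theorem exists_goodG (N : Names DD) (p₀ : PP) : ∃ G : Gen N, GoodG G ∧ ebb p₀ ∈ G.U := by
  have hP : Countable PP := inferInstanceAs (Countable Qs.P)
  let Fm : (ℕ × Finset Pt) ⊕ (ℕ × ℕ × Finset Pt) ⊕ (Finset Pt × Pt × PP × Finset Pt) ⊕
      (Finset ℕ) ⊕ (ℕ × ℕ) → Set BB := fun j => match j with
    | .inl x => range fun ρ : {ρ : Nm // Inv x.2 ρ} => (N.ν x.1 : Nm).eq ρ.1
    | .inr (.inl x) => range fun i : LI x.2.2 (N.ν x.2.1) => lv x.2.2 (N.ν x.2.1) (N.ν x.1) i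
    | .inr (.inr (.inl x)) =>
      range fun h : {h : Gr // h ∈ H x.1 ∧ gp h x.2.1 ∉ x.2.2.2} => ebb (ac h.1 x.2.2.1)
    | .inr (.inr (.inr (.inl w))) => range fun x : {x : CF // x.1.1 = w} => fct (.inr x.1)
    | .inr (.inr (.inr (.inr x))) => range fun z => (chi (N.ν x.1) (N.ν x.2) z)ᶜ
  obtain ⟨G, hp, hG⟩ := exists_gen_fam N Fm p₀
  refine ⟨G, ⟨?_, ?_, ?_, ?_, ?_⟩, hp⟩
  · rintro τ ⟨j, rfl⟩ s
    rcases hG (.inl (j, s)) with ⟨b, ⟨ρ, rfl⟩, hb⟩ | h
    · exact Or.inl ⟨ρ.1, ρ.2, hb⟩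
    · right
      simp only [Fm, sSup_range] at h
      exact h
  · rintro τ ξ ⟨j, rfl⟩ ⟨l, rfl⟩ s
    rcases hG (.inr (.inl (j, l, s))) with ⟨b, ⟨i, rfl⟩, hb⟩ | h
    · exact Or.inl ⟨i, hb⟩
    · right
      simp only [Fm, sSup_range] at h
      exact h
  · intro s' t0 p B
    rcases hG (.inr (.inr (.inl (s', t0, p, B)))) with ⟨b, ⟨h, rfl⟩, hb⟩ | h
    · exact Or.inl ⟨h.1, h.2.1, h.2.2, hb⟩
    · right
      simp only [Fm, sSup_range] at h
      exact h
  · intro w
    rcases hG (.inr (.inr (.inr (.inl w)))) with ⟨b, ⟨x, rfl⟩, hb⟩ | h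
    · exact Or.inl ⟨x.1, x.2, hb⟩
    · right
      simp only [Fm, sSup_range] at h
      exact h
  · rintro η φ ⟨j, rfl⟩ ⟨l, rfl⟩
    rcases hG (.inr (.inr (.inr (.inr (j, l))))) with ⟨b, ⟨z, rfl⟩, hb⟩ | h
    · exact Or.inl ⟨z, hb⟩
    · right
      simp only [Fm, sSup_range] at h
      exact h

/-- density: copies avoiding a finite set -/
lemma le_copies (s' : Finset Pt) (hs' : Closed s') (t0 : Pt) (h0 : t0 ∉ s') (p : PP)
    (B : Finset Pt) :
    ebb p ≤ ⨆ h : {h : Gr // h ∈ H s' ∧ gp h t0 ∉ B}, ebb (ac h.1 p) := by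
  classical
  refine le_of_forall (Q := Qs) fun q hq => ?_
  obtain ⟨r, hr1, hr2⟩ := exists_le_of_eb_le (Q := Qs) hq
  obtain ⟨h, hh, hf⟩ := fresh s' hs' (insert t0 (carP p)) (carP r ∪ B)
  have hc : Compat r (ac h p) := by
    intro x hx y hy hxy
    obtain ⟨z, hz, rfl⟩ := (mem_ac h p y).1 hy
    have hcar : car x = car (fa h z) := car_of_key hxy
    have hsub : car z ⊆ s' := by
      intro t ht
      by_contra hts
      apply hf t (Finset.mem_insert_of_mem (car_subset hz ht)) hts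
      apply Finset.mem_union_left
      apply car_subset hx
      rw [hcar]
      exact (mem_car_fa h z t).2 ht
    have hfix : fa h z = z := fa_fix h z fun t ht => hh t (hsub ht)
    rw [hfix] at hxy ⊢
    exact r.inj x hx z (hr2 hz) hxy
  obtain ⟨u, hu1, hu2, _⟩ := exists_union hc
  refine ⟨u, hu1.trans hr1, ?_⟩
  refine le_trans (eb_mono hu2) (le_iSup (fun h : {h : Gr // h ∈ H s' ∧ gp h t0 ∉ B} =>
    ebb (ac h.1 p)) ⟨h, hh, ?_⟩)
  exact fun hB => hf t0 (Finset.mem_insert_self _ _) h0 (Finset.mem_union_right _ hB)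

/-- density: the generic choice function is total -/
lemma top_le_choices (w : Finset ℕ) (hw : 8 < w.card) :
    ⊤ ≤ ⨆ x : {x : CF // x.1.1 = w}, fct (.inr x.1) := by
  classical
  refine le_of_forall (Q := Qs) fun q _ => ?_
  by_cases h : ∃ y ∈ q.s, key y = .inr w
  · obtain ⟨y, hy, hyw⟩ := h
    rcases y with y | y
    · simp [key] at hyw
    · rw [key, Sum.inr.injEq] at hyw
      exact ⟨q, le_rfl, le_trans (eb_le_fact (Q := Qs) hy)
        (le_iSup (fun x : {x : CF // x.1.1 = w} => fct (.inr x.1)) ⟨y, hyw⟩)⟩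
  · push Not at h
    obtain ⟨v, hv1, hv2⟩ := Finset.exists_subset_card_eq hw.le
    obtain ⟨r, hr1, hr2, _⟩ := RealSys.exists_add Qs q (.inr ⟨(w, v), hw, hv1, hv2⟩) h
    exact ⟨r, hr1, le_trans (eb_le_fact (Q := Qs) hr2)
      (le_iSup (fun x : {x : CF // x.1.1 = w} => fct (.inr x.1)) ⟨⟨(w, v), hw, hv1, hv2⟩, rfl⟩)⟩

/-- the least index principle -/
lemma le_lv (s : Finset Pt) (ξ τ : Nm) (i : LI s ξ) :
    τ.eq (lrho s ξ i) ≤ ⨆ j : LI s ξ, lv s ξ τ j := by
  induction i using WellFounded.induction (IsWellFounded.wf (r := WellOrderingRel)) with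
  | h i ih =>
    have h1 : τ.eq (lrho s ξ i) ≤ lv s ξ τ i ⊔
        ⨆ j : {j : LI s ξ // WellOrderingRel j i}, τ.eq (lrho s ξ j.1) := by
      unfold lv
      rw [sup_inf_right, compl_sup_eq_top, inf_top_eq]
      exact le_sup_left
    refine h1.trans (sup_le (le_iSup _ i) (iSup_le fun j => ih j.1 j.2))

end Pool.Agent.Lib.MP_f9fa2e_lc
end

section

set_option autoImplicit false

open Set

namespace Pool.Agent.Lib.MP_f9fa2e_lc

open Pool.Agent.Lib.SymZF SymSys FactSys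

section

variable {N : Names DD} {G : Gen N}

/-- internal support -/
def SuppM (G : Gen N) (u : G.M) (s : Finset Pt) : Prop := ∃ σ, N.has σ ∧ Inv s σ ∧ G.ev σ = u

lemma ev_xt_eq (hN : GoodN N) {g h : Gr} {t : Pt}
    (he : G.ev (xt (gp g t)) = G.ev (xt (gp h t))) : gp g t = gp h t := by
  by_contra hne
  rw [Gen.ev_eq (hN.xt _) (hN.xt _), xt_eq_bot g h t hne] at he
  exact G.bot he

lemma ev_xa_inj' (hN : GoodN N) {a b : ℕ} (he : G.ev (xt (.inl a)) = G.ev (xt (.inl b))) :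
    a = b := by
  by_contra hne
  rw [Gen.ev_eq (hN.xt _) (hN.xt _)] at he
  have h1 : (xt (.inl a)).eq (xt (.inl b)) = ⊥ := Rs.xa_eq_bot hne
  rw [h1] at he
  exact G.bot he

lemma mem_stF (hN : GoodN N) (w : Finset ℕ) (x : G.M) :
    G.E x (G.ev (stF w)) ↔ ∃ a ∈ w, x = G.ev (xt (.inl a)) := by
  have := RealSys.E_ev_st (R := Rs) (N := N) (G := G) (Y := (w : Set ℕ)) (hY := fin_inv w) (hN.stF w)
    (fun a => hN.xt (.inl a)) x
  exact this

lemma mem_stU (hN : GoodN N) (x : G.M) :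
    G.E x (G.ev stU) ↔ ∃ a, x = G.ev (xt (.inl a)) := by
  have := RealSys.E_ev_st (R := Rs) (N := N) (G := G) (Y := (univ : Set ℕ)) (hY := univ_inv) hN.stU
    (fun a => hN.xt (.inl a)) x
  refine this.trans ?_
  constructor
  · rintro ⟨a, _, h⟩; exact ⟨a, h⟩
  · rintro ⟨a, h⟩; exact ⟨a, trivial, h⟩

lemma set_stF (hN : GoodN N) (w : Finset ℕ) :
    {t | G.E t (G.ev (stF w))} = (fun a => G.ev (xt (.inl a))) '' (w : Set ℕ) := by
  ext t
  rw [mem_ofPred_eq, mem_stF hN]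
  constructor
  · rintro ⟨a, ha, rfl⟩; exact ⟨a, ha, rfl⟩
  · rintro ⟨a, ha, rfl⟩; exact ⟨a, ha, rfl⟩

lemma ncard_stF (hN : GoodN N) (w : Finset ℕ) :
    {t | G.E t (G.ev (stF w))}.ncard = w.card ∧ {t | G.E t (G.ev (stF w))}.Finite := by
  rw [set_stF hN]
  refine ⟨?_, w.finite_toSet.image _⟩
  rw [Set.InjOn.ncard_image, Set.ncard_coe_finset]
  intro a _ b _ h
  exact ev_xa_inj' hN h

lemma stF_inj (hN : GoodN N) {w w' : Finset ℕ} (h : G.ev (stF w) = G.ev (stF w')) : w = w' := by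
  ext a
  have h1 := mem_stF (G := G) hN w (G.ev (xt (.inl a)))
  have h2 := mem_stF (G := G) hN w' (G.ev (xt (.inl a)))
  rw [h] at h1
  constructor
  · intro ha
    obtain ⟨b, hb, hab⟩ := h2.1 (h1.2 ⟨a, ha, rfl⟩)
    rw [ev_xa_inj' hN hab]; exact hb
  · intro ha
    obtain ⟨b, hb, hab⟩ := h1.1 (h2.2 ⟨a, ha, rfl⟩)
    rw [ev_xa_inj' hN hab]; exact hb

/-- The generic choice function in the model. -/
theorem chf_cn (hN : GoodN N) (hG : GoodG G) : ChF G.E 8 (G.ev stU) (G.ev cn) := by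
  classical
  have hZ := G.isZF
  have hω := G.omegaStd
  have hrel : ∀ u v, Rel G.E (G.ev cn) u v ↔ ∃ x : CF, fct (.inr x) ∈ G.U ∧
      u = G.ev (stF x.1.1) ∧ v = G.ev (stF x.1.2) := by
    intro u v
    have h := Gen.rel_fam (G := G) (f1 := fun x : CF => stF x.1.1) (f2 := fun x : CF => stF x.1.2)
      (b := fun x => fct (.inr x)) hN.cn u v
    refine h.trans ?_
    constructor
    · rintro ⟨x, hx, h1, h2⟩
      exact ⟨x, hx, h1.unique (Gen.is_ev (hN.stF _)), h2.unique (Gen.is_ev (hN.stF _))⟩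
    · rintro ⟨x, hx, rfl, rfl⟩
      exact ⟨x, hx, Gen.is_ev (hN.stF _), Gen.is_ev (hN.stF _)⟩
  refine ⟨⟨fun p hp => ?_, ?_⟩, ?_⟩
  · have h := Gen.E_ev_fam (G := G) (f := fun x : CF => (stF x.1.1).opair (stF x.1.2))
      (b := fun x => fct (.inr x)) hN.cn (fun x => Names.has_opair (hN.stF _) (hN.stF _)) p
    obtain ⟨x, hx, rfl⟩ := h.1 hp
    refine ⟨_, _, ?_, ?_, Gen.isOPair_ev (hN.stF x.1.1) (hN.stF x.1.2)⟩
    · refine ⟨fun t ht => ?_, ?_, ?_⟩
      · obtain ⟨a, _, rfl⟩ := (mem_stF hN _ _).1 ht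
        exact (mem_stU hN _).2 ⟨a, rfl⟩
      · exact isFin_of_finite hZ (ncard_stF hN _).2
      · rw [moreThan_iff (ncard_stF hN _).2, (ncard_stF hN _).1]
        exact x.2.1
    · refine ⟨fun t ht => ?_, ?_⟩
      · obtain ⟨a, _, rfl⟩ := (mem_stF hN _ _).1 ht
        exact (mem_stU hN _).2 ⟨a, rfl⟩
      · rw [hasCard_iff]
        refine ⟨?_, (ncard_stF hN _).2⟩
        rw [(ncard_stF hN _).1]
        exact x.2.2.2
  · rintro z ⟨hz1, hz2, hz3⟩
    have hfin := finite_of_isFin hZ hω hz2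
    have hwf : {a : ℕ | G.E (G.ev (xt (.inl a))) z}.Finite :=
      Set.Finite.of_injOn (f := fun a => G.ev (xt (.inl a))) (t := {t | G.E t z})
        (fun a ha => ha) (fun a _ b _ h => ev_xa_inj' hN h) hfin
    set w := hwf.toFinset with hw
    have hzw : z = G.ev (stF w) := by
      apply hZ.ext
      intro t
      rw [mem_stF hN]
      constructor
      · intro ht
        obtain ⟨a, rfl⟩ := (mem_stU hN _).1 (hz1 t ht)
        exact ⟨a, by rw [hw, Set.Finite.mem_toFinset]; exact ht, rfl⟩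
      · rintro ⟨a, ha, rfl⟩
        rw [hw, Set.Finite.mem_toFinset] at ha
        exact ha
    have hwc : 8 < w.card := by
      rw [moreThan_iff hfin, hzw, (ncard_stF hN _).1] at hz3
      exact hz3
    have hex : ∃ x : CF, x.1.1 = w ∧ fct (.inr x) ∈ G.U := by
      rcases hG.giv w with h | h
      · exact h
      · exfalso
        have h1 := top_le_choices w hwc
        exact G.compl_mem (G.up G.top h1) h
    obtain ⟨x, hxw, hx⟩ := hex
    refine ⟨G.ev (stF x.1.2), (hrel _ _).2 ⟨x, hx, by rw [hxw, hzw], rfl⟩, ?_⟩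
    intro b hb
    obtain ⟨x', hx', h1, rfl⟩ := (hrel _ _).1 hb
    rw [hzw] at h1
    have h2 := stF_inj hN h1
    have h3 : (.inr x' : Fact) = .inr x := by
      by_contra hne
      have hk : key (Sum.inr x' : Fact) = key (Sum.inr x : Fact) := by
        rw [key, key, hxw, h2]
      have h4 : fct (.inr x') ⊓ fct (.inr x) = ⊥ := fact_inf_fact (Q := Qs) hk hne
      have h5 := G.inf hx' hx
      rw [h4] at h5
      exact G.bot h5
    rw [Sum.inr.inj h3]
  · intro z w hzw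
    obtain ⟨x, hx, rfl, rfl⟩ := (hrel _ _).1 hzw
    intro t ht
    obtain ⟨a, ha, rfl⟩ := (mem_stF hN _ _).1 ht
    exact (mem_stF hN _ _).2 ⟨a, x.2.2.1 ha, rfl⟩

/-- Case A: every element has an invariant name. -/
theorem caseA (hN : GoodN N) (hG : GoodG G) (ξ : Nm) (hξ : N.has ξ) (s0 : Finset Pt)
    (hA : ∀ u, G.E u (G.ev ξ) → SuppM G u s0) :
    ∃ f, ChF G.E 8 (G.ev ξ) f := by
  classical
  have hZ := G.isZF
  have hω := G.omegaStd
  -- the index of an element
  have hidx : ∀ u, G.E u (G.ev ξ) → ∃ i : LI s0 ξ, G.Is u (lrho s0 ξ i) ∧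
      lv s0 ξ (lrho s0 ξ i) i ∈ G.U := by
    intro u hu
    obtain ⟨τ, hτ, rfl⟩ := G.ev_surj u
    obtain ⟨k, _, hk⟩ := Gen.mem_el hτ hξ ((Gen.E_ev hτ hξ).1 hu)
    obtain ⟨σ, hσ1, hσ2, hσ3⟩ := hA _ hu
    have h1 : τ.eq σ ∈ G.U := (Gen.ev_eq hτ hσ1).1 hσ3.symm
    have h2 : (ξ.el k).eq σ ∈ G.U := by
      rw [HSet.eq_symm] at hk
      exact G.up (G.inf hk h1) (HSet.eq_trans _ _ _)
    obtain ⟨q, hq1, hq2⟩ := G.cond _ h2
    have hex : ∃ ρ, Inv s0 ρ ∧ ebb q ≤ (ξ.el k).eq ρ := ⟨σ, hσ2, hq2⟩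
    let i : LI s0 ξ := ⟨(k, q), hex⟩
    have h3 : τ.eq (lrho s0 ξ i) ∈ G.U :=
      G.up (G.inf hk (G.up hq1 (lrho_le s0 ξ i))) (HSet.eq_trans _ _ _)
    rcases hG.gii τ ξ hτ hξ s0 with ⟨j, hj⟩ | h4
    · have h5 : τ.eq (lrho s0 ξ j) ∈ G.U := G.up hj inf_le_left
      exact ⟨j, ⟨τ, hτ, rfl, h5⟩, G.up (G.inf h5 hj) (lv_congr _ _ _ _ _)⟩
    · exact (G.compl_mem (G.up h3 (le_lv s0 ξ τ i)) h4).elim
  have huniq : ∀ u i j, G.Is u (lrho s0 ξ i) → lv s0 ξ (lrho s0 ξ i) i ∈ G.U →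
      G.Is u (lrho s0 ξ j) → lv s0 ξ (lrho s0 ξ j) j ∈ G.U → i = j := by
    have key : ∀ u i j, G.Is u (lrho s0 ξ i) → lv s0 ξ (lrho s0 ξ i) i ∈ G.U →
      G.Is u (lrho s0 ξ j) → ¬ WellOrderingRel j i := by
      intro u i j h1 h2 h3 hlt
      have h4 := h1.eq_mem h3
      have h5 : (⨆ j : {j : LI s0 ξ // WellOrderingRel j i},
        (lrho s0 ξ i).eq (lrho s0 ξ j.1))ᶜ ∈ G.U := G.up h2 inf_le_right
      exact G.compl_mem (G.up h4 (le_iSup (fun j : {j : LI s0 ξ // WellOrderingRel j i} =>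
        (lrho s0 ξ i).eq (lrho s0 ξ j.1)) ⟨j, hlt⟩)) h5
    intro u i j h1 h2 h3 h4
    rcases trichotomous_of WellOrderingRel i j with h | h | h
    · exact (key u j i h3 h4 h1 h).elim
    · exact h
    · exact (key u i j h1 h2 h3 h).elim
  choose ix hix1 hix2 using hidx
  have hrel : ∀ u v (hu : G.E u (G.ev ξ)) (hv : G.E v (G.ev ξ)),
      (Rel G.E (G.ev (Ln s0 ξ)) u v ↔ WellOrderingRel (ix u hu) (ix v hv)) := by
    intro u v hu hv
    have h := Gen.rel_fam (G := G) (f1 := fun x : LI s0 ξ × LI s0 ξ => lrho s0 ξ x.1)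
      (f2 := fun x => lrho s0 ξ x.2) (b := lb s0 ξ) (hN.Ln s0 ξ hξ) u v
    refine h.trans ?_
    constructor
    · rintro ⟨⟨i, j⟩, hb, h1, h2⟩
      unfold lb at hb
      split_ifs at hb with hlt
      · have e1 := huniq u i (ix u hu) h1 (G.up hb inf_le_left) (hix1 u hu) (hix2 u hu)
        have e2 := huniq v j (ix v hv) h2 (G.up hb inf_le_right) (hix1 v hv) (hix2 v hv)
        rw [← e1, ← e2]; exact hlt
      · exact (G.bot hb).elim
    · intro hlt
      refine ⟨(ix u hu, ix v hv), ?_, hix1 u hu, hix1 v hv⟩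
      have e : lb s0 ξ (ix u hu, ix v hv) = lv s0 ξ (lrho s0 ξ (ix u hu)) (ix u hu) ⊓
          lv s0 ξ (lrho s0 ξ (ix v hv)) (ix v hv) := by
        unfold lb
        exact if_pos hlt
      rw [e]
      exact G.inf (hix2 u hu) (hix2 v hv)
  refine chf_of_linear hZ hω 8 (G.ev ξ) (G.ev (Ln s0 ξ)) ?_ ?_ ?_
  · intro a ha h
    rw [hrel a a ha ha] at h
    exact irrefl_of WellOrderingRel _ h
  · intro a b c ha hb hc h1 h2
    rw [hrel a b ha hb] at h1
    rw [hrel b c hb hc] at h2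
    rw [hrel a c ha hc]
    exact trans_of WellOrderingRel h1 h2
  · intro a b ha hb hne
    rw [hrel a b ha hb, hrel b a hb ha]
    rcases trichotomous_of WellOrderingRel (ix a ha) (ix b hb) with h | h | h
    · exact Or.inl h
    · exfalso
      apply hne
      have h1 := hix1 a ha
      rw [h] at h1
      exact h1.unique (hix1 b hb)
    · exact Or.inr h

end

end Pool.Agent.Lib.MP_f9fa2e_lc
end

section

set_option autoImplicit false

open Set

namespace Pool.Agent.Lib.MP_f9fa2e_lc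

open Pool.Agent.Lib.SymZF SymSys FactSys

section

variable {N : Names DD} {G : Gen N}

lemma mem_ev_xr (x : ℕ × ℕ) (hx : N.has (xt (.inr x))) (z : G.M)
    (hz : G.E z (G.ev (xt (.inr x)))) : ∃ k, z = G.ev (HSet.num Rs.S k) := by
  obtain ⟨σ, hσ, rfl⟩ := G.ev_surj z
  rw [Gen.E_ev hσ hx] at hz
  obtain ⟨k, _, hk⟩ := Gen.mem_el hσ hx hz
  exact ⟨k, (Gen.ev_eq hσ (N.has_num k)).2 hk⟩

lemma rel_Rn (hN : GoodN N) (s' : Finset Pt) (t0 : Pt) (p : PP) (σ : Nm) (hσ : N.has σ)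
    (u v : G.M) : Rel G.E (G.ev (Rn s' t0 p σ)) u v ↔
      ∃ h ∈ H s', ebb (ac h p) ∈ G.U ∧ G.Is u (sm h σ) ∧ v = G.ev (xt (gp h t0)) := by
  have hrf := Gen.rel_fam (G := G) (f1 := fun h : H s' => sm h.1 σ)
    (f2 := fun h : H s' => xt (gp h.1 t0)) (b := rel2 s' p)
    (h := Filter.mem_of_superset (H_mem_Fi s') (rel_fix s' t0 p σ)) (hN.Rn s' t0 p σ hσ) u v
  refine Iff.trans hrf ?_
  clear hrf
  constructor
  · rintro ⟨h, h1, h2, h3⟩
    exact ⟨h.1, h.2, h1, h2, h3.unique (Gen.is_ev (hN.xt _))⟩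
  · rintro ⟨h, hh, h1, h2, rfl⟩
    exact ⟨⟨h, hh⟩, h1, h2, Gen.is_ev (hN.xt _)⟩

/-- Case B: drop a point of a minimal support. -/
theorem caseB (hN : GoodN N) (hG : GoodG G) (ξ : Nm) (hξ : N.has ξ) (s' : Finset Pt)
    (hξ' : Inv s' ξ) (hs' : Closed s') (t0 : Pt) (h0 : t0 ∉ s') (hs : Closed (insert t0 s'))
    (σ : Nm) (hσ : N.has σ) (hσi : Inv (insert t0 s') σ) (hσξ : σ.mem ξ ∈ G.U)
    (hnot : (inval s' σ)ᶜ ∈ G.U) :
    ∃ y, Sub G.E y (G.ev ξ) ∧ ¬ IsFin G.E y ∧ ∃ f, ChF G.E 8 y f := by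
  classical
  have hZ := G.isZF
  have hω := G.omegaStd
  obtain ⟨p, hpU, hp⟩ := G.cond _ (G.inf hnot hσξ)
  have hp1 : ebb p ≤ (inval s' σ)ᶜ := hp.trans inf_le_left
  have hp2 : ebb p ≤ σ.mem ξ := hp.trans inf_le_right
  set R := Rn s' t0 p σ with hR
  have hRh : N.has R := hN.Rn s' t0 p σ hσ
  have hrel := rel_Rn (G := G) hN s' t0 p σ hσ
  -- elements in the domain belong to ξ
  have f1 : ∀ u v, Rel G.E (G.ev R) u v → G.E u (G.ev ξ) := by
    intro u v huv
    obtain ⟨h, hh, h1, h2, _⟩ := (hrel u v).1 huv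
    rw [h2.mem_iff hξ]
    refine G.up h1 ?_
    rw [← al_ebb]
    refine le_trans (al_mono h hp2) ?_
    rw [← sm_mem, HSet.mem_of_eq_top_right (hξ' h hh)]
  -- separation of copies
  have fsep : ∀ h h' : Gr, h ∈ H s' → h' ∈ H s' → ebb (ac h p) ∈ G.U →
      (sm h σ).eq (sm h' σ) ∈ G.U → gp h t0 = gp h' t0 := by
    intro h h' hh hh' h1 h2
    by_contra hne
    have hk : gp (h⁻¹ * h') t0 ≠ t0 := by
      intro hk
      apply hne
      rw [map_mul, Equiv.Perm.mul_apply, map_inv, Equiv.Perm.inv_eq_iff_eq] at hk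
      exact hk.symm
    have h3 := sep_copies s' t0 h0 hs σ hσi p hp1 (h⁻¹ * h') (mul_mem (inv_mem hh) hh') hk
    have h4 := congrArg (al h) h3
    rw [al_inf, al_ebb, ← sm_eq, ← sm_mul, mul_inv_cancel_left, al_bot] at h4
    have h5 := G.inf h1 h2
    rw [h4] at h5
    exact G.bot h5
  have f2 : ∀ u v v', Rel G.E (G.ev R) u v → Rel G.E (G.ev R) u v' → v = v' := by
    intro u v v' h1 h2
    obtain ⟨h, hh, a1, a2, rfl⟩ := (hrel u v).1 h1
    obtain ⟨h', hh', b1, b2, rfl⟩ := (hrel u v').1 h2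
    rw [fsep h h' hh hh' a1 (a2.eq_mem b2)]
  have f3 : ∀ u u' v, Rel G.E (G.ev R) u v → Rel G.E (G.ev R) u' v → u = u' := by
    intro u u' v h1 h2
    obtain ⟨h, hh, a1, a2, rfl⟩ := (hrel u v).1 h1
    obtain ⟨h', hh', b1, b2, h3⟩ := (hrel u' _).1 h2
    have h4 := ev_xt_eq hN h3
    have h5 : h⁻¹ * h' ∈ H (insert t0 s') := by
      intro t ht
      rcases Finset.mem_insert.1 ht with rfl | ht
      · rw [map_mul, Equiv.Perm.mul_apply, map_inv, Equiv.Perm.inv_eq_iff_eq, h4]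
      · exact (mul_mem (inv_mem hh) hh') t ht
    have h6 := hσi _ h5
    have h7 := congrArg (al h) h6
    rw [← sm_eq, ← sm_mul, mul_inv_cancel_left, al_top] at h7
    have h8 : G.Is u' (sm h σ) := b2.congr (by rw [h7]; exact G.top)
    exact a2.unique h8
  -- the set y
  have hdef : Def (fun E v => ∃ w, Rel E (v 1) (v 0) w) :=
    Def.ex (R := fun E v => Rel E (v 2) (v 1) (v 0)) (Def.rel _ _ _)
  obtain ⟨y, hy⟩ := sep_of_def hZ hdef (fun _ => G.ev R) (G.ev ξ)
  have hy' : ∀ z, G.E z y ↔ G.E z (G.ev ξ) ∧ ∃ w, Rel G.E (G.ev R) z w := hy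
  refine ⟨y, fun t ht => ((hy' t).1 ht).1, ?_, ?_⟩
  · -- y is infinite
    rw [isFin_iff hZ hω]
    intro hfin
    -- existence of preimages
    have hpre : ∀ h ∈ H s', ebb (ac h p) ∈ G.U → ∃ u, Rel G.E (G.ev R) u (G.ev (xt (gp h t0))) := by
      intro h hh h1
      have hdef2 : Def (fun E v => ∃ u, Rel E (v 0) u (v 1)) :=
        Def.ex (R := fun E v => Rel E (v 1) (v 0) (v 2)) (Def.rel _ _ _)
      have h2 : bval (relFml.ren (fun n => Nat.casesOn n 1 (fun m => Nat.casesOn m 0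
          (fun _ => 2)))).ex (scons R (fun _ => xt (gp h t0))) ∈ G.U := by
        rw [bval_ex]
        have h3 : brel R (sm h σ) (xt (gp h t0)) ∈ G.U := by
          refine G.up h1 (le_trans ?_ (mem_le_brel _ _ _))
          have h4 : ((sm h σ).opair (xt (gp h t0))).mem R =
              ⨆ i : H s', rel2 s' p i ⊓ ((sm h σ).opair (xt (gp h t0))).eq (rel1 s' t0 σ i) :=
            HSet.mem_fam (S := Rs.S) _ _ (Filter.mem_of_superset (H_mem_Fi s') (rel_fix s' t0 p σ)) _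
          rw [h4]
          refine le_iSup_of_le (⟨h, hh⟩ : H s') (le_inf le_rfl ?_)
          exact le_of_le_of_eq le_top (HSet.eq_refl _).symm
        refine G.up h3 (le_trans ?_ (le_iSup _ (sm h σ)))
        rw [bval_ren]
        unfold brel
        apply le_of_eq
        congr 1
        funext n
        rcases n with _ | _ | n <;> rfl
      have hhas : ∀ i, N.has (scons R (fun _ => xt (gp h t0)) i) := by
        intro i
        rcases i with _ | i
        · exact hRh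
        · exact hN.xt _
      rw [← Gen.truth' _ _ hhas, sat_ex] at h2
      obtain ⟨u, hu⟩ := h2
      rw [sat_ren, relFml_spec] at hu
      exact ⟨u, hu⟩
    have hTfin : {t | ∃ h ∈ H s', gp h t0 = t ∧ ebb (ac h p) ∈ G.U}.Finite := by
      have hch : ∀ t, t ∈ {t | ∃ h ∈ H s', gp h t0 = t ∧ ebb (ac h p) ∈ G.U} →
          ∃ u, Rel G.E (G.ev R) u (G.ev (xt t)) := by
        rintro t ⟨h, hh, rfl, h1⟩
        exact hpre h hh h1
      have hne : Nonempty G.M := ⟨G.ev ξ⟩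
      choose! φ hφ using hch
      refine Set.Finite.of_injOn (f := φ) (t := {t | G.E t y}) ?_ ?_ hfin
      · intro t ht
        exact (hy' _).2 ⟨f1 _ _ (hφ t ht), _, hφ t ht⟩
      · intro t ht t' ht' htt
        have h1 := hφ t ht
        have h2 := hφ t' ht'
        rw [← htt] at h2
        have h3 := f2 _ _ _ h1 h2
        obtain ⟨h, _, rfl, _⟩ := ht
        obtain ⟨h', _, rfl, _⟩ := ht'
        exact ev_xt_eq hN h3
    rcases hG.giii s' t0 p hTfin.toFinset with ⟨h, hh, hB, h1⟩ | h2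
    · apply hB
      rw [Set.Finite.mem_toFinset]
      exact ⟨h, hh, rfl, h1⟩
    · exact G.compl_mem (G.up hpU (le_copies s' hs' t0 h0 p _)) h2
  · -- the choice function
    have hfun : ∀ a, G.E a y → ∃! b, Rel G.E (G.ev R) a b := by
      intro a ha
      obtain ⟨b, hb⟩ := ((hy' a).1 ha).2
      exact ⟨b, hb, fun b' hb' => f2 a b' b hb' hb⟩
    have hinj : ∀ a a' b, G.E a y → G.E a' y → Rel G.E (G.ev R) a b → Rel G.E (G.ev R) a' b →
        a = a' := fun a a' b _ _ h h' => f3 a a' b h h'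
    rcases t0 with a0 | x0
    · refine chf_pullback hZ hω 8 y (G.ev R) (G.ev stU) (G.ev cn) hfun hinj ?_ (chf_cn hN hG)
      intro a b _ hab
      obtain ⟨h, _, _, _, rfl⟩ := (hrel a b).1 hab
      rw [gp_inl]
      exact (mem_stU hN _).2 ⟨_, rfl⟩
    · obtain ⟨L, hL1, hL2, hL3⟩ := linear_of_reals hZ hω (G.ev (HSet.om Rs.S)) y (G.ev R)
        Gen.isOmega_ev hfun hinj (by
          intro a b _ hab z hz
          obtain ⟨h, _, _, _, rfl⟩ := (hrel a b).1 hab
          rw [gp_inr] at hz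
          obtain ⟨k, rfl⟩ := mem_ev_xr _ (hN.xt _) z hz
          exact (Gen.E_om_iff _).2 ⟨k, rfl⟩)
      exact chf_of_linear hZ hω 8 y L hL1 hL2 hL3

/-- `8RC_fin` holds in the model. -/
theorem rcfin8 (hN : GoodN N) (hG : GoodG G) : RCfin G.E 8 := by
  classical
  have hZ := G.isZF
  have hω := G.omegaStd
  suffices h : ∀ x, ¬ IsFin G.E x → ∃ y, Sub G.E y x ∧ ¬ IsFin G.E y ∧ ∃ f, ChF G.E 8 y f from h
  intro x hx
  obtain ⟨ξ, hξ, rfl⟩ := G.ev_surj x
  obtain ⟨s0, hs0, hξi⟩ := exists_inv ξ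
  by_cases hA : ∀ u, G.E u (G.ev ξ) → SuppM G u s0
  · exact ⟨G.ev ξ, fun _ h => h, hx, caseA hN hG ξ hξ s0 hA⟩
  push Not at hA
  obtain ⟨u1, hu1, hu1'⟩ := hA
  have hex : ∃ n, ∃ (s : Finset Pt) (u : G.M), Closed s ∧ s0 ⊆ s ∧ s.card = n ∧
      G.E u (G.ev ξ) ∧ SuppM G u s ∧ ¬ SuppM G u s0 := by
    obtain ⟨τ, hτ, rfl⟩ := G.ev_surj u1
    obtain ⟨s1, hs1, hτi⟩ := exists_inv τ
    refine ⟨_, s0 ∪ s1, G.ev τ, ?_, Finset.subset_union_left, rfl, hu1,
      ⟨τ, hτ, hτi.mono Finset.subset_union_right, rfl⟩, hu1'⟩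
    intro a n h
    rcases Finset.mem_union.1 h with h | h
    · exact Finset.mem_union_left _ (hs0 a n h)
    · exact Finset.mem_union_right _ (hs1 a n h)
  obtain ⟨s, u, hs, hs0s, hcard, hu, hsu, hnsu⟩ := Nat.find_spec hex
  have hmin : ∀ (s' : Finset Pt), Closed s' → s0 ⊆ s' → s'.card < s.card → ¬ SuppM G u s' := by
    intro s' h1 h2 h3 h4
    exact Nat.find_min hex (by rw [← hcard]; exact h3) ⟨s', u, h1, h2, rfl, hu, h4, hnsu⟩
  have hne : s ≠ s0 := by
    rintro rfl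
    exact hnsu hsu
  -- the point to be dropped
  have ht0 : ∃ t0 ∈ s, t0 ∉ s0 ∧ Closed (s.erase t0) := by
    by_cases hf : ∃ x : ℕ × ℕ, Sum.inr x ∈ s ∧ Sum.inr x ∉ s0
    · obtain ⟨x, hx1, hx2⟩ := hf
      refine ⟨_, hx1, hx2, fun a n h => ?_⟩
      rw [Finset.mem_erase] at h ⊢
      exact ⟨by simp, hs a n h.2⟩
    · push Not at hf
      have hss : ∃ t ∈ s, t ∉ s0 := by
        by_contra hcon
        push Not at hcon
        exact hne (Finset.Subset.antisymm hcon hs0s)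
      obtain ⟨t, ht1, ht2⟩ := hss
      refine ⟨t, ht1, ht2, fun a n h => ?_⟩
      rw [Finset.mem_erase] at h ⊢
      have h1 := hf (a, n) h.2
      have h2 := hs0 a n h1
      refine ⟨?_, hs a n h.2⟩
      rintro rfl
      exact ht2 h2
  obtain ⟨t0, ht1, ht2, hs'⟩ := ht0
  have hins : insert t0 (s.erase t0) = s := Finset.insert_erase ht1
  have hsub : s0 ⊆ s.erase t0 := fun t ht =>
    Finset.mem_erase.2 ⟨fun h => ht2 (h ▸ ht), hs0s ht⟩
  obtain ⟨σ, hσ, hσi, hσu⟩ := hsu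
  have hnot : (inval (s.erase t0) σ)ᶜ ∈ G.U := by
    rcases hG.gi σ hσ (s.erase t0) with ⟨ρ, hρ1, hρ2⟩ | h
    · exfalso
      obtain ⟨q, hq1, hq2⟩ := G.cond _ hρ2
      have hc := can_spec (s := s.erase t0) (q := q) (τ := σ) ⟨ρ, hρ1, hq2⟩
      apply hmin (s.erase t0) hs' hsub (Finset.card_erase_lt_of_mem ht1)
      refine ⟨can (s.erase t0) q σ, hN.can _ _ _ hσ, hc.1, ?_⟩
      rw [← hσu, Gen.ev_eq (hN.can _ _ _ hσ) hσ, HSet.eq_symm]
      exact G.up hq1 hc.2
    · exact h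
  refine caseB hN hG ξ hξ (s.erase t0) (hξi.mono hsub) hs' t0 (Finset.notMem_erase _ _)
    (by rw [hins]; exact hs) σ hσ (by rw [hins]; exact hσi) ?_ hnot
  rw [← Gen.E_ev hσ hξ, hσu]
  exact hu

end

end Pool.Agent.Lib.MP_f9fa2e_lc
end

section

set_option autoImplicit false

open Set

namespace Pool.Agent.Lib.MP_f9fa2e_lc

open Pool.Agent.Lib.SymZF SymSys FactSys

/-- Restriction of conditions. -/
lemma restr_le (t : Finset Pt) (ht : Closed t) (b : BB) (hb : ∀ g ∈ H t, al g b = b) (p : PP)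
    (hp : ebb p ≤ b) : ebb (restr p t) ≤ b := by
  classical
  refine le_of_forall (Q := Qs) fun q hq => ?_
  obtain ⟨r, hr1, hr2⟩ := exists_le_of_eb_le (Q := Qs) hq
  obtain ⟨g, hg, hf⟩ := fresh t ht (carP p) (carP r)
  have hc : Compat r (ac g p) := by
    intro x hx y hy hxy
    obtain ⟨z, hz, rfl⟩ := (mem_ac g p y).1 hy
    have hcar : car x = car (fa g z) := car_of_key hxy
    have hsub : car z ⊆ t := by
      intro u hu
      by_contra hut
      apply hf u (car_subset hz hu) hut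
      apply car_subset hx
      rw [hcar]
      exact (mem_car_fa g z u).2 hu
    have hfix : fa g z = z := fa_fix g z fun u hu => hg u (hsub hu)
    rw [hfix] at hxy ⊢
    exact r.inj x hx z (hr2 (mem_restr.2 ⟨hz, hsub⟩)) hxy
  obtain ⟨u, hu1, hu2, _⟩ := exists_union hc
  refine ⟨u, hu1.trans hr1, ?_⟩
  refine le_trans (eb_mono hu2) ?_
  change ebb (ac g p) ≤ b
  rw [← al_ebb, ← hb g hg]
  exact al_mono g hp

lemma theta_def : Def (fun E v => ∀ a b b', Rel E (v 0) a b → Rel E (v 0) a b' → b = b') :=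
  Def.all (R := fun E v => ∀ b b', Rel E (v 1) (v 0) b → Rel E (v 1) (v 0) b' → b = b')
    (Def.all (R := fun E v => ∀ b', Rel E (v 2) (v 1) (v 0) → Rel E (v 2) (v 1) b' → v 0 = b')
      (Def.all (R := fun E v => Rel E (v 3) (v 2) (v 1) → Rel E (v 3) (v 2) (v 0) → v 1 = v 0)
        (Def.imp (Def.rel _ _ _) (Def.imp (Def.rel _ _ _) (Def.eq _ _)))))

/-- the formula of functionality -/
noncomputable def thFml : Fml := theta_def.choose

lemma thFml_spec {M : Type} (E : M → M → Prop) (v : ℕ → M) :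
    Sat E thFml v ↔ ∀ a b b', Rel E (v 0) a b → Rel E (v 0) a b' → b = b' :=
  theta_def.choose_spec M E v

/-- the Boolean value of functionality -/
noncomputable def theta (f : Nm) : BB := bval thFml (fun _ => f)

lemma theta_truth {N : Names DD} {G : Gen N} {f : Nm} (hf : N.has f) :
    theta f ∈ G.U ↔ ∀ a b b', Rel G.E (G.ev f) a b → Rel G.E (G.ev f) a b' → b = b' := by
  rw [theta, ← Gen.truth' thFml _ (fun _ => hf), thFml_spec]

lemma theta_le (f x y y' : Nm) : theta f ⊓ (brel f x y ⊓ brel f x y') ≤ y.eq y' := by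
  by_contra hcon
  rw [← disjoint_compl_right_iff, disjoint_iff] at hcon
  obtain ⟨p, hp⟩ := DD.dense _ hcon
  obtain ⟨N, hN⟩ := exists_names_fam DD (J := Fin 4) ![f, x, y, y']
  obtain ⟨G, hpU, _⟩ := exists_gen N (fun _ => ∅) p
  have hf : N.has f := hN 0
  have hx : N.has x := hN 1
  have hy : N.has y := hN 2
  have hy' : N.has y' := hN 3
  have hU := G.up hpU hp
  have h1 : theta f ∈ G.U := G.up hU (inf_le_left.trans inf_le_left)
  have h2 : brel f x y ∈ G.U := G.up hU (inf_le_left.trans (inf_le_right.trans inf_le_left))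
  have h3 : brel f x y' ∈ G.U := G.up hU (inf_le_left.trans (inf_le_right.trans inf_le_right))
  rw [theta_truth hf] at h1
  rw [← brel_truth hf hx hy] at h2
  rw [← brel_truth hf hx hy'] at h3
  exact G.compl_mem ((Gen.ev_eq hy hy').1 (h1 _ _ _ h2 h3)) (G.up hU inf_le_right)

lemma al_theta {s : Finset Pt} {f : Nm} (hf : Inv s f) {g : Gr} (hg : g ∈ H s) :
    al g (theta f) = theta f :=
  (bval_smul (S := Rs.S) g thFml _ _ fun _ _ => hf g hg).symm

lemma al_mem_xt {s : Finset Pt} {η : Nm} (hη : Inv s η) {g : Gr} (hg : g ∈ H s) (t : Pt) :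
    al g ((xt t).mem η) = (xt (gp g t)).mem η := by
  rw [← sm_mem, HSet.mem_of_eq_top_right (hη g hg), HSet.mem_of_eq_top_left (sm_xt g t)]

lemma map_univ_trans (g : Gr) (z : Fin 11 ↪ ℕ) :
    (Finset.univ.map z).map g.1.2.toEmbedding =
      Finset.univ.map (z.trans g.1.2.toEmbedding) := Finset.map_map _ _ _

lemma al_brel_st {s : Finset Pt} {φ : Nm} (hφ : Inv s φ) {g : Gr} (hg : g ∈ H s)
    (z : Fin 11 ↪ ℕ) (i : Fin 11) :
    al g (brel φ (stF (Finset.univ.map z)) (xt (.inl (z i)))) =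
      brel φ (stF (Finset.univ.map (z.trans g.1.2.toEmbedding)))
        (xt (.inl (z.trans g.1.2.toEmbedding i))) := by
  refine (brel_sm g _ _ _ _ _ _ (hφ g hg) ?_ ?_).symm
  · rw [← map_univ_trans]
    exact sm_stF g _
  · exact sm_xt g (.inl (z i))

lemma al_chi {s : Finset Pt} {η φ : Nm} (hη : Inv s η) (hφ : Inv s φ) {g : Gr} (hg : g ∈ H s)
    (z : Fin 11 ↪ ℕ) : al g (chi η φ z) = chi η φ (z.trans g.1.2.toEmbedding) := by
  unfold chi
  have e : ∀ a b : BB, al g (a ⇨ b) = al g a ⇨ al g b := fun a b => Rs.S.α_himp g a b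
  rw [e, al_iInf, al_iSup]
  congr 1
  · exact iInf_congr fun i => al_mem_xt hη hg _
  · exact iSup_congr fun i => al_brel_st hφ hg z i

lemma al_chis {s : Finset Pt} {η φ : Nm} (hη : Inv s η) (hφ : Inv s φ) {g : Gr} (hg : g ∈ H s) :
    al g (⨅ z, chi η φ z) = ⨅ z, chi η φ z := by
  have key : ∀ g ∈ H s, (⨅ z, chi η φ z) ≤ al g (⨅ z, chi η φ z) := by
    intro g hg
    rw [al_iInf]
    refine le_iInf fun z => ?_
    rw [al_chi hη hφ hg]
    exact iInf_le _ _
  apply le_antisymm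
  · have h1 := al_mono g (key g⁻¹ (inv_mem hg))
    rw [al_inv'] at h1
    exact h1
  · exact key g hg

end Pool.Agent.Lib.MP_f9fa2e_lc
end

section

set_option autoImplicit false

open Set

namespace Pool.Agent.Lib.MP_f9fa2e_lc

open Pool.Agent.Lib.SymZF SymSys FactSys

/-- No condition forces a choice function on the `11`-element subsets. -/
theorem no_choice (η φ : Nm) (s : Finset Pt) (hs : Closed s) (hη : Inv s η) (hφ : Inv s φ)
    (a : ℕ) (ha : Sum.inl a ∉ s) (p : PP) (hp1 : ebb p ≤ (xt (.inl a)).mem η)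
    (hp2 : ebb p ≤ ⨅ z, chi η φ z) (hp3 : ebb p ≤ theta φ) : False := by
  classical
  obtain ⟨m, hm⟩ := exists_bound (insert (Sum.inl a) s)
  have ham : a < m := (hm _ (Finset.mem_insert_self _ _)).1 a rfl
  have hsm : ∀ b, Sum.inl b ∈ s → b < m := fun b hb =>
    (hm _ (Finset.mem_insert_of_mem hb)).1 b rfl
  let z : Fin 11 ↪ ℕ := ⟨fun i => m + i.val, fun i j h => by
    apply Fin.ext; simp only at h; omega⟩
  have hz : ∀ i, z i = m + i.val := fun _ => rfl
  have hzs : ∀ i, Sum.inl (z i) ∉ s := fun i h => by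
    have := hsm _ h
    rw [hz] at this; omega
  have hza : ∀ i, z i ≠ a := fun i h => by
    rw [hz] at h; omega
  let γ : Equiv.Perm ℕ := sg.viaEmbedding z
  have hγz : ∀ i, γ (z i) = z (sg i) := fun i => Equiv.Perm.viaEmbedding_apply sg z i
  have hγo : ∀ x, x ∉ Set.range z → γ x = x := fun x hx =>
    Equiv.Perm.viaEmbedding_apply_of_notMem sg z x hx
  have hγs : ∀ b, Sum.inl b ∈ s → γ b = b := by
    intro b hb
    apply hγo
    rintro ⟨i, rfl⟩
    exact hzs i hb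
  have hΓs : lft γ ∈ H s := by
    intro t ht
    rcases t with b | y
    · rw [lft_inl, hγs b ht]
    · rw [lft_inr, hγs y.1 (hs y.1 y.2 ht)]
  -- the copies
  let h : Fin 11 → Gr := fun i => lft (Equiv.swap a (z i))
  have hh : ∀ i, h i ∈ H s := by
    intro i t ht
    rcases t with b | y
    · change gp (lft _) _ = _
      rw [lft_inl, Equiv.swap_apply_of_ne_of_ne]
      · rintro rfl; exact ha ht
      · rintro rfl; exact hzs i ht
    · change gp (lft _) _ = _
      have hy := hs y.1 y.2 ht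
      rw [lft_inr, Equiv.swap_apply_of_ne_of_ne]
      · intro e; rw [e] at hy; exact ha hy
      · intro e; rw [e] at hy; exact hzs i hy
  have hha : ∀ i, gp (h i) (.inl a) = .inl (z i) := by
    intro i
    change gp (lft _) _ = _
    rw [lft_inl, Equiv.swap_apply_left]
  have hs1 : Closed (insert (Sum.inl a) s) := by
    intro b n hb
    rcases Finset.mem_insert.1 hb with hb | hb
    · simp at hb
    · exact Finset.mem_insert_of_mem (hs b n hb)
  set p1 := restr p (insert (Sum.inl a) s) with hp1def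
  have e1 : ebb p1 ≤ (xt (.inl a)).mem η := by
    refine restr_le _ hs1 _ ?_ p hp1
    intro g hg
    rw [al_mem_xt hη (H_mono (Finset.subset_insert _ _) hg), hg _ (Finset.mem_insert_self _ _)]
  have e2 : ebb p1 ≤ ⨅ z, chi η φ z := by
    refine restr_le _ hs1 _ ?_ p hp2
    intro g hg
    exact al_chis hη hφ (H_mono (Finset.subset_insert _ _) hg)
  have e3 : ebb p1 ≤ theta φ := by
    refine restr_le _ hs1 _ ?_ p hp3
    intro g hg
    exact al_theta hφ (H_mono (Finset.subset_insert _ _) hg)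
  have hcar1 : ∀ x ∈ p1.s, car x ⊆ insert (Sum.inl a) s := fun x hx => (mem_restr.1 hx).2
  -- facts common to two copies
  have hcom : ∀ i j u v, u ∈ p1.s → v ∈ p1.s → i ≠ j → car (fa (h i) u) = car (fa (h j) v) →
      fa (h i) u = u := by
    intro i j u v hu hv hij hc
    refine fa_fix _ _ fun t ht => ?_
    rcases Finset.mem_insert.1 (hcar1 u hu ht) with rfl | ht'
    · exfalso
      have h1 := (mem_car_fa (h i) u _).2 ht
      rw [hha, hc] at h1
      obtain ⟨t', ht', h2⟩ := (mem_car_fa' (h j) v _).1 h1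
      rcases Finset.mem_insert.1 (hcar1 v hv ht') with rfl | ht''
      · rw [hha] at h2
        exact hij (z.injective (Sum.inl.inj h2)).symm
      · rw [hh j _ ht''] at h2
        rw [h2] at ht''
        exact hzs i ht''
    · exact hh i _ ht'
  let M0 : Fact → Prop := fun x => ∃ i, ∃ y ∈ p1.s, fa (h i) y = x
  have hM0inj : ∀ x y, M0 x → M0 y → key x = key y → x = y := by
    rintro _ _ ⟨i, u, hu, rfl⟩ ⟨j, v, hv, rfl⟩ hk
    by_cases hij : i = j
    · subst hij
      rw [p1.inj u hu v hv ((key_fa_iff _ _ _).1 hk)]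
    · have hc := car_of_key hk
      have h1 := hcom i j u v hu hv hij hc
      have h2 := hcom j i v u hv hu (Ne.symm hij) hc.symm
      rw [h1, h2] at hk ⊢
      exact p1.inj u hu v hv hk
  have hagree : ∀ i, ∀ t ∈ insert (Sum.inl a) s, gp (lft γ * h i) t = gp (h (sg i)) t := by
    intro i t ht
    rw [map_mul, Equiv.Perm.mul_apply]
    rcases Finset.mem_insert.1 ht with rfl | ht'
    · rw [hha, hha, lft_inl, hγz]
    · rw [hh i _ ht', hh _ _ ht', hΓs _ ht']
  have hfaΓ : ∀ i, ∀ y ∈ p1.s, fa (lft γ) (fa (h i) y) = fa (h (sg i)) y := by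
    intro i y hy
    have : fa (lft γ) (fa (h i) y) = fa (lft γ * h i) y := by
      rw [map_mul, Equiv.Perm.mul_apply]
    rw [this]
    exact fa_congr _ _ _ fun t ht => hagree i t (hcar1 y hy ht)
  have hM0Γ : ∀ x, M0 x ↔ M0 (fa (lft γ) x) := by
    intro x
    constructor
    · rintro ⟨i, y, hy, rfl⟩
      exact ⟨sg i, y, hy, (hfaΓ i y hy).symm⟩
    · rintro ⟨j, y, hy, hj⟩
      refine ⟨sg.symm j, y, hy, ?_⟩
      apply (fa (lft γ)).injective
      rw [hfaΓ _ y hy, Equiv.apply_symm_apply, hj]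
  -- the partial choice function
  let c₀ : Finset ℕ → Option (Finset ℕ) := fun w =>
    if hw : ∃ x : CF, x.1.1 = w ∧ M0 (.inr x) then some hw.choose.1.2 else none
  have hc₀ : ∀ w v, c₀ w = some v ↔ ∃ x : CF, x.1.1 = w ∧ x.1.2 = v ∧ M0 (.inr x) := by
    intro w v
    constructor
    · intro hw
      by_cases hex : ∃ x : CF, x.1.1 = w ∧ M0 (.inr x)
      · have e : c₀ w = some hex.choose.1.2 := dif_pos hex
        rw [e, Option.some.injEq] at hw
        exact ⟨hex.choose, hex.choose_spec.1, hw, hex.choose_spec.2⟩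
      · have e : c₀ w = none := dif_neg hex
        rw [e] at hw
        exact absurd hw (by simp)
    · rintro ⟨x, hx1, hx2, hx3⟩
      have hex : ∃ x : CF, x.1.1 = w ∧ M0 (.inr x) := ⟨x, hx1, hx3⟩
      have e : c₀ w = some hex.choose.1.2 := dif_pos hex
      rw [e]
      have h1 := hM0inj _ _ hex.choose_spec.2 hx3 (by
        rw [key, key, hex.choose_spec.1, hx1])
      rw [Sum.inr.inj h1, hx2]
  obtain ⟨c, hcA, hcB, hcC⟩ := equivariant_choice γ z z.injective hγz hγo c₀ (by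
    intro w v hwv
    obtain ⟨x, rfl, rfl, _⟩ := (hc₀ w v).1 hwv
    exact ⟨x.2.2.1, x.2.2.2⟩) (by
    intro w v
    rw [hc₀, hc₀]
    constructor
    · rintro ⟨x, rfl, rfl, hx⟩
      exact ⟨x.map γ, rfl, rfl, (hM0Γ _).1 hx⟩
    · rintro ⟨x, hx1, hx2, hx⟩
      refine ⟨x.map γ⁻¹, ?_, ?_, ?_⟩
      · change x.1.1.map _ = w
        rw [hx1, map_map_perm, inv_mul_cancel, map_one_perm]
      · change x.1.2.map _ = v
        rw [hx2, map_map_perm, inv_mul_cancel, map_one_perm]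
      · rw [hM0Γ, fa_inr]
        have e : (x.map γ⁻¹).map (lft γ).1.2 = x := by
          change (x.map γ⁻¹).map γ = x
          rw [CF.map_map, mul_inv_cancel, CF.map_one]
        rw [e]; exact hx)
  -- the big support
  set T : Finset Pt := s ∪ (Finset.univ.map z).map ⟨Sum.inl, Sum.inl_injective⟩ with hT
  have hTz : ∀ i, Sum.inl (z i) ∈ T := fun i => Finset.mem_union_right _
    (Finset.mem_map.2 ⟨z i, Finset.mem_map.2 ⟨i, Finset.mem_univ _, rfl⟩, rfl⟩)
  have hTcases : ∀ t ∈ T, t ∈ s ∨ ∃ i, t = .inl (z i) := by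
    intro t ht
    rcases Finset.mem_union.1 ht with ht | ht
    · exact Or.inl ht
    · obtain ⟨b, hb, rfl⟩ := Finset.mem_map.1 ht
      obtain ⟨i, _, rfl⟩ := Finset.mem_map.1 hb
      exact Or.inr ⟨i, rfl⟩
  have hsT : s ⊆ T := Finset.subset_union_left
  have hTc : Closed T := by
    intro b n hb
    rcases hTcases _ hb with hb | ⟨i, hi⟩
    · exact hsT (hs b n hb)
    · simp at hi
  have hΓT : ∀ t, gp (lft γ) t ∈ T ↔ t ∈ T := by
    have h1 : ∀ t ∈ T, gp (lft γ) t ∈ T := by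
      intro t ht
      rcases hTcases _ ht with ht | ⟨i, rfl⟩
      · rw [hΓs _ ht]; exact hsT ht
      · rw [lft_inl, hγz]; exact hTz _
    intro t
    refine ⟨fun ht => ?_, h1 t⟩
    have h2 : T.image (gp (lft γ)) = T := by
      apply Finset.eq_of_subset_of_card_le
      · intro u hu
        obtain ⟨v, hv, rfl⟩ := Finset.mem_image.1 hu
        exact h1 v hv
      · rw [Finset.card_image_of_injective _ (gp (lft γ)).injective]
    rw [← h2] at ht
    obtain ⟨v, hv, hvt⟩ := Finset.mem_image.1 ht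
    rw [← (gp (lft γ)).injective hvt]; exact hv
  let W : Finset ℕ := T.preimage Sum.inl Sum.inl_injective.injOn
  have hW : ∀ b, b ∈ W ↔ Sum.inl b ∈ T := fun b => Finset.mem_preimage
  have hcarW : ∀ x : CF, car (.inr x) ⊆ T ↔ x.1.1 ⊆ W := by
    intro x
    constructor
    · intro hx b hb
      rw [hW]
      exact hx (Finset.mem_map.2 ⟨b, hb, rfl⟩)
    · intro hx t ht
      obtain ⟨b, hb, rfl⟩ := Finset.mem_map.1 ht
      exact (hW b).1 (hx hb)
  -- the strong condition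
  have hwP : ∀ w : {w // w ∈ W.powerset.filter (fun w => 8 < w.card)},
      w.1 ⊆ W ∧ 8 < w.1.card := fun w =>
    ⟨Finset.mem_powerset.1 (Finset.mem_filter.1 w.2).1, (Finset.mem_filter.1 w.2).2⟩
  let new : Finset Fact := ((W.powerset.filter (fun w => 8 < w.card)).attach).image (fun w =>
    Sum.inr ⟨(w.1, c w.1), (hwP w).2, hcA w.1 (hwP w).2⟩)
  have hnew : ∀ x, x ∈ new ↔ ∃ x' : CF, x = .inr x' ∧ x'.1.1 ⊆ W ∧ c x'.1.1 = x'.1.2 := by
    intro x
    constructor
    · intro hx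
      obtain ⟨w, _, rfl⟩ := Finset.mem_image.1 hx
      exact ⟨_, rfl, (hwP w).1, rfl⟩
    · rintro ⟨x', rfl, hx1, hx2⟩
      refine Finset.mem_image.2 ⟨⟨x'.1.1, Finset.mem_filter.2
        ⟨Finset.mem_powerset.2 hx1, x'.2.1⟩⟩, Finset.mem_attach _ _, ?_⟩
      congr 1
      apply Subtype.ext
      exact Prod.ext rfl hx2
  have hcM0 : ∀ x : CF, M0 (.inr x) → c x.1.1 = x.1.2 := fun x hx =>
    hcC _ _ ((hc₀ _ _).2 ⟨x, rfl, rfl, hx⟩)
  obtain ⟨q1s, hq1s⟩ : ∃ q : Finset Fact, ∀ x, x ∈ q ↔ M0 x ∨ x ∈ new := by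
    refine ⟨(Finset.univ.biUnion fun i => p1.s.image (fa (h i))) ∪ new, fun x => ?_⟩
    rw [Finset.mem_union]
    refine or_congr ?_ Iff.rfl
    simp only [Finset.mem_biUnion, Finset.mem_univ, true_and, Finset.mem_image]
    rfl
  let q1 : PP := {
    s := q1s
    inj := by
      have hmem : ∀ x, x ∈ q1s → M0 x ∨ ∃ x' : CF, x = .inr x' ∧ c x'.1.1 = x'.1.2 := by
        intro x hx
        rcases (hq1s x).1 hx with hx | hx
        · exact Or.inl hx
        · right
          obtain ⟨x', h1, _, h2⟩ := (hnew x).1 hx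
          exact ⟨x', h1, h2⟩
      have hmem' : ∀ x' : CF, Sum.inr x' ∈ q1s → c x'.1.1 = x'.1.2 := by
        intro x' hx'
        rcases hmem _ hx' with h1 | ⟨y, h1, h2⟩
        · exact hcM0 _ h1
        · rw [Sum.inr.inj h1]; exact h2
      intro x hx y hy hxy
      rcases x with x | x <;> rcases y with y | y
      · rcases hmem _ hx with h1 | ⟨x', h1, _⟩
        · rcases hmem _ hy with h2 | ⟨y', h2, _⟩
          · exact hM0inj _ _ h1 h2 hxy
          · simp at h2
        · simp at h1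
      · exact absurd hxy (by simp [Qs, key])
      · exact absurd hxy (by simp [Qs, key])
      · have h1 := hmem' x hx
        have h2 := hmem' y hy
        have h3 : x.1.1 = y.1.1 := Sum.inr.inj hxy
        congr 1
        apply Subtype.ext
        refine Prod.ext h3 ?_
        rw [← h1, ← h2, h3] }
  have hq1a : ∀ i, q1 ≤ ac (h i) p1 := by
    intro i x hx
    obtain ⟨y, hy, hyx⟩ := (mem_ac _ _ _).1 hx
    exact (hq1s x).2 (Or.inl ⟨i, y, hy, hyx⟩)
  have hq1b : ∀ x : CF, x.1.1 ⊆ W → c x.1.1 = x.1.2 → Sum.inr x ∈ q1.s := by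
    intro x h1 h2
    exact (hq1s _).2 (Or.inr ((hnew _).2 ⟨x, rfl, h1, h2⟩))
  -- values
  have f1 : ∀ i, ebb q1 ≤ (xt (.inl (z i))).mem η := by
    intro i
    refine le_trans (eb_mono (hq1a i)) ?_
    change ebb (ac (h i) p1) ≤ _
    rw [← al_ebb, ← hha i, ← al_mem_xt hη (hh i)]
    exact al_mono _ e1
  have f2 : ebb q1 ≤ ⨅ z, chi η φ z := by
    refine le_trans (eb_mono (hq1a 0)) ?_
    change ebb (ac (h 0) p1) ≤ _
    rw [← al_ebb, ← al_chis hη hφ (hh 0)]
    exact al_mono _ e2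
  have f3 : ebb q1 ≤ theta φ := by
    refine le_trans (eb_mono (hq1a 0)) ?_
    change ebb (ac (h 0) p1) ≤ _
    rw [← al_ebb, ← al_theta hφ (hh 0)]
    exact al_mono _ e3
  have f4 : ebb q1 ≤ ⨆ i, brel φ (stF (Finset.univ.map z)) (xt (.inl (z i))) := by
    have h1 : ebb q1 ≤ (⨅ i, (xt (.inl (z i))).mem η) ⊓ chi η φ z :=
      le_inf (le_iInf f1) (f2.trans (iInf_le _ z))
    refine h1.trans ?_
    unfold chi
    rw [inf_himp]
    exact inf_le_right
  obtain ⟨q', i, hq', hq'v⟩ := exists_le_of_le_iSup (Q := Qs) f4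
  -- the second copy
  obtain ⟨g, hg, hgf⟩ := fresh T hTc ((carP q').image (gp (lft γ))) (carP q')
  have hδs : g * lft γ ∈ H s := mul_mem (H_mono hsT hg) hΓs
  have hδT : ∀ t ∈ T, gp (g * lft γ) t = gp (lft γ) t := by
    intro t ht
    rw [map_mul, Equiv.Perm.mul_apply]
    exact hg _ ((hΓT t).2 ht)
  have hcomp : Compat q' (ac (g * lft γ) q') := by
    intro x hx y hy hxy
    obtain ⟨v, hv, rfl⟩ := (mem_ac _ q' y).1 hy
    have hcar : car x = car (fa (g * lft γ) v) := car_of_key hxy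
    have hsub : car v ⊆ T := by
      intro t ht
      by_contra htT
      have h1 : gp (g * lft γ) t ∈ carP q' := by
        apply car_subset hx
        rw [hcar]
        exact (mem_car_fa _ v t).2 ht
      rw [map_mul, Equiv.Perm.mul_apply] at h1
      exact hgf _ (Finset.mem_image_of_mem _ (car_subset hv ht)) (fun h2 => htT ((hΓT t).1 h2)) h1
    have h2 : fa (g * lft γ) v = fa (lft γ) v := fa_congr _ _ _ fun t ht => hδT t (hsub ht)
    rw [h2] at hxy ⊢
    have h3 : fa (lft γ) v ∈ q'.s := by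
      rcases v with v | v
      · have h4 : Sum.inr v.1 ∈ s := by
          have h5 : Sum.inr v.1 ∈ T := hsub (by simp [car])
          rcases hTcases _ h5 with h6 | ⟨j, h6⟩
          · exact h6
          · simp at h6
        have h5 : fa (lft γ) (.inl v) = .inl v := fa_fix _ _ fun t ht => by
          have h6 : t = Sum.inr v.1 := by simpa [car] using ht
          rw [h6]
          exact hΓs _ h4
        rw [h5]; exact hv
      · have hvW : v.1.1 ⊆ W := (hcarW v).1 hsub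
        have h4 : c v.1.1 = v.1.2 := by
          have h5 : (Sum.inr ⟨(v.1.1, c v.1.1), v.2.1, hcA _ v.2.1⟩ : Fact) ∈ q1.s :=
            hq1b ⟨(v.1.1, c v.1.1), v.2.1, hcA _ v.2.1⟩ hvW rfl
          have h6 := q'.inj _ (hq' h5) _ hv rfl
          have h7 := congrArg (fun x : CF => x.1.2) (Sum.inr.inj h6)
          exact h7
        apply hq'
        rw [fa_inr]
        refine hq1b _ ?_ ?_
        · intro b hb
          obtain ⟨b', hb', rfl⟩ := Finset.mem_map.1 hb
          rw [hW]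
          exact (hΓT (.inl b')).2 ((hW b').1 (hvW hb'))
        · change c (v.1.1.map γ.toEmbedding) = v.1.2.map γ.toEmbedding
          rw [hcB _ v.2.1, h4]
    exact q'.inj x hx _ h3 hxy
  obtain ⟨r, hr1, hr2, _⟩ := exists_union hcomp
  have g1 : ebb r ≤ brel φ (stF (Finset.univ.map z)) (xt (.inl (z i))) :=
    (eb_mono hr1).trans hq'v
  have g2 : ebb r ≤ brel φ (stF (Finset.univ.map z)) (xt (.inl (z (sg i)))) := by
    have h1 : ebb r ≤ al (g * lft γ) (brel φ (stF (Finset.univ.map z)) (xt (.inl (z i)))) := by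
      refine le_trans (eb_mono hr2) ?_
      change ebb (ac _ q') ≤ _
      rw [← al_ebb]
      exact al_mono _ hq'v
    rw [al_brel_st hφ hδs] at h1
    have h2 : ∀ j, (g * lft γ).1.2 (z j) = z (sg j) := by
      intro j
      have h3 := hδT _ (hTz j)
      rw [lft_inl, hγz] at h3
      exact Sum.inl.inj h3
    have h3 : Finset.univ.map (z.trans (g * lft γ).1.2.toEmbedding) = Finset.univ.map z := by
      ext b
      simp only [Finset.mem_map, Finset.mem_univ, true_and]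
      constructor
      · rintro ⟨j, rfl⟩
        exact ⟨sg j, (h2 j).symm⟩
      · rintro ⟨j, rfl⟩
        refine ⟨sg.symm j, ?_⟩
        change (g * lft γ).1.2 (z (sg.symm j)) = z j
        rw [h2, Equiv.apply_symm_apply]
    rw [h3] at h1
    have h4 : z.trans (g * lft γ).1.2.toEmbedding i = z (sg i) := h2 i
    rw [h4] at h1
    exact h1
  have g3 : ebb r ≤ theta φ := (eb_mono (hr1.trans hq')).trans f3
  have g4 : ebb r ≤ (xt (.inl (z i))).eq (xt (.inl (z (sg i)))) :=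
    (le_inf g3 (le_inf g1 g2)).trans (theta_le _ _ _ _)
  have g5 : (xt (.inl (z i))).eq (xt (.inl (z (sg i)))) = ⊥ :=
    Rs.xa_eq_bot fun he => sg_ne i (z.injective he).symm
  rw [g5] at g4
  exact eb_ne_bot (Q := Qs) r (le_bot_iff.1 g4)

end Pool.Agent.Lib.MP_f9fa2e_lc
end

section

set_option autoImplicit false

open Set

namespace Pool.Agent.Lib.MP_f9fa2e_lc

open Pool.Agent.Lib.SymZF SymSys FactSys

/-- `RC_11` fails in the model. -/
theorem not_rc11 {N : Names DD} {G : Gen N} (hN : GoodN N) (hG : GoodG G) : ¬ RC G.E 11 := by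
  classical
  intro hRC
  have hZ := G.isZF
  have hω := G.omegaStd
  have hinj : Function.Injective (fun a : ℕ => G.ev (xt (.inl a))) := fun a b h => ev_xa_inj' hN h
  obtain ⟨y, hy1, hy2, f, ⟨hf1, hf2⟩, hf3⟩ := hRC (G.ev stU) (by
    rw [isFin_iff hZ hω]
    have h1 : {t | G.E t (G.ev stU)} = Set.range (fun a : ℕ => G.ev (xt (.inl a))) := by
      ext t
      rw [mem_ofPred_eq, mem_stU hN]
      constructor
      · rintro ⟨a, rfl⟩; exact ⟨a, rfl⟩
      · rintro ⟨a, rfl⟩; exact ⟨a, rfl⟩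
    rw [h1]
    exact Set.infinite_range_of_injective hinj)
  obtain ⟨η, hη, rfl⟩ := G.ev_surj y
  obtain ⟨φ, hφ, rfl⟩ := G.ev_surj f
  obtain ⟨s1, hs1, hη1⟩ := exists_inv η
  obtain ⟨s2, hs2, hφ1⟩ := exists_inv φ
  have hs : Closed (s1 ∪ s2) := by
    intro a n h
    rcases Finset.mem_union.1 h with h | h
    · exact Finset.mem_union_left _ (hs1 a n h)
    · exact Finset.mem_union_right _ (hs2 a n h)
  -- functionality
  have hfun : ∀ a b b', Rel G.E (G.ev φ) a b → Rel G.E (G.ev φ) a b' → b = b' := by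
    intro a b b' h h'
    obtain ⟨p, hp, hpf⟩ := h
    obtain ⟨a', c, ha', _, hp'⟩ := hf1 p hpf
    obtain ⟨rfl, rfl⟩ := opair_inj hp hp'
    obtain ⟨d, _, hd⟩ := hf2 a ha'
    rw [hd b ⟨p, hp, hpf⟩, hd b' h']
  have ht : theta φ ∈ G.U := (theta_truth hφ).2 hfun
  -- the statement on the values
  have hchi : (⨅ z, chi η φ z) ∈ G.U := by
    rcases hG.gv η φ hη hφ with ⟨z, hz⟩ | h
    · exfalso
      have e : (chi η φ z)ᶜ = (⨅ i, (xt (.inl (z i))).mem η) ⊓
          (⨆ i, brel φ (stF (Finset.univ.map z)) (xt (.inl (z i))))ᶜ := by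
        unfold chi
        rw [himp_eq, compl_sup, compl_compl, inf_comm]
      rw [e] at hz
      have h1 : ∀ i, G.E (G.ev (xt (.inl (z i)))) (G.ev η) := fun i =>
        (Gen.E_ev (hN.xt _) hη).2 (G.up hz (inf_le_left.trans (iInf_le _ i)))
      have h2 : MSub G.E 11 (G.ev η) (G.ev (stF (Finset.univ.map z))) := by
        refine ⟨fun t ht => ?_, ?_⟩
        · obtain ⟨b, hb, rfl⟩ := (mem_stF hN _ _).1 ht
          obtain ⟨i, _, rfl⟩ := Finset.mem_map.1 hb
          exact h1 i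
        · rw [hasCard_iff]
          refine ⟨?_, (ncard_stF hN _).2⟩
          rw [(ncard_stF hN _).1, Finset.card_map, Finset.card_univ, Fintype.card_fin]
      obtain ⟨b, hb, _⟩ := hf2 _ h2
      obtain ⟨c, hc, rfl⟩ := (mem_stF hN _ _).1 (hf3 _ _ hb)
      obtain ⟨i, _, rfl⟩ := Finset.mem_map.1 hc
      rw [brel_truth hφ (hN.stF _) (hN.xt _)] at hb
      exact G.compl_mem (G.up hb (le_iSup (fun i => brel φ (stF (Finset.univ.map z))
        (xt (.inl (z i)))) i)) (G.up hz inf_le_right)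
    · have e : (⨆ z, (chi η φ z)ᶜ)ᶜ = ⨅ z, chi η φ z := by
        rw [compl_iSup]
        exact iInf_congr fun z => compl_compl _
      rwa [e] at h
  -- an atom outside of the support
  have hex : ∃ a : ℕ, Sum.inl a ∉ s1 ∪ s2 ∧ G.E (G.ev (xt (.inl a))) (G.ev η) := by
    by_contra hcon
    push Not at hcon
    apply hy2
    rw [isFin_iff hZ hω]
    have h1 : {t | G.E t (G.ev η)} ⊆ (fun t : Pt => G.ev (xt t)) '' ((s1 ∪ s2 : Finset Pt) : Set Pt) := by
      intro t ht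
      obtain ⟨a, rfl⟩ := (mem_stU hN _).1 (hy1 t ht)
      refine ⟨.inl a, ?_, rfl⟩
      by_contra hna
      exact hcon a hna ht
    exact ((Finset.finite_toSet _).image _).subset h1
  obtain ⟨a, ha1, ha2⟩ := hex
  have ha3 : (xt (.inl a)).mem η ∈ G.U := (Gen.E_ev (hN.xt _) hη).1 ha2
  obtain ⟨p, _, hp⟩ := G.cond _ (G.inf ha3 (G.inf hchi ht))
  exact no_choice η φ (s1 ∪ s2) hs (hη1.mono Finset.subset_union_left)
    (hφ1.mono Finset.subset_union_right) a ha1 p (hp.trans inf_le_left)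
    (hp.trans (inf_le_right.trans inf_le_left)) (hp.trans (inf_le_right.trans inf_le_right))

/-- The independence result. -/
theorem main : ∃ (M : Type) (E : M → M → Prop), IsZF E ∧ OmegaStd E ∧ RCfin E 8 ∧ ¬ RC E 11 := by
  obtain ⟨N, hN⟩ := exists_goodN
  obtain ⟨G, hG, _⟩ := exists_goodG N (⟨∅, by simp⟩ : Qs.P)
  exact ⟨G.M, G.E, G.isZF, G.omegaStd, rcfin8 hN hG, not_rc11 hN hG⟩

end Pool.Agent.Lib.MP_f9fa2e_lc
end
end
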